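import Pool.Agent.H690R3.Itm.Defs

/-! Basic facts on subdivisions. -/

namespace Pool.Agent.H690R3.Itm

@[simp] lemma sub_some_some {V : Type} {G : SimpleGraph V} {u v a b : V} :
    (subdivideEdge G u v).Adj (some a) (some b) ↔ G.Adj a b ∧ s(a, b) ≠ s(u, v) := Iff.rfl
@[simp] lemma sub_some_none {V : Type} {G : SimpleGraph V} {u v a : V} :
    (subdivideEdge G u v).Adj (some a) none ↔ a = u ∨ a = v := Iff.rfl
@[simp] lemma sub_none_some {V : Type} {G : SimpleGraph V} {u v a : V} :
    (subdivideEdge G u v).Adj none (some a) ↔ a = u ∨ a = v := Iff.rfl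
@[simp] lemma sub_none_none {V : Type} {G : SimpleGraph V} {u v : V} :
    (subdivideEdge G u v).Adj none none ↔ False := Iff.rfl

/-- isomorphic graphs have isomorphic subdivisions -/
def subIso {V W : Type} {G : SimpleGraph V} {H : SimpleGraph W} (e : G ≃g H) (u v : V) :
    subdivideEdge G u v ≃g subdivideEdge H (e u) (e v) where
  toEquiv := Equiv.optionCongr e.toEquiv
  map_rel_iff' := by
    rintro (_ | a) (_ | b)
    · simp
    · simp
    · simp
    · simp only [Equiv.optionCongr_apply, Option.map_some, sub_some_some]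
      have h1 : H.Adj (e.toEquiv a) (e.toEquiv b) ↔ G.Adj a b := e.map_adj_iff
      have h2 : s(e.toEquiv a, e.toEquiv b) = s(e u, e v) ↔ s(a, b) = s(u, v) := by
        have : Function.Injective (Sym2.map e) := Sym2.map.injective e.injective
        exact this.eq_iff (a := s(a, b)) (b := s(u, v))
      rw [h1, ne_eq, h2]

lemma IsSubdivision.iso_left {V V' W : Type} {H : SimpleGraph V} {H' : SimpleGraph V'}
    {K : SimpleGraph W} (h : IsSubdivision H K) : ∀ {V' : Type} {H' : SimpleGraph V'},
    (H' ≃g H) → IsSubdivision H' K := by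
  induction h with
  | iso e => intro V' H' e'; exact IsSubdivision.iso (e'.trans e)
  | @step V W H K u v huv h ih =>
    intro V' H' e'
    have e2 := subIso e'.symm u v
    exact IsSubdivision.step (e'.symm.map_adj_iff.2 huv) (ih e2.symm)

lemma IsSubdivision.iso_right {V W : Type} {H : SimpleGraph V} {K : SimpleGraph W}
    (h : IsSubdivision H K) : ∀ {W' : Type} {K' : SimpleGraph W'}, (K ≃g K') → IsSubdivision H K' := by
  induction h with
  | iso e => intro W' K' e'; exact IsSubdivision.iso (e.trans e')
  | step huv h ih => intro W' K' e'; exact IsSubdivision.step huv (ih e')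

/-- subdividing once more -/
lemma IsSubdivision.tail {V W : Type} {H : SimpleGraph V} {K : SimpleGraph W}
    (h : IsSubdivision H K) : ∀ {u v : W}, K.Adj u v → IsSubdivision H (subdivideEdge K u v) := by
  induction h with
  | @iso V W H K e =>
    intro u v huv
    have e2 := subIso e.symm u v
    exact IsSubdivision.step (e.symm.map_adj_iff.2 huv) (IsSubdivision.iso e2.symm)
  | step huv h ih => intro a b hab; exact IsSubdivision.step huv (ih hab)

/-- an invariant that survives isomorphisms and subdivisions holds for all subdivisions -/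
lemma IsSubdivision.inv {V W : Type} {H : SimpleGraph V} {K : SimpleGraph W}
    (h : IsSubdivision H K) (P : ∀ {V : Type}, SimpleGraph V → Prop)
    (hiso : ∀ {V W : Type} {H : SimpleGraph V} {K : SimpleGraph W}, (H ≃g K) → P H → P K)
    (hsub : ∀ {V : Type} {H : SimpleGraph V} {u v : V}, H.Adj u v → P H → P (subdivideEdge H u v)) :
    P H → P K := by
  induction h with
  | iso e => exact hiso e
  | step huv h ih => intro hP; exact ih (hsub huv hP)

/-- induced subgraphs of `H` have subdivisions inside subdivisions of `H` -/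
lemma IsSubdivision.restrict {V W : Type} {H : SimpleGraph V} {K : SimpleGraph W}
    (h : IsSubdivision H K) : ∀ {U : Type} {H0 : SimpleGraph U}, (H0 ↪g H) → IsITM H0 K := by
  induction h with
  | @iso V W H K e =>
    intro U H0 f
    have f' : H0 ↪g K := f.trans e.toEmbedding
    refine ⟨Set.range f', IsSubdivision.iso ?_⟩
    exact ⟨Equiv.ofInjective f' f'.injective, by intro a b; simp [Equiv.ofInjective_apply]⟩
  | @step V W H K u v huv h ih =>
    intro U H0 f
    by_cases hab : ∃ a b, f a = u ∧ f b = v
    · obtain ⟨a, b, ha, hb⟩ := hab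
      have hadj : H0.Adj a b := f.map_adj_iff.1 (by rw [ha, hb]; exact huv)
      let f' : subdivideEdge H0 a b ↪g subdivideEdge H u v :=
        ⟨⟨Option.map f, Option.map_injective f.injective⟩, by
          rintro (_ | x) (_ | y)
          · simp
          · simp [← ha, ← hb]
          · simp [← ha, ← hb]
          · simp only [Function.Embedding.coeFn_mk, Option.map_some, sub_some_some, f.map_adj_iff]
            have h2 : s(f x, f y) = s(u, v) ↔ s(x, y) = s(a, b) := by
              rw [← ha, ← hb]
              have : Function.Injective (Sym2.map f) := Sym2.map.injective f.injective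
              exact this.eq_iff (a := s(x, y)) (b := s(a, b))
            rw [ne_eq, h2]⟩
      obtain ⟨S, hS⟩ := ih f'
      exact ⟨S, IsSubdivision.step hadj hS⟩
    · push Not at hab
      let f' : H0 ↪g subdivideEdge H u v :=
        ⟨⟨fun x => some (f x), fun x y hxy => f.injective (Option.some.inj hxy)⟩, by
          intro x y
          simp only [Function.Embedding.coeFn_mk, sub_some_some, f.map_adj_iff, and_iff_left_iff_imp]
          intro _ he
          rcases Sym2.eq_iff.1 he with ⟨h1, h2⟩ | ⟨h1, h2⟩
          · exact hab x y h1 h2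
          · exact hab y x h2 h1⟩
      exact ih f'

lemma IsITM.mono {U V W : Type} {H0 : SimpleGraph U} {H : SimpleGraph V} {G : SimpleGraph W}
    (h0 : IndSub H0 H) (h : IsITM H G) : IsITM H0 G := by
  obtain ⟨f⟩ := h0
  obtain ⟨S, hS⟩ := h
  obtain ⟨T, hT⟩ := hS.restrict f
  refine ⟨Subtype.val '' T, hT.iso_right ?_⟩
  refine ⟨(Equiv.Set.image _ T Subtype.val_injective), ?_⟩
  intro a b
  simp [Equiv.Set.image_apply]

lemma IsITM.of_indSub {V W : Type} {H : SimpleGraph V} {G : SimpleGraph W} (h : IndSub H G) :
    IsITM H G := by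
  obtain ⟨f⟩ := h
  exact (IsSubdivision.iso (RelIso.refl G.Adj) : IsSubdivision G G).restrict f

lemma IsITM.of_embedding {U V W : Type} {H : SimpleGraph U} {G' : SimpleGraph V} {G : SimpleGraph W}
    (h : IsITM H G') (h0 : IndSub G' G) : IsITM H G := by
  obtain ⟨f⟩ := h0
  obtain ⟨S, hS⟩ := h
  refine ⟨f '' S, hS.iso_right ?_⟩
  refine ⟨(Equiv.Set.image _ S f.injective), ?_⟩
  intro a b
  simp [Equiv.Set.image_apply]

lemma BddCw.mono {U V : Type} {H0 : SimpleGraph U} {H : SimpleGraph V} (h0 : IndSub H0 H)
    (h : BddCw H) : BddCw H0 := by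
  obtain ⟨c, hc⟩ := h
  exact ⟨c, fun V _ G hG => hc V G fun hH => hG (hH.mono h0)⟩

end Pool.Agent.H690R3.Itm
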