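import Pool.Agent.H175R2.Defs

/-! Definitions for MP_d0d08e_co: induced topological minors and clique-width. -/

namespace Pool.Agent.H690R3.Itm

/-- Subdividing the edge `uv` of `G`: the edge `uv` is removed and a new vertex `none` is joined to
`u` and to `v`. -/
def subdivideEdge {V : Type} (G : SimpleGraph V) (u v : V) : SimpleGraph (Option V) where
  Adj
    | some a, some b => G.Adj a b ∧ s(a, b) ≠ s(u, v)
    | some a, none => a = u ∨ a = v
    | none, some b => b = u ∨ b = v
    | none, none => False
  symm := ⟨by
    rintro (_ | a) (_ | b) h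
    · exact h
    · exact h
    · exact h
    · exact ⟨h.1.symm, by rw [Sym2.eq_swap]; exact h.2⟩⟩
  loopless := ⟨by
    rintro (_ | a) h
    · exact h
    · exact h.1.ne rfl⟩

/-- `IsSubdivision H K`: the graph `K` is (isomorphic to) a subdivision of `H`, i.e. it arises from
`H` by zero or more subdivisions of edges (equivalently, edges of `H` are replaced by internally
vertex-disjoint paths). -/
inductive IsSubdivision : ∀ {V W : Type}, SimpleGraph V → SimpleGraph W → Prop
  | iso {V W : Type} {H : SimpleGraph V} {K : SimpleGraph W} (e : H ≃g K) : IsSubdivision H K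
  | step {V W : Type} {H : SimpleGraph V} {K : SimpleGraph W} {u v : V} (huv : H.Adj u v)
      (h : IsSubdivision (subdivideEdge H u v) K) : IsSubdivision H K

/-- `H` is an induced topological minor of `G`: some induced subgraph of `G` is isomorphic to a
subdivision of `H`. -/
def IsITM {W V : Type} (H : SimpleGraph W) (G : SimpleGraph V) : Prop :=
  ∃ S : Set V, IsSubdivision H (G.induce S)

/-- Clique-width is bounded on the class of (finite) `H`-induced-topological-minor-free graphs. -/
def BddCw {W : Type} (H : SimpleGraph W) : Prop :=
  ∃ c : ℕ, ∀ (V : Type) [Finite V] (G : SimpleGraph V), ¬ IsITM H G →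
    Pool.Agent.H175R2.cliqueWidth G ≤ c

/-- `H` is isomorphic to an induced subgraph of `G`. -/
def IndSub {W V : Type} (H : SimpleGraph W) (G : SimpleGraph V) : Prop := Nonempty (H ↪g G)

/-- the path `0 1 2 3` on four vertices -/
def P4 : SimpleGraph (Fin 4) := SimpleGraph.fromRel (fun x y => x.val + 1 = y.val)

end Pool.Agent.H690R3.Itm
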