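import Pool.Agent.H690R3.Itm.Inv

/-! Finite enumeration: graphs on at most five vertices. -/

namespace Pool.Agent.H690R3.Itm

/-- early-exit existential over `{0,...,n-1}` -/
def exB (n : ℕ) (p : ℕ → Bool) : Bool :=
  match n with
  | 0 => false
  | n + 1 => p n || exB n p

lemma exB_iff (n : ℕ) (p : ℕ → Bool) : exB n p = true ↔ ∃ i < n, p i = true := by
  induction n with
  | zero => simp [exB]
  | succ n ih =>
    simp only [exB, Bool.or_eq_true, ih]
    constructor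
    · rintro (h | ⟨i, hi, h⟩)
      · exact ⟨n, by omega, h⟩
      · exact ⟨i, by omega, h⟩
    · rintro ⟨i, hi, h⟩
      by_cases hin : i = n
      · left; rw [← hin]; exact h
      · right; exact ⟨i, by omega, h⟩

/-- `t` : the number of the pair `i < j` -/
def pairIx (i j : ℕ) : ℕ := j * (j - 1) / 2 + i

/-- adjacency of the coded graph -/
def ad (b i j : ℕ) : Bool :=
  if i < j then b.testBit (pairIx i j) else if j < i then b.testBit (pairIx j i) else false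

lemma ad_comm (b i j : ℕ) : ad b i j = ad b j i := by
  unfold ad
  rcases Nat.lt_trichotomy i j with h | h | h
  · simp [h, Nat.not_lt.2 h.le]
  · subst h; rfl
  · simp [h, Nat.not_lt.2 h.le]

lemma ad_self (b i : ℕ) : ad b i i = false := by simp [ad]

/-- an embedding of a four-vertex graph given by the six pairs 01 02 03 12 13 23 -/
def has4 (A : ℕ → ℕ → Bool) (m : ℕ) (e01 e02 e03 e12 e13 e23 : Bool) : Bool :=
  exB m fun x => exB m fun y => x != y && (A x y == e01) && exB m fun z =>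
    x != z && y != z && (A x z == e02) && (A y z == e12) && exB m fun w =>
      x != w && y != w && z != w && (A x w == e03) && (A y w == e13) && (A z w == e23)

/-- an embedding of a three-vertex graph -/
def has3 (A : ℕ → ℕ → Bool) (m : ℕ) (e01 e02 e12 : Bool) : Bool :=
  exB m fun x => exB m fun y => x != y && (A x y == e01) && exB m fun z =>
    x != z && y != z && (A x z == e02) && (A y z == e12)

/-- an embedding of a five-vertex graph -/
def has5 (A : ℕ → ℕ → Bool) (m : ℕ) (e01 e02 e03 e12 e13 e23 e04 e14 e24 e34 : Bool) : Bool :=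
  exB m fun x => exB m fun y => x != y && (A x y == e01) && exB m fun z =>
    x != z && y != z && (A x z == e02) && (A y z == e12) && exB m fun w =>
      x != w && y != w && z != w && (A x w == e03) && (A y w == e13) && (A z w == e23) &&
      exB m fun t => x != t && y != t && z != t && w != t && (A x t == e04) &&
        (A y t == e14) && (A z t == e24) && (A w t == e34)

/-- the graph on `Fin m` given by a symmetric irreflexive function -/
def fg (A : ℕ → ℕ → Bool) (h1 : ∀ i j, A i j = A j i) (h2 : ∀ i, A i i = false) (m : ℕ) :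
    SimpleGraph (Fin m) where
  Adj i j := A i j = true
  symm := ⟨fun i j h => by rw [h1]; exact h⟩
  loopless := ⟨fun i h => by rw [h2] at h; exact absurd h (by simp)⟩

/-- coded graph -/
def cg (m b : ℕ) : SimpleGraph (Fin m) := fg (ad b) (ad_comm b) (ad_self b) m

def pat3 (e01 e02 e12 : Bool) : ℕ := e01.toNat + 2 * e02.toNat + 4 * e12.toNat
def pat4 (e01 e02 e03 e12 e13 e23 : Bool) : ℕ :=
  pat3 e01 e02 e12 + 8 * e03.toNat + 16 * e13.toNat + 32 * e23.toNat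
def pat5 (e01 e02 e03 e12 e13 e23 e04 e14 e24 e34 : Bool) : ℕ :=
  pat4 e01 e02 e03 e12 e13 e23 + 64 * e04.toNat + 128 * e14.toNat + 256 * e24.toNat + 512 * e34.toNat

lemma ad_pat5 : ∀ e01 e02 e03 e12 e13 e23 e04 e14 e24 e34 : Bool,
    let b := pat5 e01 e02 e03 e12 e13 e23 e04 e14 e24 e34
    b < 1024 ∧ b.testBit 0 = e01 ∧ b.testBit 1 = e02 ∧ b.testBit 2 = e12 ∧
    b.testBit 3 = e03 ∧ b.testBit 4 = e13 ∧ b.testBit 5 = e23 ∧
    b.testBit 6 = e04 ∧ b.testBit 7 = e14 ∧ b.testBit 8 = e24 ∧ b.testBit 9 = e34 := by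
  decide +kernel

lemma ad_pat4 : ∀ e01 e02 e03 e12 e13 e23 : Bool,
    let b := pat4 e01 e02 e03 e12 e13 e23
    b < 64 ∧ b.testBit 0 = e01 ∧ b.testBit 1 = e02 ∧ b.testBit 2 = e12 ∧
    b.testBit 3 = e03 ∧ b.testBit 4 = e13 ∧ b.testBit 5 = e23 := by
  decide +kernel

lemma ad_pat3 : ∀ e01 e02 e12 : Bool,
    let b := pat3 e01 e02 e12
    b < 8 ∧ b.testBit 0 = e01 ∧ b.testBit 1 = e02 ∧ b.testBit 2 = e12 := by
  decide +kernel

lemma embed_of_list {A : ℕ → ℕ → Bool} {h1 : ∀ i j, A i j = A j i} {h2 : ∀ i, A i i = false}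
    {m k b : ℕ} (f : Fin k → Fin m) (h : ∀ i j : Fin k, i < j → f i ≠ f j ∧
      A (f i) (f j) = b.testBit (pairIx i j)) : IndSub (cg k b) (fg A h1 h2 m) := by
  have hinj : Function.Injective f := by
    intro i j hij
    rcases lt_trichotomy i j with h' | h' | h'
    · exact absurd hij (h i j h').1
    · exact h'
    · exact absurd hij.symm (h j i h').1
  refine ⟨⟨⟨f, hinj⟩, ?_⟩⟩
  intro i j
  show A (f i) (f j) = true ↔ ad b i j = true
  rcases lt_trichotomy i j with h' | h' | h'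
  · rw [(h i j h').2]
    have h'' : (i : ℕ) < j := h'
    simp [ad, h'']
  · subst h'; simp [ad, h2]
  · rw [h1, (h j i h').2]
    have h'' : (j : ℕ) < i := h'
    simp [ad, h'', Nat.not_lt.2 h''.le]

variable {A : ℕ → ℕ → Bool} {h1 : ∀ i j, A i j = A j i} {h2 : ∀ i, A i i = false} {m : ℕ}

lemma has3_embed {e01 e02 e12 : Bool} (h : has3 A m e01 e02 e12 = true) :
    IndSub (cg 3 (pat3 e01 e02 e12)) (fg A h1 h2 m) := by
  simp only [has3, exB_iff, Bool.and_eq_true, bne_iff_ne, beq_iff_eq] at h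
  obtain ⟨x, hx, y, hy, ⟨hxy, a01⟩, z, hz, ⟨⟨hxz, hyz⟩, a02⟩, a12⟩ := h
  obtain ⟨_, t0, t1, t2⟩ := ad_pat3 e01 e02 e12
  refine embed_of_list ![⟨x, hx⟩, ⟨y, hy⟩, ⟨z, hz⟩] ?_
  intro i j hij
  fin_cases i <;> fin_cases j <;> first
    | (exfalso; revert hij; decide)
    | (simp [pairIx, *]; done)

lemma has4_embed {e01 e02 e03 e12 e13 e23 : Bool} (h : has4 A m e01 e02 e03 e12 e13 e23 = true) :
    IndSub (cg 4 (pat4 e01 e02 e03 e12 e13 e23)) (fg A h1 h2 m) := by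
  simp only [has4, exB_iff, Bool.and_eq_true, bne_iff_ne, beq_iff_eq] at h
  obtain ⟨x, hx, y, hy, ⟨hxy, a01⟩, z, hz, ⟨⟨⟨hxz, hyz⟩, a02⟩, a12⟩, w, hw,
    ⟨⟨⟨⟨hxw, hyw⟩, hzw⟩, a03⟩, a13⟩, a23⟩ := h
  obtain ⟨_, t0, t1, t2, t3, t4, t5⟩ := ad_pat4 e01 e02 e03 e12 e13 e23
  refine embed_of_list ![⟨x, hx⟩, ⟨y, hy⟩, ⟨z, hz⟩, ⟨w, hw⟩] ?_
  intro i j hij
  fin_cases i <;> fin_cases j <;> first
    | (exfalso; revert hij; decide)
    | (simp [pairIx, *]; done)

lemma has5_embed {e01 e02 e03 e12 e13 e23 e04 e14 e24 e34 : Bool}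
    (h : has5 A m e01 e02 e03 e12 e13 e23 e04 e14 e24 e34 = true) :
    IndSub (cg 5 (pat5 e01 e02 e03 e12 e13 e23 e04 e14 e24 e34)) (fg A h1 h2 m) := by
  simp only [has5, exB_iff, Bool.and_eq_true, bne_iff_ne, beq_iff_eq] at h
  obtain ⟨x, hx, y, hy, ⟨hxy, a01⟩, z, hz, ⟨⟨⟨hxz, hyz⟩, a02⟩, a12⟩, w, hw,
    ⟨⟨⟨⟨⟨hxw, hyw⟩, hzw⟩, a03⟩, a13⟩, a23⟩, t, ht, ⟨⟨⟨⟨⟨⟨hxt, hyt⟩, hzt⟩, hwt⟩, a04⟩, a14⟩, a24⟩, a34⟩ := h
  obtain ⟨_, t0, t1, t2, t3, t4, t5, t6, t7, t8, t9⟩ :=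
    ad_pat5 e01 e02 e03 e12 e13 e23 e04 e14 e24 e34
  refine embed_of_list ![⟨x, hx⟩, ⟨y, hy⟩, ⟨z, hz⟩, ⟨w, hw⟩, ⟨t, ht⟩] ?_
  intro i j hij
  fin_cases i <;> fin_cases j <;> first
    | (exfalso; revert hij; decide)
    | (simp [pairIx, *]; done)

end Pool.Agent.H690R3.Itm
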