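import Pool.Agent.H690R3.Itm.Wall2
import Pool.Agent.H175R2.Fam
import Pool.Agent.H175R2.Cw

/-! Unbounded families. -/

namespace Pool.Agent.H690R3.Itm

open Pool.Agent.H175R2

lemma cwLE_cliqueWidth' {V : Type} [Finite V] [Nonempty V] (G : SimpleGraph V) :
    CwLE G (cliqueWidth G) := by
  have : Fintype V := Fintype.ofFinite V
  have ht : Tame G (Fintype.card V) := ⟨Finset.univ, by simp, fun x hx => by simp at hx⟩
  exact Nat.sInf_mem (s := {k | CwLE G k}) ⟨_, cwLE_of_dt (dt_of_tame ht)⟩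

/-- a bounded class misses members of an unbounded family -/
lemma itm_of_unbounded {W : Type} {H : SimpleGraph W} (hb : BddCw H) {V : ℕ → Type}
    [∀ n, Finite (V n)] (fam : ∀ n, SimpleGraph (V n)) (N : ℕ) (hne : ∀ n ≥ N, Nonempty (V n))
    (hu : ∀ c N : ℕ, ∃ n ≥ N, ∀ k ≤ c, ¬ CwLE (fam n) k) : ∃ n, IsITM H (fam n) := by
  obtain ⟨c, hc⟩ := hb
  obtain ⟨n, hn, hk⟩ := hu c N
  refine ⟨n, ?_⟩
  by_contra hno
  have := hc (V n) (fam n) hno
  have := hne n hn
  exact hk _ (by assumption) (cwLE_cliqueWidth' (fam n))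

theorem unb_ind3 {W : Type} {H : SimpleGraph W} (hH : Ind3 H) : ¬ BddCw H := by
  intro hb
  obtain ⟨n, S, hS⟩ := itm_of_unbounded hb famCobip 1
    (fun n hn => ⟨.inl ⟨0, hn⟩⟩) famCobip_unbounded
  obtain ⟨⟨a, _⟩, ⟨b, _⟩, ⟨c, _⟩, h1, h2, h3, h4, h5, h6⟩ := hH.sub hS
  have key : ∀ x y : Fin n ⊕ (Fin n × Fin n), x ≠ y → ¬ (famCobip n).Adj x y →
      x.isLeft ≠ y.isLeft := by
    intro x y hxy hadj hs
    apply hadj
    simp only [famCobip, SimpleGraph.fromRel_adj]
    refine ⟨hxy, Or.inl ?_⟩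
    cases x with
    | inl x =>
      cases y with
      | inl y => exact Or.inl ⟨x, y, rfl, rfl⟩
      | inr y => simp at hs
    | inr x =>
      cases y with
      | inl y => simp at hs
      | inr y => exact Or.inr (Or.inl ⟨x, y, rfl, rfl⟩)
  have k1 := key a b (fun h => h1 (Subtype.ext h)) h4
  have k2 := key a c (fun h => h2 (Subtype.ext h)) h5
  have k3 := key b c (fun h => h3 (Subtype.ext h)) h6
  revert k1 k2 k3
  cases a.isLeft <;> cases b.isLeft <;> cases c.isLeft <;> simp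

lemma famSplit_split (n : ℕ) : Split (famSplit n) := by
  refine ⟨fun x => x.isLeft, ?_, ?_⟩
  · intro x y hx hy hxy
    cases x with
    | inr x => simp at hx
    | inl x =>
      cases y with
      | inr y => simp at hy
      | inl y =>
        simp only [famSplit, SimpleGraph.fromRel_adj]
        exact ⟨hxy, Or.inl (Or.inl ⟨x, y, rfl, rfl⟩)⟩
  · intro x y hx hy hxy
    cases x with
    | inl x => simp at hx
    | inr x =>
      cases y with
      | inl y => simp at hy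
      | inr y =>
        simp [famSplit, SimpleGraph.fromRel_adj] at hxy

theorem unb_not_split {W : Type} {H : SimpleGraph W} (hH : ¬ Split H) : ¬ BddCw H := by
  intro hb
  obtain ⟨n, S, hS⟩ := itm_of_unbounded hb famSplit 1
    (fun n hn => ⟨.inl ⟨0, hn⟩⟩) famSplit_unbounded
  exact not_split_sub hS hH ((famSplit_split n).of_embedding (SimpleGraph.Embedding.induce S))

theorem unb_loose {W : Type} {H : SimpleGraph W} (hH : Loose H) : ¬ BddCw H := by
  classical
  intro hb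
  obtain ⟨n, S, hS⟩ := itm_of_unbounded hb famTrunc 2
    (fun n hn => ⟨⟨(⟨0, by omega⟩, ⟨1, by omega⟩), by simp⟩⟩) famTrunc_unbounded
  obtain ⟨a, a', h1, h2⟩ := hH.sub hS
  -- vertices nonadjacent to `a`
  have key : ∀ x y : {p : Fin n × Fin n // p.1 ≠ p.2}, x ≠ y → ¬ (famTrunc n).Adj x y →
      x.1.1 = y.1.1 ∨ (x.1.1 = y.1.2 ∧ x.1.2 = y.1.1) := by
    intro x y hxy hadj
    by_contra hc
    apply hadj
    simp only [famTrunc, SimpleGraph.fromRel_adj]
    exact ⟨hxy, Or.inl hc⟩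
  have key2 : ∀ x y : {p : Fin n × Fin n // p.1 ≠ p.2}, x.1.1 = y.1.1 → ¬ (famTrunc n).Adj x y := by
    intro x y hxy hadj
    simp only [famTrunc, SimpleGraph.fromRel_adj] at hadj
    rcases hadj.2 with h | h
    · exact h (Or.inl hxy)
    · exact h (Or.inl hxy.symm)
  -- the swapped partner of `a`
  obtain ⟨m, hm⟩ : ∃ m : S, ∀ x : S, x ≠ m → x ≠ a → x ≠ a' → a.1.1.1 = x.1.1.1 := by
    by_cases hex : ∃ m : S, a.1.1.1 = m.1.1.2 ∧ a.1.1.2 = m.1.1.1
    · obtain ⟨m, hm⟩ := hex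
      refine ⟨m, fun x hxm hxa hxa' => ?_⟩
      have hna : ¬ (famTrunc n).Adj a.1 x.1 := fun h => hxa' (h1 x h)
      rcases key a.1 x.1 (fun h => hxa (Subtype.ext h.symm)) hna with h | h
      · exact h
      · exfalso
        apply hxm
        apply Subtype.ext
        apply Subtype.ext
        exact Prod.ext (h.2.symm.trans hm.2) (h.1.symm.trans hm.1)
    · push Not at hex
      refine ⟨a, fun x _ hxa hxa' => ?_⟩
      have hna : ¬ (famTrunc n).Adj a.1 x.1 := fun h => hxa' (h1 x h)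
      rcases key a.1 x.1 (fun h => hxa (Subtype.ext h.symm)) hna with h | h
      · exact h
      · exact absurd h.2 (hex x h.1)
  obtain ⟨u, v, h3, h4, h5, h6, h7, h8, h9⟩ := h2 m
  exact key2 u.1 v.1 ((hm u h4 h6 h8).symm.trans (hm v h5 h7 h9)) h3

theorem unb_deg4 {W : Type} {H : SimpleGraph W} (hH : Deg4 H) : ¬ BddCw H := by
  intro hb
  obtain ⟨n, h⟩ := itm_of_unbounded hb wall 1 (fun n hn => ⟨((⟨0, hn⟩, ⟨0, hn⟩), false, 0)⟩)
    wall_unbounded
  exact wall_no_deg4 hH h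

theorem unb_k4like {W : Type} {H : SimpleGraph W} (hH : K4Like H) : ¬ BddCw H := by
  intro hb
  obtain ⟨n, h⟩ := itm_of_unbounded hb wall 1 (fun n hn => ⟨((⟨0, hn⟩, ⟨0, hn⟩), false, 0)⟩)
    wall_unbounded
  exact wall_no_k4like hH h

end Pool.Agent.H690R3.Itm
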