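import Pool.Agent.H690R3.Itm.Basic

/-! Invariants of subdivisions. -/

namespace Pool.Agent.H690R3.Itm

/-! ### independent triples -/

def Ind3 {V : Type} (G : SimpleGraph V) : Prop :=
  ∃ a b c, a ≠ b ∧ a ≠ c ∧ b ≠ c ∧ ¬ G.Adj a b ∧ ¬ G.Adj a c ∧ ¬ G.Adj b c

lemma Ind3.sub {V W : Type} {H : SimpleGraph V} {K : SimpleGraph W} (h : IsSubdivision H K)
    (hH : Ind3 H) : Ind3 K := by
  refine h.inv @Ind3 ?_ ?_ hH
  · rintro V W H K e ⟨a, b, c, h⟩
    refine ⟨e a, e b, e c, ?_⟩
    simp only [ne_eq, e.injective.eq_iff, e.map_adj_iff]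
    exact h
  · rintro V H u v _ ⟨a, b, c, h1, h2, h3, h4, h5, h6⟩
    refine ⟨some a, some b, some c, by simpa using h1, by simpa using h2, by simpa using h3, ?_, ?_, ?_⟩
    · exact fun h => h4 h.1
    · exact fun h => h5 h.1
    · exact fun h => h6 h.1

/-! ### split graphs -/

def Split {V : Type} (G : SimpleGraph V) : Prop :=
  ∃ C : V → Bool, (∀ x y, C x = true → C y = true → x ≠ y → G.Adj x y) ∧
    (∀ x y, C x = false → C y = false → ¬ G.Adj x y)

lemma Split.of_embedding {V W : Type} {H : SimpleGraph V} {G : SimpleGraph W} (f : H ↪g G)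
    (h : Split G) : Split H := by
  obtain ⟨C, h1, h2⟩ := h
  refine ⟨fun x => C (f x), fun x y hx hy hxy => ?_, fun x y hx hy hxy => ?_⟩
  · exact f.map_adj_iff.1 (h1 _ _ hx hy (f.injective.ne hxy))
  · exact h2 _ _ hx hy (f.map_adj_iff.2 hxy)

lemma split_of_sub {V : Type} {H : SimpleGraph V} {u v : V} (huv : H.Adj u v)
    (h : Split (subdivideEdge H u v)) : Split H := by
  classical
  obtain ⟨C, h1, h2⟩ := h
  have hnone : C none = true := by
    by_contra hn
    rw [Bool.not_eq_true] at hn
    have hu : C (some u) = true := by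
      by_contra hc
      rw [Bool.not_eq_true] at hc
      exact h2 none (some u) hn hc (Or.inl rfl)
    have hv : C (some v) = true := by
      by_contra hc
      rw [Bool.not_eq_true] at hc
      exact h2 none (some v) hn hc (Or.inr rfl)
    have := h1 _ _ hu hv (by simpa using huv.ne)
    exact this.2 rfl
  have hsome : ∀ a, C (some a) = true → a = u ∨ a = v := by
    intro a ha
    exact h1 _ _ ha hnone (by simp)
  -- the clique is a single vertex `w` of `{u, v}` containing all of `C`
  obtain ⟨w, hw, hw2⟩ : ∃ w, (w = u ∨ w = v) ∧ ∀ a, C (some a) = true → a = w := by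
    by_cases hu : C (some u) = true
    · refine ⟨u, Or.inl rfl, fun a ha => ?_⟩
      rcases hsome a ha with h | h
      · exact h
      · by_contra hau
        have := h1 _ _ ha hu (by simpa using hau)
        rw [h] at this
        exact this.2 Sym2.eq_swap
    · refine ⟨v, Or.inr rfl, fun a ha => ?_⟩
      rcases hsome a ha with h | h
      · rw [h] at ha; exact absurd ha hu
      · exact h
  refine ⟨fun x => decide (x = w), ?_, ?_⟩
  · intro x y hx hy hxy
    simp only [decide_eq_true_eq] at hx hy
    exact absurd (hx.trans hy.symm) hxy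
  · intro x y hx hy hxy
    simp only [decide_eq_false_iff_not] at hx hy
    have cx : C (some x) = false := by
      by_contra hc
      rw [Bool.not_eq_false] at hc
      exact hx (hw2 x hc)
    have cy : C (some y) = false := by
      by_contra hc
      rw [Bool.not_eq_false] at hc
      exact hy (hw2 y hc)
    refine h2 _ _ cx cy ⟨hxy, fun he => ?_⟩
    rcases Sym2.eq_iff.1 he with ⟨e1, e2⟩ | ⟨e1, e2⟩
    · rcases hw with hw | hw
      · exact hx (e1.trans hw.symm)
      · exact hy (e2.trans hw.symm)
    · rcases hw with hw | hw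
      · exact hy (e2.trans hw.symm)
      · exact hx (e1.trans hw.symm)

lemma not_split_sub {V W : Type} {H : SimpleGraph V} {K : SimpleGraph W} (h : IsSubdivision H K)
    (hH : ¬ Split H) : ¬ Split K := by
  refine h.inv (fun G => ¬ Split G) ?_ ?_ hH
  · intro V W H K e hn hs
    exact hn (hs.of_embedding e.toEmbedding)
  · intro V H u v huv hn hs
    exact hn (split_of_sub huv hs)

/-! ### vertices with many neighbours -/

def HasDeg {V : Type} (G : SimpleGraph V) (x : V) (d : ℕ) : Prop :=
  ∃ f : Fin d → V, Function.Injective f ∧ ∀ i, G.Adj x (f i)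

lemma HasDeg.map {V W : Type} {H : SimpleGraph V} {G : SimpleGraph W} (f : H ↪g G) {x : V} {d : ℕ}
    (h : HasDeg H x d) : HasDeg G (f x) d := by
  obtain ⟨g, h1, h2⟩ := h
  exact ⟨fun i => f (g i), f.injective.comp h1, fun i => f.map_adj_iff.2 (h2 i)⟩

lemma HasDeg.sub {V : Type} {H : SimpleGraph V} {u v x : V} {d : ℕ} (h : HasDeg H x d) :
    HasDeg (subdivideEdge H u v) (some x) d := by
  classical
  obtain ⟨g, h1, h2⟩ := h
  refine ⟨fun i => if s(x, g i) = s(u, v) then none else some (g i), ?_, ?_⟩
  · intro i j hij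
    simp only at hij
    split_ifs at hij with hi hj
    · have : s(x, g i) = s(x, g j) := hi.trans hj.symm
      exact h1 (Sym2.congr_right.1 this)
    · exact h1 (Option.some.inj hij)
  · intro i
    show (subdivideEdge H u v).Adj (some x) (if s(x, g i) = s(u, v) then none else some (g i))
    split_ifs with hi
    · rcases Sym2.eq_iff.1 hi with h | h
      · exact Or.inl h.1
      · exact Or.inr h.1
    · exact ⟨h2 i, hi⟩

def Deg4 {V : Type} (G : SimpleGraph V) : Prop := ∃ x, HasDeg G x 4

lemma Deg4.sub {V W : Type} {H : SimpleGraph V} {K : SimpleGraph W} (h : IsSubdivision H K)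
    (hH : Deg4 H) : Deg4 K := by
  refine h.inv @Deg4 ?_ ?_ hH
  · rintro V W H K e ⟨x, hx⟩
    exact ⟨e x, hx.map e.toEmbedding⟩
  · rintro V H u v _ ⟨x, hx⟩
    exact ⟨some x, hx.sub⟩

/-- four vertices of degree at least three containing all triangles -/
def K4Like {V : Type} (G : SimpleGraph V) : Prop :=
  ∃ b : Fin 4 → V, Function.Injective b ∧ (∀ i, HasDeg G (b i) 3) ∧
    ∀ x y z, G.Adj x y → G.Adj y z → G.Adj x z → ∃ i, b i = x

lemma K4Like.sub {V W : Type} {H : SimpleGraph V} {K : SimpleGraph W} (h : IsSubdivision H K)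
    (hH : K4Like H) : K4Like K := by
  refine h.inv @K4Like ?_ ?_ hH
  · rintro V W H K e ⟨b, h1, h2, h3⟩
    refine ⟨fun i => e (b i), e.injective.comp h1, fun i => (h2 i).map e.toEmbedding, ?_⟩
    intro x y z hxy hyz hxz
    obtain ⟨i, hi⟩ := h3 (e.symm x) (e.symm y) (e.symm z) (e.symm.map_adj_iff.2 hxy)
      (e.symm.map_adj_iff.2 hyz) (e.symm.map_adj_iff.2 hxz)
    exact ⟨i, by simp only [hi]; simp⟩
  · rintro V H u v huv ⟨b, h1, h2, h3⟩
    refine ⟨fun i => some (b i), (Option.some_injective V).comp h1, fun i => (h2 i).sub, ?_⟩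
    have huv' : ¬ (subdivideEdge H u v).Adj (some u) (some v) := fun h => h.2 rfl
    have hvu' : ¬ (subdivideEdge H u v).Adj (some v) (some u) := fun h => h.2 Sym2.eq_swap
    rintro (_ | x) (_ | y) (_ | z) hxy hyz hxz
    · exact absurd hxy (by simp)
    · exact absurd hxy (by simp)
    · exact absurd hxz (by simp)
    · -- none, some y, some z
      exfalso
      rw [sub_none_some] at hxy hxz
      rcases hxy with rfl | rfl <;> rcases hxz with rfl | rfl
      · exact hyz.1.ne rfl
      · exact huv' hyz
      · exact hvu' hyz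
      · exact hyz.1.ne rfl
    · exact absurd hyz (by simp)
    · exfalso
      rw [sub_some_none] at hxy
      rw [sub_none_some] at hyz
      rcases hxy with rfl | rfl <;> rcases hyz with rfl | rfl
      · exact hxz.1.ne rfl
      · exact huv' hxz
      · exact hvu' hxz
      · exact hxz.1.ne rfl
    · exfalso
      rw [sub_some_none] at hyz hxz
      rcases hyz with rfl | rfl <;> rcases hxz with rfl | rfl
      · exact hxy.1.ne rfl
      · exact hvu' hxy
      · exact huv' hxy
      · exact hxy.1.ne rfl
    · obtain ⟨i, hi⟩ := h3 x y z hxy.1 hyz.1 hxz.1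
      exact ⟨i, by simp only [hi]⟩

/-! ### the invariant for the complements of truncated complete graphs -/

/-- there is a vertex `a` of degree at most one, with neighbour `a'` if any, such that for every `m`
there is an edge avoiding `m`, `a` and `a'`. -/
def Loose {V : Type} (G : SimpleGraph V) : Prop :=
  ∃ a a', (∀ x, G.Adj a x → x = a') ∧ ∀ m, ∃ u v, G.Adj u v ∧ u ≠ m ∧ v ≠ m ∧ u ≠ a ∧ v ≠ a ∧
    u ≠ a' ∧ v ≠ a'

lemma Loose.sub {V W : Type} {H : SimpleGraph V} {K : SimpleGraph W} (h : IsSubdivision H K)
    (hH : Loose H) : Loose K := by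
  classical
  refine h.inv @Loose ?_ ?_ hH
  · rintro V W H K e ⟨a, a', h1, h2⟩
    refine ⟨e a, e a', fun x hx => ?_, fun m => ?_⟩
    · have := h1 (e.symm x) (by rw [← e.map_adj_iff]; simpa using hx)
      rw [← this]; simp
    · obtain ⟨u, v, h3, h4, h5, h6, h7, h8, h9⟩ := h2 (e.symm m)
      refine ⟨e u, e v, e.map_adj_iff.2 h3, ?_, ?_, e.injective.ne h6, e.injective.ne h7,
        e.injective.ne h8, e.injective.ne h9⟩
      · intro h; apply h4; rw [← h]; simp
      · intro h; apply h5; rw [← h]; simp
  · rintro V H p q hpq ⟨a, a', h1, h2⟩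
    have sne : ∀ {x y : V}, x ≠ y → (some x : Option V) ≠ some y := fun h he => h (Option.some.inj he)
    by_cases hpa : p = a ∨ q = a
    · -- the edge `a a'` is subdivided
      have hset : s(p, q) = s(a, a') := by
        rcases hpa with rfl | rfl
        · rw [h1 q hpq]
        · rw [h1 p hpq.symm, Sym2.eq_swap]
      refine ⟨some a, none, ?_, ?_⟩
      · rintro (_ | x) hx
        · rfl
        · exfalso
          rw [sub_some_some, hset] at hx
          exact hx.2 (by rw [h1 x hx.1])
      · have key : ∀ u v : V, H.Adj u v → u ≠ a → v ≠ a →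
            (subdivideEdge H p q).Adj (some u) (some v) := by
          intro u v huv hu hv
          refine ⟨huv, ?_⟩
          rw [hset]
          intro he
          rcases Sym2.eq_iff.1 he with h | h
          · exact hu h.1
          · exact hv h.2
        rintro (_ | m)
        · obtain ⟨u, v, h3, _, _, h6, h7, h8, h9⟩ := h2 a
          exact ⟨some u, some v, key u v h3 h6 h7, by simp, by simp, sne h6, sne h7, by simp, by simp⟩
        · obtain ⟨u, v, h3, h4, h5, h6, h7, h8, h9⟩ := h2 m
          exact ⟨some u, some v, key u v h3 h6 h7, sne h4, sne h5, sne h6, sne h7, by simp, by simp⟩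
    · push Not at hpa
      refine ⟨some a, some a', ?_, ?_⟩
      · rintro (_ | x) hx
        · rcases hx with h | h
          · exact absurd h.symm hpa.1
          · exact absurd h.symm hpa.2
        · rw [h1 x hx.1]
      · rintro (_ | m)
        · obtain ⟨u, v, h3, h4, h5, h6, h7, h8, h9⟩ := h2 p
          refine ⟨some u, some v, ⟨h3, ?_⟩, by simp, by simp, sne h6, sne h7, sne h8, sne h9⟩
          intro he
          rcases Sym2.eq_iff.1 he with h | h
          · exact h4 h.1
          · exact h5 h.2
        · obtain ⟨u, v, h3, h4, h5, h6, h7, h8, h9⟩ := h2 m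
          by_cases he : s(u, v) = s(p, q)
          · have hu : u = p ∨ u = q := by
              rcases Sym2.eq_iff.1 he with h | h
              · exact Or.inl h.1
              · exact Or.inr h.1
            exact ⟨some u, none, hu, sne h4, by simp, sne h6, by simp, sne h8, by simp⟩
          · exact ⟨some u, some v, ⟨h3, he⟩, sne h4, sne h5, sne h6, sne h7, sne h8, sne h9⟩

end Pool.Agent.H690R3.Itm
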