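import Pool.Agent.H690R3.Itm.Enum
import Pool.Agent.H690R3.Itm.Fams

/-! Necessity: if clique-width is bounded then `H` is an induced subgraph of `P₄`, paw or diamond. -/

namespace Pool.Agent.H690R3.Itm

open Pool.Agent.H175R2

/-- contains one of the bad graphs on at most four vertices -/
def bad4 (A : ℕ → ℕ → Bool) (m : ℕ) : Bool :=
  has3 A m false false false || -- 3K1
  has4 A m true true true true true true || -- K4
  has4 A m true false true true false true || -- C4 : 01 12 23 03
  has4 A m true false false false false true || -- 2K2 : 01 23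
  has4 A m true true false true false false -- K3 + K1

def bad5 (A : ℕ → ℕ → Bool) (m : ℕ) : Bool :=
  bad4 A m ||
  has5 A m true false false true false true true false false true || -- C5
  has5 A m true false false true false true true true true true || -- gem
  has5 A m true true false true true true true false false false -- kite

def tP4 (i j : ℕ) : Bool := (i + 1 == j) || (j + 1 == i)
def tPaw (i j : ℕ) : Bool := i != j && (i == 0 || j == 0 || (i == 1 && j == 2) || (i == 2 && j == 1))
def tDia (i j : ℕ) : Bool := i != j && (i == 0 || j == 0 || i == 1 || j == 1)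

theorem enum5 : ∀ e01 e02 e03 e12 e13 e23 e04 e14 e24 e34 : Bool,
    bad5 (ad (pat5 e01 e02 e03 e12 e13 e23 e04 e14 e24 e34)) 5 = true := by decide +kernel

theorem enum4 : ∀ e01 e02 e03 e12 e13 e23 : Bool,
    (bad4 (ad (pat4 e01 e02 e03 e12 e13 e23)) 4 || has4 tP4 4 e01 e02 e03 e12 e13 e23 ||
      has4 tPaw 4 e01 e02 e03 e12 e13 e23 || has4 tDia 4 e01 e02 e03 e12 e13 e23) = true := by
  decide +kernel

theorem enum3 : ∀ e01 e02 e12 : Bool,
    (has3 (ad (pat3 e01 e02 e12)) 3 false false false || has3 tP4 4 e01 e02 e12 ||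
      has3 tPaw 4 e01 e02 e12) = true := by
  decide +kernel

/-! ### the bad graphs -/

lemma unb_3K1 : ¬ BddCw (cg 3 (pat3 false false false)) := by
  apply unb_ind3
  refine ⟨0, 1, 2, by decide, by decide, by decide, ?_, ?_, ?_⟩
  all_goals show ¬ (ad _ _ _ = true)
  all_goals decide

lemma unb_K4 : ¬ BddCw (cg 4 (pat4 true true true true true true)) := by
  apply unb_k4like
  refine ⟨id, Function.injective_id, ?_, ?_⟩
  · intro i
    have : ∀ i : Fin 4, ∃ f : Fin 3 → Fin 4, Function.Injective f ∧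
        ∀ j, ad (pat4 true true true true true true) i (f j) = true := by decide +kernel
    exact this i
  · intro x _ _ _ _ _
    exact ⟨x, rfl⟩

lemma not_split_of {m b : ℕ} (h : ¬ ∃ C : Fin m → Bool,
    (∀ x y : Fin m, C x = true → C y = true → x ≠ y → ad b x y = true) ∧
    (∀ x y : Fin m, C x = false → C y = false → ¬ ad b x y = true)) : ¬ BddCw (cg m b) :=
  unb_not_split h

lemma unb_C4 : ¬ BddCw (cg 4 (pat4 true false true true false true)) :=
  not_split_of (by decide +kernel)

lemma unb_2K2 : ¬ BddCw (cg 4 (pat4 true false false false false true)) :=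
  not_split_of (by decide +kernel)

lemma unb_C5 : ¬ BddCw (cg 5 (pat5 true false false true false true true false false true)) :=
  not_split_of (by decide +kernel)

lemma unb_loose_of {m b : ℕ} (h : ∃ a a' : Fin m, (∀ x : Fin m, ad b a x = true → x = a') ∧
    ∀ m' : Fin m, ∃ u v : Fin m, ad b u v = true ∧ u ≠ m' ∧ v ≠ m' ∧ u ≠ a ∧ v ≠ a ∧
    u ≠ a' ∧ v ≠ a') : ¬ BddCw (cg m b) :=
  unb_loose h

lemma unb_K3K1 : ¬ BddCw (cg 4 (pat4 true true false true false false)) :=
  unb_loose_of (by decide +kernel)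

lemma unb_kite : ¬ BddCw (cg 5 (pat5 true true false true true true true false false false)) :=
  unb_loose_of (by decide +kernel)

lemma unb_gem : ¬ BddCw (cg 5 (pat5 true false false true false true true true true true)) := by
  apply unb_deg4
  have : ∃ x : Fin 5, ∃ f : Fin 4 → Fin 5, Function.Injective f ∧
      ∀ j, ad (pat5 true false false true false true true true true true) x (f j) = true :=
    ⟨4, ![0, 1, 2, 3], by decide +kernel, by decide +kernel⟩
  exact this

lemma unb_bad4 {A : ℕ → ℕ → Bool} {h1 : ∀ i j, A i j = A j i} {h2 : ∀ i, A i i = false} {m : ℕ}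
    (h : bad4 A m = true) : ¬ BddCw (fg A h1 h2 m) := by
  intro hb
  simp only [bad4, Bool.or_eq_true] at h
  rcases h with (((h | h) | h) | h) | h
  · exact unb_3K1 (hb.mono (has3_embed h))
  · exact unb_K4 (hb.mono (has4_embed h))
  · exact unb_C4 (hb.mono (has4_embed h))
  · exact unb_2K2 (hb.mono (has4_embed h))
  · exact unb_K3K1 (hb.mono (has4_embed h))

lemma unb_bad5 {A : ℕ → ℕ → Bool} {h1 : ∀ i j, A i j = A j i} {h2 : ∀ i, A i i = false} {m : ℕ}
    (h : bad5 A m = true) : ¬ BddCw (fg A h1 h2 m) := by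
  intro hb
  simp only [bad5, Bool.or_eq_true] at h
  rcases h with ((h | h) | h) | h
  · exact unb_bad4 h hb
  · exact unb_C5 (hb.mono (has5_embed h))
  · exact unb_gem (hb.mono (has5_embed h))
  · exact unb_kite (hb.mono (has5_embed h))

/-! ### coding graphs -/

lemma eq_cg_of {m b : ℕ} (H : SimpleGraph (Fin m))
    (h : ∀ i j : Fin m, i < j → (H.Adj i j ↔ b.testBit (pairIx i j) = true)) : H = cg m b := by
  ext i j
  show H.Adj i j ↔ ad b i j = true
  rcases lt_trichotomy i j with h' | h' | h'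
  · have h'' : (i : ℕ) < j := h'
    rw [h i j h']; simp [ad, h'']
  · subst h'; simp [ad]
  · have h'' : (j : ℕ) < i := h'
    rw [H.adj_comm, h j i h']; simp [ad, h'', Nat.not_lt.2 h''.le]

open Classical in
lemma exists_cg5 (H : SimpleGraph (Fin 5)) : ∃ e01 e02 e03 e12 e13 e23 e04 e14 e24 e34,
    H = cg 5 (pat5 e01 e02 e03 e12 e13 e23 e04 e14 e24 e34) := by
  refine ⟨decide (H.Adj 0 1), decide (H.Adj 0 2), decide (H.Adj 0 3), decide (H.Adj 1 2),
    decide (H.Adj 1 3), decide (H.Adj 2 3), decide (H.Adj 0 4), decide (H.Adj 1 4),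
    decide (H.Adj 2 4), decide (H.Adj 3 4), ?_⟩
  obtain ⟨_, t0, t1, t2, t3, t4, t5, t6, t7, t8, t9⟩ :=
    ad_pat5 (decide (H.Adj 0 1)) (decide (H.Adj 0 2)) (decide (H.Adj 0 3)) (decide (H.Adj 1 2))
    (decide (H.Adj 1 3)) (decide (H.Adj 2 3)) (decide (H.Adj 0 4)) (decide (H.Adj 1 4))
    (decide (H.Adj 2 4)) (decide (H.Adj 3 4))
  apply eq_cg_of
  intro i j hij
  fin_cases i <;> fin_cases j <;> first
    | (exfalso; revert hij; decide)
    | (simp [pairIx, *]; done)

open Classical in
lemma exists_cg4 (H : SimpleGraph (Fin 4)) : ∃ e01 e02 e03 e12 e13 e23,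
    H = cg 4 (pat4 e01 e02 e03 e12 e13 e23) := by
  refine ⟨decide (H.Adj 0 1), decide (H.Adj 0 2), decide (H.Adj 0 3), decide (H.Adj 1 2),
    decide (H.Adj 1 3), decide (H.Adj 2 3), ?_⟩
  obtain ⟨_, t0, t1, t2, t3, t4, t5⟩ :=
    ad_pat4 (decide (H.Adj 0 1)) (decide (H.Adj 0 2)) (decide (H.Adj 0 3)) (decide (H.Adj 1 2))
    (decide (H.Adj 1 3)) (decide (H.Adj 2 3))
  apply eq_cg_of
  intro i j hij
  fin_cases i <;> fin_cases j <;> first
    | (exfalso; revert hij; decide)
    | (simp [pairIx, *]; done)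

open Classical in
lemma exists_cg3 (H : SimpleGraph (Fin 3)) : ∃ e01 e02 e12, H = cg 3 (pat3 e01 e02 e12) := by
  refine ⟨decide (H.Adj 0 1), decide (H.Adj 0 2), decide (H.Adj 1 2), ?_⟩
  obtain ⟨_, t0, t1, t2⟩ :=
    ad_pat3 (decide (H.Adj 0 1)) (decide (H.Adj 0 2)) (decide (H.Adj 1 2))
  apply eq_cg_of
  intro i j hij
  fin_cases i <;> fin_cases j <;> first
    | (exfalso; revert hij; decide)
    | (simp [pairIx, *]; done)

lemma tP4_comm (i j : ℕ) : tP4 i j = tP4 j i := by simp only [tP4]; rw [Bool.or_comm]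
lemma tP4_self (i : ℕ) : tP4 i i = false := by simp [tP4]
lemma tPaw_comm (i j : ℕ) : tPaw i j = tPaw j i := by
  rw [Bool.eq_iff_iff]
  simp only [tPaw, Bool.and_eq_true, Bool.or_eq_true, beq_iff_eq, bne_iff_ne]
  tauto
lemma tPaw_self (i : ℕ) : tPaw i i = false := by simp [tPaw]
lemma tDia_comm (i j : ℕ) : tDia i j = tDia j i := by
  rw [Bool.eq_iff_iff]
  simp only [tDia, Bool.and_eq_true, Bool.or_eq_true, beq_iff_eq, bne_iff_ne]
  tauto
lemma tDia_self (i : ℕ) : tDia i i = false := by simp [tDia]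

lemma P4_eq : P4 = fg tP4 tP4_comm tP4_self 4 := by
  ext i j
  show (SimpleGraph.fromRel _).Adj i j ↔ tP4 i j = true
  rw [SimpleGraph.fromRel_adj]
  revert i j
  decide

lemma paw_eq : paw = fg tPaw tPaw_comm tPaw_self 4 := by
  ext i j
  show (SimpleGraph.fromRel _).Adj i j ↔ tPaw i j = true
  rw [SimpleGraph.fromRel_adj]
  revert i j
  decide

lemma dia_eq : diamond = fg tDia tDia_comm tDia_self 4 := by
  ext i j
  show (SimpleGraph.fromRel _).Adj i j ↔ tDia i j = true
  rw [SimpleGraph.fromRel_adj]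
  revert i j
  decide

/-- the three maximal graphs -/
def Three {W : Type} (H : SimpleGraph W) : Prop :=
  IndSub H P4 ∨ IndSub H paw ∨ IndSub H diamond

lemma nec5 (H : SimpleGraph (Fin 5)) : ¬ BddCw H := by
  obtain ⟨e01, e02, e03, e12, e13, e23, e04, e14, e24, e34, h⟩ := exists_cg5 H
  rw [h]
  exact unb_bad5 (enum5 e01 e02 e03 e12 e13 e23 e04 e14 e24 e34)

lemma nec4 (H : SimpleGraph (Fin 4)) (hb : BddCw H) : Three H := by
  obtain ⟨e01, e02, e03, e12, e13, e23, h⟩ := exists_cg4 H
  have := enum4 e01 e02 e03 e12 e13 e23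
  simp only [Bool.or_eq_true] at this
  rw [h] at hb ⊢
  rcases this with ((h' | h') | h') | h'
  · exact absurd hb (unb_bad4 h')
  · left; rw [P4_eq]; exact has4_embed h'
  · right; left; rw [paw_eq]; exact has4_embed h'
  · right; right; rw [dia_eq]; exact has4_embed h'

lemma nec3 (H : SimpleGraph (Fin 3)) (hb : BddCw H) : Three H := by
  obtain ⟨e01, e02, e12, h⟩ := exists_cg3 H
  have := enum3 e01 e02 e12
  simp only [Bool.or_eq_true] at this
  rw [h] at hb ⊢
  rcases this with (h' | h') | h'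
  · exact absurd (hb.mono (has3_embed h')) unb_3K1
  · left; rw [P4_eq]; exact has3_embed h'
  · right; left; rw [paw_eq]; exact has3_embed h'

lemma IndSub.of_iso {U V W : Type} {H : SimpleGraph U} {H' : SimpleGraph V} {G : SimpleGraph W}
    (e : H ≃g H') (h : IndSub H' G) : IndSub H G := by
  obtain ⟨f⟩ := h
  exact ⟨f.comp e.toEmbedding⟩

lemma Three.of_iso {U V : Type} {H : SimpleGraph U} {H' : SimpleGraph V} (e : H ≃g H')
    (h : Three H') : Three H := by
  rcases h with h | h | h
  · exact Or.inl (h.of_iso e)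
  · exact Or.inr (Or.inl (h.of_iso e))
  · exact Or.inr (Or.inr (h.of_iso e))

theorem necessity {W : Type} [Finite W] (H : SimpleGraph W) (hb : BddCw H) : Three H := by
  classical
  have : Fintype W := Fintype.ofFinite W
  by_cases h5 : 5 ≤ Fintype.card W
  · exfalso
    obtain ⟨f⟩ : Nonempty (Fin 5 ↪ W) := by
      rw [Function.Embedding.nonempty_iff_card_le]; simpa using h5
    exact nec5 (H.comap f) (hb.mono ⟨SimpleGraph.Embedding.comap f H⟩)
  · push Not at h5
    let e : W ≃ Fin (Fintype.card W) := Fintype.equivFin W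
    have ei : H ≃g H.comap e.symm := ⟨e, by intro a b; simp⟩
    have hb' : BddCw (H.comap e.symm) := hb.mono ⟨ei.symm.toEmbedding⟩
    apply Three.of_iso ei
    revert hb'
    generalize (H.comap e.symm) = H'
    clear ei e hb H
    revert H'
    generalize Fintype.card W = n at h5
    intro H' hb'
    have hn : n = 0 ∨ n = 1 ∨ n = 2 ∨ n = 3 ∨ n = 4 := by omega
    rcases hn with rfl | rfl | rfl | rfl | rfl
    · exact Or.inl ⟨⟨⟨fun x => x.elim0, fun x => x.elim0⟩, fun {x} => x.elim0⟩⟩
    · refine Or.inl ⟨⟨⟨fun _ => 0, fun x y _ => Subsingleton.elim _ _⟩, ?_⟩⟩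
      intro x y
      rw [Subsingleton.elim x y]
      simp
    · by_cases hadj : H'.Adj 0 1
      · refine Or.inl ⟨⟨⟨![0, 1], by decide⟩, ?_⟩⟩
        intro x y
        have h01 : P4.Adj 0 1 := by rw [P4_eq]; show tP4 0 1 = true; decide
        fin_cases x <;> fin_cases y
        · simp
        · simp [hadj, h01]
        · simp [hadj.symm, h01.symm]
        · simp
      · refine Or.inl ⟨⟨⟨![0, 2], by decide⟩, ?_⟩⟩
        intro x y
        have h02 : ¬ P4.Adj 0 2 := by rw [P4_eq]; show ¬ tP4 0 2 = true; decide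
        fin_cases x <;> fin_cases y
        · simp
        · simp [hadj, h02]
        · simp [H'.adj_comm 1 0, hadj, P4.adj_comm 2 0, h02]
        · simp
    · exact nec3 H' hb'
    · exact nec4 H' hb'

end Pool.Agent.H690R3.Itm
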