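import Pool.Agent.H690R3.Itm.Recog
import Pool.Agent.H175R2.Blocks

/-! Induced paths, induced cycles, and subdivisions of the diamond and the paw made from them. -/

namespace Pool.Agent.H690R3.Itm

open Finset Classical Pool.Agent.H175R2

variable {V : Type} {G : SimpleGraph V}

/-- `q 0, ..., q n` is an induced path -/
structure IP (G : SimpleGraph V) (q : ℕ → V) (n : ℕ) : Prop where
  adj : ∀ i ≤ n, ∀ j ≤ n, (G.Adj (q i) (q j) ↔ i + 1 = j ∨ j + 1 = i)
  inj : ∀ i ≤ n, ∀ j ≤ n, q i = q j → i = j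

/-- the vertices `q a, ..., q b` -/
noncomputable def seg (q : ℕ → V) (a b : ℕ) : Finset V := (Icc a b).image q

lemma mem_seg {q : ℕ → V} {a b : ℕ} {z : V} : z ∈ seg q a b ↔ ∃ i, a ≤ i ∧ i ≤ b ∧ q i = z := by
  simp [seg, and_assoc]

lemma cn_seg {q : ℕ → V} {n : ℕ} (h : IP G q n) {a b : ℕ} (hab : a ≤ b) (hb : b ≤ n) :
    Cn G (seg q a b) := by
  induction b, hab using Nat.le_induction with
  | base =>
    have : seg q a a = {q a} := by simp [seg]
    rw [this]; exact Cn.singleton _
  | succ b hab ih =>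
    have : seg q a (b + 1) = seg q a b ∪ {q (b + 1)} := by
      ext z
      rw [mem_union, mem_seg, mem_seg, mem_singleton]
      constructor
      · rintro ⟨i, h1, h2, h3⟩
        by_cases hi : i = b + 1
        · right; rw [← h3, hi]
        · left; exact ⟨i, h1, by omega, h3⟩
      · rintro (⟨i, h1, h2, h3⟩ | h3)
        · exact ⟨i, h1, by omega, h3⟩
        · exact ⟨b + 1, by omega, le_rfl, h3.symm⟩
    rw [this]
    exact (ih (by omega)).union (Cn.singleton _) (Or.inl ⟨q b, mem_seg.2 ⟨b, hab, le_rfl, rfl⟩,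
      q (b + 1), by simp, (h.adj b (by omega) (b + 1) hb).2 (Or.inl rfl)⟩)

lemma exists_path {D : Finset V} (hD : Cn G D) (A B : V → Prop) {a b : V} (ha : a ∈ D) (hA : A a)
    (hb : b ∈ D) (hB : B b) :
    ∃ (n : ℕ) (q : ℕ → V), (∀ i ≤ n, q i ∈ D) ∧ IP G q n ∧ (∀ i ≤ n, A (q i) ↔ i = 0) ∧
      (∀ i ≤ n, B (q i) ↔ i = n) := by
  have hall : ∀ y ∈ D, ∃ (n : ℕ) (q : ℕ → V), (∀ i ≤ n, q i ∈ D) ∧
      (∀ i < n, G.Adj (q i) (q (i + 1))) ∧ A (q 0) ∧ q n = y := by
    by_contra hcon
    push Not at hcon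
    obtain ⟨y0, hy0, hy0'⟩ := hcon
    obtain ⟨x, hx, y, hy, hxy⟩ := hD.2 (D.filter (fun y => ∃ (n : ℕ) (q : ℕ → V), (∀ i ≤ n, q i ∈ D) ∧
      (∀ i < n, G.Adj (q i) (q (i + 1))) ∧ A (q 0) ∧ q n = y)) (filter_subset _ _)
      ⟨a, mem_filter.2 ⟨ha, 0, fun _ => a, fun _ _ => ha, fun i hi => absurd hi (Nat.not_lt_zero i),
        hA, rfl⟩⟩ ⟨y0, mem_sdiff.2 ⟨hy0, fun h => by
          obtain ⟨n, q, h1, h2, h3, h4⟩ := (mem_filter.1 h).2
          exact hy0' n q h1 h2 h3 h4⟩⟩
    obtain ⟨hxD, n, q, h1, h2, h3, h4⟩ := mem_filter.1 hx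
    obtain ⟨hyD, hyn⟩ := mem_sdiff.1 hy
    apply hyn
    refine mem_filter.2 ⟨hyD, n + 1, fun i => if i ≤ n then q i else y, ?_, ?_, ?_, ?_⟩
    · intro i hi
      by_cases h : i ≤ n
      · simp only [h, if_true]; exact h1 i h
      · simp only [h, if_false]; exact hyD
    · intro i hi
      by_cases h : i + 1 ≤ n
      · have h' : i ≤ n := by omega
        simp only [h, h', if_true]; exact h2 i (by omega)
      · have h' : i ≤ n := by omega
        have h'' : i = n := by omega
        simp only [h, h', if_true, if_false]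
        rw [h'', h4]; exact hxy
    · simpa using h3
    · simp
  have hex : ∃ n, ∃ (q : ℕ → V), (∀ i ≤ n, q i ∈ D) ∧
      (∀ i < n, G.Adj (q i) (q (i + 1))) ∧ A (q 0) ∧ B (q n) := by
    obtain ⟨n, q, h1, h2, h3, h4⟩ := hall b hb
    exact ⟨n, q, h1, h2, h3, by rw [h4]; exact hB⟩
  obtain ⟨q, h1, h2, h3, h4⟩ := Nat.find_spec hex
  have hmin : ∀ m, m < Nat.find hex → ¬ ∃ (q : ℕ → V), (∀ i ≤ m, q i ∈ D) ∧
      (∀ i < m, G.Adj (q i) (q (i + 1))) ∧ A (q 0) ∧ B (q m) := fun m hm => Nat.find_min hex hm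
  generalize Nat.find hex = n at *
  have hAi : ∀ i ≤ n, A (q i) ↔ i = 0 := by
    intro i hi
    constructor
    · intro hAi
      by_contra h0
      apply hmin (n - i) (by omega)
      refine ⟨fun j => q (i + j), fun j hj => h1 _ (by omega), fun j hj => ?_, hAi, ?_⟩
      · have := h2 (i + j) (by omega)
        rwa [add_assoc] at this
      · have : i + (n - i) = n := by omega
        simp only [this]; exact h4
    · rintro rfl; exact h3
  have hBi : ∀ i ≤ n, B (q i) ↔ i = n := by
    intro i hi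
    constructor
    · intro hBi
      by_contra h0
      exact hmin i (by omega) ⟨q, fun j hj => h1 _ (by omega), fun j hj => h2 j (by omega), h3, hBi⟩
    · rintro rfl; exact h4
  have hadj : ∀ i j, i < j → j ≤ n → G.Adj (q i) (q j) → i + 1 = j := by
    intro i j hij hj hadj
    by_contra hne
    apply hmin (n - (j - i - 1)) (by omega)
    refine ⟨fun k => if k ≤ i then q k else q (k + (j - i - 1)), ?_, ?_, ?_, ?_⟩
    · intro k hk
      by_cases h : k ≤ i
      · simp only [h, if_true]; exact h1 k (by omega)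
      · simp only [h, if_false]; exact h1 _ (by omega)
    · intro k hk
      by_cases h : k + 1 ≤ i
      · have h' : k ≤ i := by omega
        simp only [h, h', if_true]; exact h2 k (by omega)
      · by_cases h' : k ≤ i
        · have e1 : k = i := by omega
          have e2 : k + 1 + (j - i - 1) = j := by omega
          simp only [h, h', if_true, if_false]
          rw [e2, e1]; exact hadj
        · simp only [h, h', if_false]
          have := h2 (k + (j - i - 1)) (by omega)
          have e3 : k + (j - i - 1) + 1 = k + 1 + (j - i - 1) := by omega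
          rwa [e3] at this
    · simpa using h3
    · by_cases h : n - (j - i - 1) ≤ i
      · exfalso; omega
      · simp only [h, if_false]
        have : n - (j - i - 1) + (j - i - 1) = n := by omega
        rw [this]; exact h4
  have hadj' : ∀ i ≤ n, ∀ j ≤ n, (G.Adj (q i) (q j) ↔ i + 1 = j ∨ j + 1 = i) := by
    intro i hi j hj
    constructor
    · intro h
      rcases lt_trichotomy i j with hlt | heq | hgt
      · exact Or.inl (hadj i j hlt hj h)
      · rw [heq] at h; exact absurd rfl h.ne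
      · exact Or.inr (hadj j i hgt hi h.symm)
    · rintro (rfl | rfl)
      · exact h2 i (by omega)
      · exact (h2 j (by omega)).symm
  have hinj : ∀ i j, i < j → j ≤ n → q i ≠ q j := by
    intro i j hij hj he
    by_cases hjn : j = n
    · subst hjn
      have := (hBi i (by omega)).1 (by rw [he]; exact h4)
      omega
    · have h5 := h2 j (by omega)
      rw [← he] at h5
      have := (hadj' i (by omega) (j + 1) (by omega)).1 h5
      omega
  refine ⟨n, q, h1, ⟨hadj', ?_⟩, hAi, hBi⟩
  intro i hi j hj he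
  rcases lt_trichotomy i j with hlt | heq | hgt
  · exact absurd he (hinj i j hlt hj)
  · exact heq
  · exact absurd he.symm (hinj j i hgt hi)

lemma IP.shift {q : ℕ → V} {n : ℕ} (h : IP G q n) (a m : ℕ) (ham : a + m ≤ n) :
    IP G (fun i => q (a + i)) m := by
  refine ⟨fun i hi j hj => ?_, fun i hi j hj he => ?_⟩
  · rw [h.adj _ (by omega) _ (by omega)]; omega
  · have := h.inj _ (by omega) _ (by omega) he
    omega

lemma IP.mono {q : ℕ → V} {n m : ℕ} (h : IP G q n) (hm : m ≤ n) : IP G q m :=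
  ⟨fun i hi j hj => h.adj i (by omega) j (by omega), fun i hi j hj => h.inj i (by omega) j (by omega)⟩

/-- one more vertex in front -/
lemma IP.cons {q : ℕ → V} {n : ℕ} (h : IP G q n) {x : V} (hx : ∀ i ≤ n, q i ≠ x)
    (ha : ∀ i ≤ n, G.Adj x (q i) ↔ i = 0) :
    IP G (fun i => if i = 0 then x else q (i - 1)) (n + 1) := by
  refine ⟨fun i hi j hj => ?_, fun i hi j hj he => ?_⟩
  · by_cases hi0 : i = 0
    · by_cases hj0 : j = 0
      · subst hi0; subst hj0; simp
      · simp only [hi0, hj0, if_true, if_false]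
        rw [ha _ (by omega)]; omega
    · by_cases hj0 : j = 0
      · simp only [hi0, hj0, if_true, if_false]
        rw [G.adj_comm, ha _ (by omega)]; omega
      · simp only [hi0, hj0, if_false]
        rw [h.adj _ (by omega) _ (by omega)]; omega
  · by_cases hi0 : i = 0
    · by_cases hj0 : j = 0
      · omega
      · simp only [hi0, hj0, if_true, if_false] at he
        exact absurd he.symm (hx _ (by omega))
    · by_cases hj0 : j = 0
      · simp only [hi0, hj0, if_true, if_false] at he
        exact absurd he (hx _ (by omega))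
      · simp only [hi0, hj0, if_false] at he
        have := h.inj _ (by omega) _ (by omega) he
        omega

lemma cn_of_star {S : Finset V} {v : V} (hv : v ∈ S)
    (h : ∀ y ∈ S, ∃ T ⊆ S, Cn G T ∧ v ∈ T ∧ y ∈ T) : Cn G S := by
  apply cn_of_cpt_eq hv
  apply subset_antisymm cpt_subset
  intro y hy
  obtain ⟨T, hT, hc, h1, h2⟩ := h y hy
  exact subset_cpt hT hc h1 h2

/-! ### degrees -/

lemma dg_insert {S : Finset V} {v x : V} (hv : v ∉ S) :
    dg G (insert v S) x = dg G S x + if G.Adj x v then 1 else 0 := by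
  unfold dg
  rw [filter_insert]
  split_ifs with h
  · rw [card_insert_of_notMem (fun h' => hv (mem_filter.1 h').1)]
  · rfl

lemma dg_union {S T : Finset V} {x : V} (h : Disjoint S T) :
    dg G (S ∪ T) x = dg G S x + dg G T x := by
  unfold dg
  rw [filter_union, card_union_of_disjoint (disjoint_filter_filter h)]

lemma dg_seg_out {q : ℕ → V} {n : ℕ} (h : IP G q n) (x : V) :
    dg G (seg q 0 n) x = ((range (n + 1)).filter (fun i => G.Adj x (q i))).card := by
  unfold dg
  have : (seg q 0 n).filter (fun y => G.Adj x y) =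
      ((range (n + 1)).filter (fun i => G.Adj x (q i))).image q := by
    ext z
    simp only [mem_filter, mem_seg, mem_image, mem_range]
    constructor
    · rintro ⟨⟨i, _, h2, rfl⟩, h3⟩
      exact ⟨i, ⟨by omega, h3⟩, rfl⟩
    · rintro ⟨i, ⟨h1, h2⟩, rfl⟩
      exact ⟨⟨i, by omega, by omega, rfl⟩, h2⟩
  rw [this, card_image_of_injOn]
  intro i hi j hj he
  simp only [coe_filter, mem_range, Set.mem_setOf_eq] at hi hj
  exact h.inj i (by omega) j (by omega) he

lemma dg_seg {q : ℕ → V} {n : ℕ} (h : IP G q n) {i : ℕ} (hi : i ≤ n) :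
    dg G (seg q 0 n) (q i) = (if 0 < i then 1 else 0) + (if i < n then 1 else 0) := by
  rw [dg_seg_out h]
  have : (range (n + 1)).filter (fun j => G.Adj (q i) (q j)) =
      (if 0 < i then {i - 1} else ∅) ∪ (if i < n then {i + 1} else ∅) := by
    ext j
    simp only [mem_filter, mem_range, mem_union]
    constructor
    · rintro ⟨h1, h2⟩
      rw [h.adj i hi j (by omega)] at h2
      rcases h2 with h2 | h2
      · right
        rw [if_pos (by omega)]; simp; omega
      · left
        rw [if_pos (by omega)]; simp; omega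
    · rintro (h1 | h1)
      · split_ifs at h1 with h2
        · rw [mem_singleton] at h1
          refine ⟨by omega, ?_⟩
          rw [h.adj i hi j (by omega)]; omega
        · simp at h1
      · split_ifs at h1 with h2
        · rw [mem_singleton] at h1
          refine ⟨by omega, ?_⟩
          rw [h.adj i hi j (by omega)]; omega
        · simp at h1
  rw [this, card_union_of_disjoint]
  · congr 1
    · split_ifs <;> simp
    · split_ifs <;> simp
  · split_ifs <;> simp

/-! ### cycles -/

/-- `C` induces a cycle -/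
structure IsCyc (G : SimpleGraph V) (C : Finset V) : Prop where
  conn : Cn G C
  del : ∀ x ∈ C, Cn G (C.erase x)
  deg : ∀ x ∈ C, dg G C x = 2

lemma closeCyc {q : ℕ → V} {n : ℕ} (h : IP G q n) (hn : 1 ≤ n) {v : V} (hv : ∀ i ≤ n, q i ≠ v)
    (ha : ∀ i ≤ n, G.Adj v (q i) ↔ i = 0 ∨ i = n) : IsCyc G (insert v (seg q 0 n)) := by
  have hvs : v ∉ seg q 0 n := by
    rw [mem_seg]; rintro ⟨i, _, h2, h3⟩; exact hv i h2 h3
  have hlow : ∀ i ≤ n, Cn G (insert v (seg q 0 i)) := by
    intro i hi
    rw [Finset.insert_eq]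
    exact (Cn.singleton v).union (cn_seg h (Nat.zero_le _) hi)
      (Or.inl ⟨v, by simp, q 0, mem_seg.2 ⟨0, le_rfl, by omega, rfl⟩, (ha 0 (by omega)).2 (Or.inl rfl)⟩)
  have hhigh : ∀ i ≤ n, Cn G (insert v (seg q i n)) := by
    intro i hi
    rw [Finset.insert_eq]
    exact (Cn.singleton v).union (cn_seg h hi le_rfl)
      (Or.inl ⟨v, by simp, q n, mem_seg.2 ⟨n, hi, le_rfl, rfl⟩, (ha n le_rfl).2 (Or.inr rfl)⟩)
  refine ⟨hlow n le_rfl, ?_, ?_⟩
  · intro x hx
    rcases mem_insert.1 hx with rfl | hx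
    · rw [erase_insert hvs]; exact cn_seg h (Nat.zero_le _) le_rfl
    · obtain ⟨j, _, hj, rfl⟩ := mem_seg.1 hx
      apply cn_of_star (v := v)
      · exact mem_erase.2 ⟨fun h' => hv j hj h'.symm, mem_insert_self _ _⟩
      · intro y hy
        obtain ⟨hyj, hy⟩ := mem_erase.1 hy
        rcases mem_insert.1 hy with rfl | hy
        · exact ⟨{y}, by
            rw [singleton_subset_iff]
            exact mem_erase.2 ⟨hyj, mem_insert_self _ _⟩, Cn.singleton y, by simp, by simp⟩
        · obtain ⟨i, _, hi, rfl⟩ := mem_seg.1 hy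
          rcases lt_trichotomy i j with hlt | heq | hgt
          · refine ⟨insert v (seg q 0 i), ?_, hlow i hi, mem_insert_self _ _,
              mem_insert_of_mem (mem_seg.2 ⟨i, by omega, le_rfl, rfl⟩)⟩
            intro z hz
            rcases mem_insert.1 hz with rfl | hz
            · exact mem_erase.2 ⟨fun h' => hv j hj h'.symm, mem_insert_self _ _⟩
            · obtain ⟨k, _, hk, rfl⟩ := mem_seg.1 hz
              refine mem_erase.2 ⟨fun h' => ?_, mem_insert_of_mem (mem_seg.2 ⟨k, by omega, by omega, rfl⟩)⟩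
              have := h.inj k (by omega) j hj h'
              omega
          · rw [heq] at hyj; exact absurd rfl hyj
          · refine ⟨insert v (seg q i n), ?_, hhigh i hi, mem_insert_self _ _,
              mem_insert_of_mem (mem_seg.2 ⟨i, le_rfl, hi, rfl⟩)⟩
            intro z hz
            rcases mem_insert.1 hz with rfl | hz
            · exact mem_erase.2 ⟨fun h' => hv j hj h'.symm, mem_insert_self _ _⟩
            · obtain ⟨k, hk0, hk, rfl⟩ := mem_seg.1 hz
              refine mem_erase.2 ⟨fun h' => ?_, mem_insert_of_mem (mem_seg.2 ⟨k, by omega, by omega, rfl⟩)⟩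
              have := h.inj k (by omega) j hj h'
              omega
  · intro x hx
    rw [dg_insert hvs]
    rcases mem_insert.1 hx with rfl | hx
    · rw [if_neg (fun h' => h'.ne rfl), dg_seg_out h]
      have : (range (n + 1)).filter (fun i => G.Adj x (q i)) = {0, n} := by
        ext i
        simp only [mem_filter, mem_range, mem_insert, mem_singleton]
        constructor
        · rintro ⟨h1, h2⟩; exact (ha i (by omega)).1 h2
        · intro h1; exact ⟨by omega, (ha i (by omega)).2 h1⟩
      rw [this, card_pair (by omega)]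
    · obtain ⟨i, _, hi, rfl⟩ := mem_seg.1 hx
      rw [dg_seg h hi]
      have := ha i hi
      rw [G.adj_comm] at this
      simp only [this]
      split_ifs <;> omega

/-- a cycle minus a vertex is an induced path -/
lemma IsCyc.path {C : Finset V} (hC : IsCyc G C) {w : V} (hw : w ∈ C) :
    ∃ (n : ℕ) (q : ℕ → V), 1 ≤ n ∧ IP G q n ∧ C.erase w = seg q 0 n ∧
      (∀ i ≤ n, G.Adj w (q i) ↔ i = 0 ∨ i = n) := by
  obtain ⟨u, v, huv, hu, hv, hN⟩ := nb_two (hC.deg w hw)
  have hwu : G.Adj w u := (hN u hu).2 (Or.inl rfl)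
  have hwv : G.Adj w v := (hN v hv).2 (Or.inr rfl)
  obtain ⟨n, q, h1, h2, h3, h4⟩ := exists_path (hC.del w hw) (fun z => z = u) (fun z => z = v)
    (a := u) (b := v) (mem_erase.2 ⟨hwu.ne', hu⟩) rfl (mem_erase.2 ⟨hwv.ne', hv⟩) rfl
  have hq0 : q 0 = u := (h3 0 (Nat.zero_le _)).2 rfl
  have hqn : q n = v := (h4 n le_rfl).2 rfl
  have hn : 1 ≤ n := by
    by_contra h
    have : n = 0 := by omega
    subst this
    exact huv (hq0.symm.trans hqn)
  have hqC : ∀ i ≤ n, q i ∈ C := fun i hi => (mem_erase.1 (h1 i hi)).2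
  have hqw : ∀ i ≤ n, q i ≠ w := fun i hi => (mem_erase.1 (h1 i hi)).1
  have hwadj : ∀ i ≤ n, G.Adj w (q i) ↔ i = 0 ∨ i = n := by
    intro i hi
    rw [hN _ (hqC i hi), h3 i hi, h4 i hi]
  refine ⟨n, q, hn, h2, ?_, hwadj⟩
  -- closed under neighbours
  have hclosed : ∀ i ≤ n, ∀ z ∈ C, G.Adj (q i) z → z ∈ insert w (seg q 0 n) := by
    intro i hi z hz hadj
    by_cases hi0 : i = 0
    · subst hi0
      have e := nb_eq (hC.deg _ (hqC 0 hi)) hw (hqC 1 hn) (hqw 1 hn).symm
        ((hwadj 0 hi).2 (Or.inl rfl)).symm ((h2.adj 0 hi 1 hn).2 (Or.inl rfl)) z hz hadj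
      rcases e with rfl | rfl
      · exact mem_insert_self _ _
      · exact mem_insert_of_mem (mem_seg.2 ⟨1, by omega, hn, rfl⟩)
    · by_cases hin : i = n
      · have e := nb_eq (hC.deg _ (hqC i hi)) hw (hqC (i - 1) (by omega)) (hqw (i - 1) (by omega)).symm
          ((hwadj i hi).2 (Or.inr hin)).symm ((h2.adj i hi (i - 1) (by omega)).2 (by omega)) z hz hadj
        rcases e with rfl | rfl
        · exact mem_insert_self _ _
        · exact mem_insert_of_mem (mem_seg.2 ⟨i - 1, by omega, by omega, rfl⟩)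
      · have e := nb_eq (hC.deg _ (hqC i hi)) (hqC (i - 1) (by omega)) (hqC (i + 1) (by omega))
          (fun h' => by have := h2.inj _ (by omega) _ (by omega) h'; omega)
          ((h2.adj i hi (i - 1) (by omega)).2 (by omega))
          ((h2.adj i hi (i + 1) (by omega)).2 (by omega)) z hz hadj
        rcases e with rfl | rfl
        · exact mem_insert_of_mem (mem_seg.2 ⟨i - 1, by omega, by omega, rfl⟩)
        · exact mem_insert_of_mem (mem_seg.2 ⟨i + 1, by omega, by omega, rfl⟩)
  have hsub : seg q 0 n ⊆ C.erase w := by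
    intro z hz
    obtain ⟨i, _, hi, rfl⟩ := mem_seg.1 hz
    exact h1 i hi
  apply subset_antisymm _ hsub
  by_contra hns
  obtain ⟨x, hx, y, hy, hxy⟩ := (hC.del w hw).2 (seg q 0 n) hsub
    ⟨q 0, mem_seg.2 ⟨0, le_rfl, Nat.zero_le _, rfl⟩⟩ (sdiff_nonempty.2 hns)
  obtain ⟨i, _, hi, rfl⟩ := mem_seg.1 hx
  obtain ⟨hy1, hy2⟩ := mem_sdiff.1 hy
  rcases mem_insert.1 (hclosed i hi y (mem_erase.1 hy1).2 hxy) with h | h
  · exact (mem_erase.1 hy1).1 h
  · exact hy2 h

/-! ### subdivided diamonds -/

lemma theta_core {q : ℕ → V} {n b : ℕ} (h : IP G q n) (hb : 0 < b) (hbn : b < n) {v : V}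
    (hv : ∀ i ≤ n, q i ≠ v) (ha : ∀ i ≤ n, G.Adj v (q i) ↔ i = 0 ∨ i = b ∨ i = n) :
    IsITM diamond G := by
  have hvs : v ∉ seg q 0 n := by
    rw [mem_seg]; rintro ⟨i, _, h2, h3⟩; exact hv i h2 h3
  have hbm : q b ∈ seg q 0 n := mem_seg.2 ⟨b, by omega, by omega, rfl⟩
  refine itm_dia (R := insert v (seg q 0 n)) (x := v) (y := q b) (mem_insert_self _ _)
    (mem_insert_of_mem hbm) (fun h' => hv b (by omega) h'.symm) ?_ ?_ ?_ ?_ ?_
  · rw [erase_insert hvs]; exact cn_seg h (Nat.zero_le _) le_rfl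
  · have hlow : ∀ i ≤ n, Cn G (insert v (seg q 0 i)) := by
      intro i hi
      rw [Finset.insert_eq]
      exact (Cn.singleton v).union (cn_seg h (Nat.zero_le _) hi)
        (Or.inl ⟨v, by simp, q 0, mem_seg.2 ⟨0, le_rfl, by omega, rfl⟩, (ha 0 (by omega)).2 (Or.inl rfl)⟩)
    have hhigh : ∀ i ≤ n, Cn G (insert v (seg q i n)) := by
      intro i hi
      rw [Finset.insert_eq]
      exact (Cn.singleton v).union (cn_seg h hi le_rfl)
        (Or.inl ⟨v, by simp, q n, mem_seg.2 ⟨n, hi, le_rfl, rfl⟩, (ha n le_rfl).2 (Or.inr (Or.inr rfl))⟩)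
    apply cn_of_star (v := v)
    · exact mem_erase.2 ⟨fun h' => hv b (by omega) h'.symm, mem_insert_self _ _⟩
    · intro y hy
      obtain ⟨hyj, hy⟩ := mem_erase.1 hy
      rcases mem_insert.1 hy with rfl | hy
      · exact ⟨{y}, by
          rw [singleton_subset_iff]
          exact mem_erase.2 ⟨hyj, mem_insert_self _ _⟩, Cn.singleton y, by simp, by simp⟩
      · obtain ⟨i, _, hi, rfl⟩ := mem_seg.1 hy
        rcases lt_trichotomy i b with hlt | heq | hgt
        · refine ⟨insert v (seg q 0 i), ?_, hlow i hi, mem_insert_self _ _,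
            mem_insert_of_mem (mem_seg.2 ⟨i, by omega, le_rfl, rfl⟩)⟩
          intro z hz
          rcases mem_insert.1 hz with rfl | hz
          · exact mem_erase.2 ⟨fun h' => hv b (by omega) h'.symm, mem_insert_self _ _⟩
          · obtain ⟨k, _, hk, rfl⟩ := mem_seg.1 hz
            refine mem_erase.2 ⟨fun h' => ?_, mem_insert_of_mem (mem_seg.2 ⟨k, by omega, by omega, rfl⟩)⟩
            have := h.inj k (by omega) b (by omega) h'
            omega
        · rw [heq] at hyj; exact absurd rfl hyj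
        · refine ⟨insert v (seg q i n), ?_, hhigh i hi, mem_insert_self _ _,
            mem_insert_of_mem (mem_seg.2 ⟨i, le_rfl, hi, rfl⟩)⟩
          intro z hz
          rcases mem_insert.1 hz with rfl | hz
          · exact mem_erase.2 ⟨fun h' => hv b (by omega) h'.symm, mem_insert_self _ _⟩
          · obtain ⟨k, hk0, hk, rfl⟩ := mem_seg.1 hz
            refine mem_erase.2 ⟨fun h' => ?_, mem_insert_of_mem (mem_seg.2 ⟨k, by omega, by omega, rfl⟩)⟩
            have := h.inj k (by omega) b (by omega) h'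
            omega
  · rw [dg_insert hvs, if_neg (fun h' => h'.ne rfl), dg_seg_out h]
    have : (range (n + 1)).filter (fun i => G.Adj v (q i)) = {0, b, n} := by
      ext i
      simp only [mem_filter, mem_range, mem_insert, mem_singleton]
      constructor
      · rintro ⟨h1, h2⟩; exact (ha i (by omega)).1 h2
      · intro h1; exact ⟨by omega, (ha i (by omega)).2 h1⟩
    have h0 : (0 : ℕ) ∉ ({b, n} : Finset ℕ) := by
      rw [mem_insert, mem_singleton]; omega
    rw [this, card_insert_of_notMem h0, card_pair (by omega)]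
  · rw [dg_insert hvs, dg_seg h (by omega),
      if_pos ((ha b (by omega)).2 (Or.inr (Or.inl rfl))).symm, if_pos hb, if_pos hbn]
  · intro z hz hzv hzb
    obtain ⟨i, _, hi, rfl⟩ := mem_seg.1 ((mem_insert.1 hz).resolve_left hzv)
    have hib : i ≠ b := by rintro rfl; exact hzb rfl
    rw [dg_insert hvs, dg_seg h hi]
    have := ha i hi
    rw [G.adj_comm] at this
    simp only [this]
    split_ifs <;> omega

lemma theta_three {q : ℕ → V} {n : ℕ} (h : IP G q n) {v : V} (hv : ∀ i ≤ n, q i ≠ v)
    (hc : 3 ≤ ((range (n + 1)).filter (fun i => G.Adj v (q i))).card) : IsITM diamond G := by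
  set S := (range (n + 1)).filter (fun i => G.Adj v (q i)) with hS
  have hmS : ∀ i, i ∈ S ↔ i ≤ n ∧ G.Adj v (q i) := by
    intro i; rw [hS, mem_filter, mem_range]; constructor
    · rintro ⟨h1, h2⟩; exact ⟨by omega, h2⟩
    · rintro ⟨h1, h2⟩; exact ⟨by omega, h2⟩
  have hn1 : S.Nonempty := card_pos.1 (by omega)
  obtain ⟨a, haS, hamin⟩ := exists_min_image S id hn1
  have hn2 : (S.erase a).Nonempty := card_pos.1 (by rw [card_erase_of_mem haS]; omega)
  obtain ⟨b, hbS, hbmin⟩ := exists_min_image (S.erase a) id hn2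
  have hn3 : ((S.erase a).erase b).Nonempty :=
    card_pos.1 (by rw [card_erase_of_mem hbS, card_erase_of_mem haS]; omega)
  obtain ⟨c, hcS, hcmin⟩ := exists_min_image ((S.erase a).erase b) id hn3
  simp only [id] at hamin hbmin hcmin
  obtain ⟨hba, hbS'⟩ := mem_erase.1 hbS
  obtain ⟨hcb, hcS'⟩ := mem_erase.1 hcS
  obtain ⟨hca, hcS''⟩ := mem_erase.1 hcS'
  have hab : a < b := lt_of_le_of_ne (hamin b hbS') (Ne.symm hba)
  have hbc : b < c := lt_of_le_of_ne (hbmin c hcS') (Ne.symm hcb)
  have hcn := (hmS c).1 hcS''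
  refine theta_core (q := fun i => q (a + i)) (n := c - a) (b := b - a)
    (h.shift a (c - a) (by omega)) (by omega) (by omega) (v := v) (fun i hi => hv _ (by omega)) ?_
  intro i hi
  constructor
  · intro hadj
    have hiS : a + i ∈ S := (hmS _).2 ⟨by omega, hadj⟩
    by_cases h1 : a + i = a
    · left; omega
    · have h1' : a + i ∈ S.erase a := mem_erase.2 ⟨h1, hiS⟩
      by_cases h2 : a + i = b
      · right; left; omega
      · have := hcmin _ (mem_erase.2 ⟨h2, h1'⟩)
        right; right; omega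
  · rintro (rfl | rfl | rfl)
    · exact ((hmS a).1 haS).2
    · have e : a + (b - a) = b := by omega
      simp only [e]; exact ((hmS b).1 hbS').2
    · have e : a + (c - a) = c := by omega
      simp only [e]; exact hcn.2

/-- a cycle and a path attached at two different vertices -/
lemma theta_cyc {C : Finset V} (hC : IsCyc G C) {q : ℕ → V} {n : ℕ} (h : IP G q n)
    (hd : ∀ i ≤ n, q i ∉ C) {c0 c1 : V} (h0 : c0 ∈ C) (h1 : c1 ∈ C) (h01 : c0 ≠ c1)
    (ha : ∀ i ≤ n, ∀ c ∈ C, G.Adj (q i) c ↔ (i = 0 ∧ c = c0) ∨ (i = n ∧ c = c1)) :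
    IsITM diamond G := by
  have hdis : Disjoint C (seg q 0 n) := by
    rw [Finset.disjoint_left]
    intro z hz hz'
    obtain ⟨i, _, hi, rfl⟩ := mem_seg.1 hz'
    exact hd i hi hz
  have hseg : Cn G (seg q 0 n) := cn_seg h (Nat.zero_le _) le_rfl
  have hnotC : ∀ c ∈ C, c ∉ seg q 0 n := fun c hc hc' => (Finset.disjoint_left.1 hdis) hc hc'
  have hout : ∀ c ∈ C, dg G (seg q 0 n) c = (if c = c0 then 1 else 0) + (if c = c1 then 1 else 0) := by
    intro c hc
    rw [dg_seg_out h]
    have : (range (n + 1)).filter (fun i => G.Adj c (q i)) =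
        (if c = c0 then {0} else ∅) ∪ (if c = c1 then {n} else ∅) := by
      ext i
      simp only [mem_filter, mem_range, mem_union]
      constructor
      · rintro ⟨h2, h3⟩
        rcases (ha i (by omega) c hc).1 h3.symm with ⟨h4, h5⟩ | ⟨h4, h5⟩
        · left; rw [if_pos h5]; simp [h4]
        · right; rw [if_pos h5]; simp [h4]
      · rintro (h2 | h2)
        · split_ifs at h2 with h3
          · rw [mem_singleton] at h2
            exact ⟨by omega, ((ha i (by omega) c hc).2 (Or.inl ⟨h2, h3⟩)).symm⟩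
          · simp at h2
        · split_ifs at h2 with h3
          · rw [mem_singleton] at h2
            exact ⟨by omega, ((ha i (by omega) c hc).2 (Or.inr ⟨h2, h3⟩)).symm⟩
          · simp at h2
    rw [this]
    by_cases e0 : c = c0
    · have e1 : c ≠ c1 := fun h' => h01 (e0.symm.trans h')
      simp [e0, e1, h01]
    · by_cases e1 : c = c1
      · simp [e0, e1, h01.symm]
      · simp [e0, e1]
  have hin : ∀ i ≤ n, dg G C (q i) = (if i = 0 then 1 else 0) + (if i = n then 1 else 0) := by
    intro i hi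
    unfold dg
    have : C.filter (fun y => G.Adj (q i) y) =
        (if i = 0 then {c0} else ∅) ∪ (if i = n then {c1} else ∅) := by
      ext c
      simp only [mem_filter, mem_union]
      constructor
      · rintro ⟨h2, h3⟩
        rcases (ha i hi c h2).1 h3 with ⟨h4, h5⟩ | ⟨h4, h5⟩
        · left; rw [if_pos h4]; simp [h5]
        · right; rw [if_pos h4]; simp [h5]
      · rintro (h2 | h2)
        · split_ifs at h2 with h3
          · rw [mem_singleton] at h2; subst h2
            exact ⟨h0, (ha i hi c h0).2 (Or.inl ⟨h3, rfl⟩)⟩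
          · simp at h2
        · split_ifs at h2 with h3
          · rw [mem_singleton] at h2; subst h2
            exact ⟨h1, (ha i hi c h1).2 (Or.inr ⟨h3, rfl⟩)⟩
          · simp at h2
    rw [this, card_union_of_disjoint]
    · congr 1
      · split_ifs <;> simp
      · split_ifs <;> simp
    · split_ifs <;> simp [h01]
  have hq0 : G.Adj (q 0) c0 := (ha 0 (Nat.zero_le _) c0 h0).2 (Or.inl ⟨rfl, rfl⟩)
  have hqn : G.Adj (q n) c1 := (ha n le_rfl c1 h1).2 (Or.inr ⟨rfl, rfl⟩)
  refine itm_dia (R := C ∪ seg q 0 n) (x := c0) (y := c1) (mem_union_left _ h0)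
    (mem_union_left _ h1) h01 ?_ ?_ ?_ ?_ ?_
  · rw [erase_union_distrib, erase_eq_of_notMem (hnotC c0 h0)]
    exact (hC.del c0 h0).union hseg (Or.inl ⟨c1, mem_erase.2 ⟨h01.symm, h1⟩, q n,
      mem_seg.2 ⟨n, Nat.zero_le _, le_rfl, rfl⟩, hqn.symm⟩)
  · rw [erase_union_distrib, erase_eq_of_notMem (hnotC c1 h1)]
    exact (hC.del c1 h1).union hseg (Or.inl ⟨c0, mem_erase.2 ⟨h01, h0⟩, q 0,
      mem_seg.2 ⟨0, Nat.zero_le _, Nat.zero_le _, rfl⟩, hq0.symm⟩)
  · rw [dg_union hdis, hC.deg c0 h0, hout c0 h0]; simp [h01]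
  · rw [dg_union hdis, hC.deg c1 h1, hout c1 h1]; simp [h01.symm]
  · intro z hz hz0 hz1
    rw [dg_union hdis]
    rcases mem_union.1 hz with hz | hz
    · rw [hC.deg z hz, hout z hz, if_neg hz0, if_neg hz1]
    · obtain ⟨i, _, hi, rfl⟩ := mem_seg.1 hz
      rw [dg_seg h hi, hin i hi]
      split_ifs <;> omega

/-! ### subdivided paws -/

/-- a cycle and a vertex with exactly one neighbour on it -/
lemma paw_cyc {C : Finset V} (hC : IsCyc G C) {v : V} (hv : v ∉ C) {c : V} (hc : c ∈ C)
    (h : ∀ z ∈ C, G.Adj v z ↔ z = c) : IsITM paw G := by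
  have hvc : G.Adj v c := (h c hc).2 rfl
  refine itm_paw (R := insert v C) (x := c) (p := v) (mem_insert_of_mem hc) (mem_insert_self _ _)
    (by rintro rfl; exact hv hc) ?_ ?_ ?_ ?_
  · rw [Finset.insert_eq]
    exact (Cn.singleton v).union hC.conn (Or.inl ⟨v, by simp, c, hc, hvc⟩)
  · rw [dg_insert hv, hC.deg c hc, if_pos hvc.symm]
  · rw [dg_insert hv, if_neg (fun h' => h'.ne rfl)]
    unfold dg
    have : C.filter (fun y => G.Adj v y) = {c} := by
      ext z
      simp only [mem_filter, mem_singleton]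
      constructor
      · rintro ⟨h1, h2⟩; exact (h z h1).1 h2
      · rintro rfl; exact ⟨hc, hvc⟩
    rw [this]; simp
  · intro z hz hzc hzv
    have hz' := (mem_insert.1 hz).resolve_left hzv
    rw [dg_insert hv, hC.deg z hz', if_neg]
    intro h'
    exact hzc ((h z hz').1 h'.symm)

end Pool.Agent.H690R3.Itm
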