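import Pool.Agent.H690R3.Itm.Basic
import Pool.Agent.H175R2.Conn

/-! Recognising subdivisions of the diamond and of the paw by degrees and connectivity. -/

namespace Pool.Agent.H690R3.Itm

open Finset Classical Pool.Agent.H175R2

variable {V : Type}

/-- degree inside `R` -/
noncomputable def dg (G : SimpleGraph V) (R : Finset V) (x : V) : ℕ :=
  (R.filter (fun y => G.Adj x y)).card

/-- adding the edge `uv` -/
def addE (G : SimpleGraph V) (u v : V) (h : u ≠ v) : SimpleGraph V where
  Adj a b := G.Adj a b ∨ (a = u ∧ b = v) ∨ (a = v ∧ b = u)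
  symm := ⟨by
    rintro a b (hab | ⟨h1, h2⟩ | ⟨h1, h2⟩)
    · exact Or.inl hab.symm
    · exact Or.inr (Or.inr ⟨h2, h1⟩)
    · exact Or.inr (Or.inl ⟨h2, h1⟩)⟩
  loopless := ⟨by
    rintro a (hab | ⟨h1, h2⟩ | ⟨h1, h2⟩)
    · exact hab.ne rfl
    · exact h (h1.symm.trans h2)
    · exact h (h2.symm.trans h1)⟩

lemma iso_of_range {U : Type} {H : SimpleGraph U} {G : SimpleGraph V} (f : H ↪g G) {S : Set V}
    (hS : Set.range f = S) : Nonempty (H ≃g G.induce S) := by
  subst hS
  exact ⟨⟨Equiv.ofInjective f f.injective, by intro a b; simp [Equiv.ofInjective_apply]⟩⟩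

section
variable {G : SimpleGraph V} {R : Finset V} {s u v : V}

lemma sup_sub {U : Type} {H : SimpleGraph U} (hs : s ∈ R) (hu : u ∈ R) (hv : v ∈ R) (huv : u ≠ v)
    (hus : u ≠ s) (hvs : v ≠ s) (hN : ∀ z ∈ R, G.Adj s z ↔ z = u ∨ z = v) (hna : ¬ G.Adj u v)
    (h : IsSubdivision H ((addE G u v huv).induce ((R.erase s : Finset V) : Set V))) :
    IsSubdivision H (G.induce (R : Set V)) := by
  have hu' : u ∈ ((R.erase s : Finset V) : Set V) := by simp [hus, hu]
  have hv' : v ∈ ((R.erase s : Finset V) : Set V) := by simp [hvs, hv]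
  have h1 := h.tail (u := ⟨u, hu'⟩) (v := ⟨v, hv'⟩) (by
    show (addE G u v huv).Adj u v
    exact Or.inr (Or.inl ⟨rfl, rfl⟩))
  refine h1.iso_right (K' := G.induce (R : Set V)) ?_
  refine ⟨⟨fun o => match o with
      | none => ⟨s, by simpa using hs⟩
      | some x => ⟨x.1, by
        have := x.2
        simp only [coe_erase, Set.mem_sdiff, mem_coe, Set.mem_singleton_iff] at this
        exact this.1⟩,
    fun x => if hx : x.1 = s then none else some ⟨x.1, by
      simp only [coe_erase, Set.mem_sdiff, mem_coe, Set.mem_singleton_iff]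
      exact ⟨x.2, hx⟩⟩, ?_, ?_⟩, ?_⟩
  · rintro (_ | x)
    · simp
    · have : x.1 ≠ s := by
        have := x.2
        simp only [coe_erase, Set.mem_sdiff, mem_coe, Set.mem_singleton_iff] at this
        exact this.2
      simp [this]
  · intro x
    by_cases hx : x.1 = s
    · simp only [hx, dif_pos]
      exact Subtype.ext hx.symm
    · simp only [hx, dif_neg, not_false_eq_true]
  · rintro (_ | x) (_ | y)
    · simp
    · have hy := y.2
      simp only [coe_erase, Set.mem_sdiff, mem_coe, Set.mem_singleton_iff] at hy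
      show G.Adj s y.1 ↔ _
      rw [hN _ hy.1, sub_none_some]
      simp [Subtype.ext_iff]
    · have hx := x.2
      simp only [coe_erase, Set.mem_sdiff, mem_coe, Set.mem_singleton_iff] at hx
      show G.Adj x.1 s ↔ _
      rw [G.adj_comm, hN _ hx.1, sub_some_none]
      simp [Subtype.ext_iff]
    · show G.Adj x.1 y.1 ↔ _
      rw [sub_some_some]
      show G.Adj x.1 y.1 ↔ (G.Adj x.1 y.1 ∨ (x.1 = u ∧ y.1 = v) ∨ (x.1 = v ∧ y.1 = u)) ∧
        s(x, y) ≠ s(⟨u, hu'⟩, ⟨v, hv'⟩)
      rw [ne_eq, Sym2.eq_iff]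
      simp only [Subtype.ext_iff]
      constructor
      · intro hxy
        refine ⟨Or.inl hxy, ?_⟩
        rintro (⟨h1, h2⟩ | ⟨h1, h2⟩)
        · rw [h1, h2] at hxy; exact hna hxy
        · rw [h1, h2] at hxy; exact hna hxy.symm
      · rintro ⟨hxy | hxy | hxy, hn⟩
        · exact hxy
        · exact absurd (Or.inl hxy) hn
        · exact absurd (Or.inr hxy) hn

lemma dg_sup (hs : s ∈ R) (hu : u ∈ R) (hv : v ∈ R) (huv : u ≠ v) (hus : u ≠ s) (hvs : v ≠ s)
    (hN : ∀ z ∈ R, G.Adj s z ↔ z = u ∨ z = v) (hna : ¬ G.Adj u v) {z : V} (hz : z ∈ R)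
    (hzs : z ≠ s) : dg (addE G u v huv) (R.erase s) z = dg G R z := by
  unfold dg
  have hsu : G.Adj u s := ((hN u hu).2 (Or.inl rfl)).symm
  have hsv : G.Adj v s := ((hN v hv).2 (Or.inr rfl)).symm
  by_cases hzu : z = u
  · subst hzu
    have e : (R.erase s).filter (fun y => (addE G z v huv).Adj z y) =
        insert v ((R.filter (fun y => G.Adj z y)).erase s) := by
      ext y
      simp only [mem_filter, mem_erase, mem_insert, addE]
      constructor
      · rintro ⟨⟨h1, h2⟩, h3 | h3 | h3⟩
        · exact Or.inr ⟨h1, h2, h3⟩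
        · exact Or.inl h3.2
        · exact absurd h3.1 huv
      · rintro (rfl | ⟨h1, h2, h3⟩)
        · exact ⟨⟨hvs, hv⟩, Or.inr (Or.inl (by simp))⟩
        · exact ⟨⟨h1, h2⟩, Or.inl h3⟩
    rw [e, card_insert_of_notMem (by simp [hna]), card_erase_of_mem (by simp [hs, hsu])]
    have : 0 < (R.filter (fun y => G.Adj z y)).card := card_pos.2 ⟨s, by simp [hs, hsu]⟩
    omega
  · by_cases hzv : z = v
    · subst hzv
      have e : (R.erase s).filter (fun y => (addE G u z huv).Adj z y) =
          insert u ((R.filter (fun y => G.Adj z y)).erase s) := by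
        ext y
        simp only [mem_filter, mem_erase, mem_insert, addE]
        constructor
        · rintro ⟨⟨h1, h2⟩, h3 | h3 | h3⟩
          · exact Or.inr ⟨h1, h2, h3⟩
          · exact absurd h3.1.symm huv
          · exact Or.inl h3.2
        · rintro (rfl | ⟨h1, h2, h3⟩)
          · exact ⟨⟨hus, hu⟩, Or.inr (Or.inr (by simp))⟩
          · exact ⟨⟨h1, h2⟩, Or.inl h3⟩
      have hna' : ¬ G.Adj z u := fun h => hna h.symm
      rw [e, card_insert_of_notMem (by simp [hna']), card_erase_of_mem (by simp [hs, hsv])]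
      have : 0 < (R.filter (fun y => G.Adj z y)).card := card_pos.2 ⟨s, by simp [hs, hsv]⟩
      omega
    · congr 1
      ext y
      simp only [mem_filter, mem_erase, addE, hzu, hzv, false_and, or_false]
      constructor
      · rintro ⟨⟨_, h1⟩, h2⟩; exact ⟨h1, h2⟩
      · rintro ⟨h1, h2⟩
        refine ⟨⟨?_, h1⟩, h2⟩
        rintro rfl
        rcases (hN z hz).1 h2.symm with h | h
        · exact hzu h
        · exact hzv h

lemma cn_sup (huv : u ≠ v) (hus : u ≠ s) (hvs : v ≠ s)
    (hN : ∀ z ∈ R, G.Adj s z ↔ z = u ∨ z = v) {R' : Finset V} (hR : R' ⊆ R) (hs : s ∈ R')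
    (hc : Cn G R') (hne : (R'.erase s).Nonempty) : Cn (addE G u v huv) (R'.erase s) := by
  refine ⟨hne, fun T hT hTn hTc => ?_⟩
  obtain ⟨w, hw⟩ := hTc
  rw [mem_sdiff, mem_erase] at hw
  have hTR : T ⊆ R' := hT.trans (erase_subset _ _)
  have hsT : s ∉ T := fun h => notMem_erase s R' (hT h)
  by_cases hcase : u ∈ T ∨ (u ∉ R' ∧ v ∈ T)
  · obtain ⟨x, hx, y, hy, hxy⟩ := hc.2 (insert s T) (insert_subset hs hTR) ⟨s, mem_insert_self _ _⟩
      ⟨w, by rw [mem_sdiff, mem_insert, not_or]; exact ⟨hw.1.2, hw.1.1, hw.2⟩⟩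
    rw [mem_sdiff, mem_insert, not_or] at hy
    rcases mem_insert.1 hx with rfl | hx
    · rcases (hN y (hR hy.1)).1 hxy with rfl | rfl
      · rcases hcase with h | h
        · exact absurd h hy.2.2
        · exact absurd hy.1 h.1
      · rcases hcase with h | h
        · refine ⟨u, h, y, ?_, Or.inr (Or.inl ⟨rfl, rfl⟩)⟩
          rw [mem_sdiff, mem_erase]; exact ⟨⟨hy.2.1, hy.1⟩, hy.2.2⟩
        · exact absurd h.2 hy.2.2
    · refine ⟨x, hx, y, ?_, Or.inl hxy⟩
      rw [mem_sdiff, mem_erase]; exact ⟨⟨hy.2.1, hy.1⟩, hy.2.2⟩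
  · push Not at hcase
    obtain ⟨x, hx, y, hy, hxy⟩ := hc.2 T hTR hTn ⟨w, by rw [mem_sdiff]; exact ⟨hw.1.2, hw.2⟩⟩
    rw [mem_sdiff] at hy
    by_cases hys : y = s
    · subst hys
      rcases (hN x (hR (hTR hx))).1 hxy.symm with rfl | rfl
      · exact absurd hx hcase.1
      · have huR : u ∈ R' := by
          by_contra h
          exact hcase.2 h hx
        refine ⟨x, hx, u, ?_, Or.inr (Or.inr ⟨rfl, rfl⟩)⟩
        rw [mem_sdiff, mem_erase]; exact ⟨⟨hus, huR⟩, hcase.1⟩
    · refine ⟨x, hx, y, ?_, Or.inl hxy⟩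
      rw [mem_sdiff, mem_erase]; exact ⟨⟨hys, hy.1⟩, hy.2⟩

end

/-- neighbourhood of size two -/
lemma nb_two {G : SimpleGraph V} {R : Finset V} {z : V} (h : dg G R z = 2) :
    ∃ u v, u ≠ v ∧ u ∈ R ∧ v ∈ R ∧ ∀ w ∈ R, G.Adj z w ↔ w = u ∨ w = v := by
  obtain ⟨u, v, huv, he⟩ := card_eq_two.1 h
  have hm : ∀ w, w ∈ R.filter (fun y => G.Adj z y) ↔ w = u ∨ w = v := by
    intro w; rw [he]; simp
  refine ⟨u, v, huv, (mem_filter.1 ((hm u).2 (Or.inl rfl))).1,
    (mem_filter.1 ((hm v).2 (Or.inr rfl))).1, fun w hw => ?_⟩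
  rw [← hm w, mem_filter]
  simp [hw]

/-- two known neighbours of a vertex of degree two are all its neighbours -/
lemma nb_eq {G : SimpleGraph V} {R : Finset V} {z a b : V} (h : dg G R z = 2) (ha : a ∈ R)
    (hb : b ∈ R) (hab : a ≠ b) (hza : G.Adj z a) (hzb : G.Adj z b) :
    ∀ w ∈ R, G.Adj z w → w = a ∨ w = b := by
  obtain ⟨u, v, huv, hu, hv, hN⟩ := nb_two h
  intro w hw hzw
  have h1 := (hN a ha).1 hza
  have h2 := (hN b hb).1 hzb
  have h3 := (hN w hw).1 hzw
  rcases h1 with rfl | rfl <;> rcases h2 with rfl | rfl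
  · exact absurd rfl hab
  · exact h3
  · exact h3.symm
  · exact absurd rfl hab

lemma recog_dia : ∀ (n : ℕ) (G : SimpleGraph V) (R : Finset V) (x y : V), R.card = n + 4 → x ∈ R →
    y ∈ R → x ≠ y → Cn G (R.erase x) → Cn G (R.erase y) → dg G R x = 3 → dg G R y = 3 →
    (∀ z ∈ R, z ≠ x → z ≠ y → dg G R z = 2) → IsSubdivision diamond (G.induce (R : Set V)) := by
  intro n
  induction n with
  | zero =>
    intro G R x y hc hx hy hxy _ _ dx dy dz
    have hc2 : ((R.erase x).erase y).card = 2 := by
      rw [card_erase_of_mem (mem_erase.2 ⟨hxy.symm, hy⟩), card_erase_of_mem hx, hc]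
    obtain ⟨a, b, hab, he⟩ := card_eq_two.1 hc2
    have hm : ∀ w, w ∈ R ↔ w = x ∨ w = y ∨ w = a ∨ w = b := by
      intro w
      have h1 : w ∈ (R.erase x).erase y ↔ w = a ∨ w = b := by rw [he]; simp
      rw [mem_erase, mem_erase] at h1
      constructor
      · intro hw
        by_cases h2 : w = x
        · exact Or.inl h2
        · by_cases h3 : w = y
          · exact Or.inr (Or.inl h3)
          · exact Or.inr (Or.inr (h1.1 ⟨h3, h2, hw⟩))
      · rintro (rfl | rfl | h)
        · exact hx
        · exact hy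
        · exact (h1.2 h).2.2
    have ha : a ∈ (R.erase x).erase y := by rw [he]; simp
    have hb : b ∈ (R.erase x).erase y := by rw [he]; simp
    rw [mem_erase, mem_erase] at ha hb
    have full : ∀ z ∈ R, dg G R z = 3 → ∀ w ∈ R, w ≠ z → G.Adj z w := by
      intro z hz hd w hw hwz
      have h1 : R.filter (fun y => G.Adj z y) ⊆ R.erase z := by
        intro t ht
        rw [mem_filter] at ht
        exact mem_erase.2 ⟨ht.2.ne', ht.1⟩
      have h2 : R.filter (fun y => G.Adj z y) = R.erase z := by
        apply eq_of_subset_of_card_le h1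
        rw [card_erase_of_mem hz, hc]
        exact le_of_eq hd.symm
      have : w ∈ R.filter (fun y => G.Adj z y) := by rw [h2]; exact mem_erase.2 ⟨hwz, hw⟩
      exact (mem_filter.1 this).2
    have hxall := full x hx dx
    have hyall := full y hy dy
    have hab' : ¬ G.Adj a b := by
      intro h
      have := nb_eq (dz a ha.2.2 ha.2.1 ha.1) hx hy hxy (hxall a ha.2.2 ha.2.1).symm
        (hyall a ha.2.2 ha.1).symm b hb.2.2 h
      rcases this with h' | h'
      · exact hb.2.1 h'
      · exact hb.1 h'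
    have e1 : G.Adj x y := hxall y hy hxy.symm
    have e2 : G.Adj x a := hxall a ha.2.2 ha.2.1
    have e3 : G.Adj x b := hxall b hb.2.2 hb.2.1
    have e4 : G.Adj y a := hyall a ha.2.2 ha.1
    have e5 : G.Adj y b := hyall b hb.2.2 hb.1
    let f : Fin 4 → V := ![x, y, a, b]
    have hf : ∀ i j : Fin 4, i < j → f i ≠ f j ∧ (G.Adj (f i) (f j) ↔ ¬ (i = 2 ∧ j = 3)) := by
      intro i j hij
      fin_cases i <;> fin_cases j <;> first
        | (exfalso; revert hij; decide)
        | skip
      · exact ⟨hxy, by simp [f, e1]⟩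
      · exact ⟨ha.2.1.symm, by simp [f, e2]⟩
      · exact ⟨hb.2.1.symm, by simp [f, e3]⟩
      · exact ⟨ha.1.symm, by simp [f, e4]⟩
      · exact ⟨hb.1.symm, by simp [f, e5]⟩
      · exact ⟨hab, by simp [f, hab']⟩
    have hinj : Function.Injective f := by
      intro i j hij
      rcases lt_trichotomy i j with h | h | h
      · exact absurd hij (hf i j h).1
      · exact h
      · exact absurd hij.symm (hf j i h).1
    have hadj : ∀ i j : Fin 4, G.Adj (f i) (f j) ↔ diamond.Adj i j := by
      intro i j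
      have hd : ∀ i j : Fin 4, diamond.Adj i j ↔ i ≠ j ∧ (i = 0 ∨ i = 1 ∨ j = 0 ∨ j = 1) := by
        intro i j
        simp only [diamond, SimpleGraph.fromRel_adj]
        tauto
      rw [hd]
      rcases lt_trichotomy i j with h | h | h
      · rw [(hf i j h).2]
        revert h; revert i j; decide
      · subst h; simp
      · rw [G.adj_comm, (hf j i h).2]
        revert h; revert i j; decide
    obtain ⟨e⟩ := iso_of_range (H := diamond) (G := G) (S := (R : Set V))
      ⟨⟨f, hinj⟩, fun {i j} => hadj i j⟩ (by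
        ext w
        rw [mem_coe, hm]
        simp only [Set.mem_range]
        constructor
        · rintro ⟨i, rfl⟩
          show f i = x ∨ f i = y ∨ f i = a ∨ f i = b
          fin_cases i <;> simp [f]
        · rintro (rfl | rfl | rfl | rfl)
          · exact ⟨0, rfl⟩
          · exact ⟨1, rfl⟩
          · exact ⟨2, rfl⟩
          · exact ⟨3, rfl⟩)
    exact IsSubdivision.iso e
  | succ n ih =>
    intro G R x y hc hx hy hxy cx cy dx dy dz
    -- a vertex of degree two with nonadjacent neighbours
    have key : ∃ s ∈ R, s ≠ x ∧ s ≠ y ∧ ∃ u v, u ≠ v ∧ u ∈ R ∧ v ∈ R ∧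
        (∀ w ∈ R, G.Adj s w ↔ w = u ∨ w = v) ∧ ¬ G.Adj u v := by
      by_contra hcon
      push Not at hcon
      have claim : ∀ x' y' : V, x' ∈ R → y' ∈ R → x' ≠ y' → Cn G (R.erase x') → Cn G (R.erase y') →
          (∀ z ∈ R, z ≠ x' → z ≠ y' → dg G R z = 2) →
          (∀ s ∈ R, s ≠ x' → s ≠ y' → ∀ u v, u ≠ v → u ∈ R → v ∈ R →
            (∀ w ∈ R, G.Adj s w ↔ w = u ∨ w = v) → G.Adj u v) →
          ∀ z ∈ R, z ≠ x' → z ≠ y' → G.Adj z x' := by
        intro x y hx hy hxy cx cy dz hcon z hz hzx hzy
        by_contra hzn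
        obtain ⟨u, v, huv, hu, hv, hN⟩ := nb_two (dz z hz hzx hzy)
        have hadj := hcon z hz hzx hzy u v huv hu hv hN
        have hzu : G.Adj z u := (hN u hu).2 (Or.inl rfl)
        have hzv : G.Adj z v := (hN v hv).2 (Or.inr rfl)
        have hux : u ≠ x := by rintro rfl; exact hzn hzu
        have hvx : v ≠ x := by rintro rfl; exact hzn hzv
        by_cases huy : u = y
        · subst huy
          have hNv := nb_eq (dz v hv hvx huv.symm) hz hu hzu.ne hzv.symm hadj.symm
          obtain ⟨a, ha, b, hb, hab⟩ := cy.2 {z, v} (by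
            intro t ht
            rcases mem_insert.1 ht with rfl | ht
            · exact mem_erase.2 ⟨hzy, hz⟩
            · rw [mem_singleton.1 ht]; exact mem_erase.2 ⟨huv.symm, hv⟩) ⟨z, by simp⟩
            ⟨x, by
              rw [mem_sdiff, mem_erase, mem_insert, mem_singleton]
              exact ⟨⟨hxy, hx⟩, fun h => h.elim (fun h => hzx h.symm) (fun h => hvx h.symm)⟩⟩
          rw [mem_sdiff, mem_erase, mem_insert, mem_singleton, not_or] at hb
          rcases mem_insert.1 ha with rfl | ha
          · rcases (hN b hb.1.2).1 hab with h | h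
            · exact hb.1.1 h
            · exact hb.2.2 h
          · rw [mem_singleton] at ha; subst ha
            rcases hNv b hb.1.2 hab with h | h
            · exact hb.2.1 h
            · exact hb.1.1 h
        · by_cases hvy : v = y
          · subst hvy
            have hNu := nb_eq (dz u hu hux huy) hz hv hzv.ne hzu.symm hadj
            obtain ⟨a, ha, b, hb, hab⟩ := cy.2 {z, u} (by
              intro t ht
              rcases mem_insert.1 ht with rfl | ht
              · exact mem_erase.2 ⟨hzy, hz⟩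
              · rw [mem_singleton.1 ht]; exact mem_erase.2 ⟨huy, hu⟩) ⟨z, by simp⟩
              ⟨x, by
                rw [mem_sdiff, mem_erase, mem_insert, mem_singleton]
                exact ⟨⟨hxy, hx⟩, fun h => h.elim (fun h => hzx h.symm) (fun h => hux h.symm)⟩⟩
            rw [mem_sdiff, mem_erase, mem_insert, mem_singleton, not_or] at hb
            rcases mem_insert.1 ha with rfl | ha
            · rcases (hN b hb.1.2).1 hab with h | h
              · exact hb.2.2 h
              · exact hb.1.1 h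
            · rw [mem_singleton] at ha; subst ha
              rcases hNu b hb.1.2 hab with h | h
              · exact hb.2.1 h
              · exact hb.1.1 h
          · have hNu := nb_eq (dz u hu hux huy) hz hv hzv.ne hzu.symm hadj
            have hNv := nb_eq (dz v hv hvx hvy) hz hu hzu.ne hzv.symm hadj.symm
            obtain ⟨a, ha, b, hb, hab⟩ := cx.2 {z, u, v} (by
              intro t ht
              rcases mem_insert.1 ht with rfl | ht
              · exact mem_erase.2 ⟨hzx, hz⟩
              · rcases mem_insert.1 ht with rfl | ht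
                · exact mem_erase.2 ⟨hux, hu⟩
                · rw [mem_singleton.1 ht]; exact mem_erase.2 ⟨hvx, hv⟩) ⟨z, by simp⟩
              ⟨y, by
                rw [mem_sdiff, mem_erase, mem_insert, mem_insert, mem_singleton]
                exact ⟨⟨hxy.symm, hy⟩, fun h => h.elim (fun h => hzy h.symm) (fun h => h.elim
                  (fun h => huy h.symm) (fun h => hvy h.symm))⟩⟩
            rw [mem_sdiff, mem_erase, mem_insert, mem_insert, mem_singleton, not_or, not_or] at hb
            rcases mem_insert.1 ha with rfl | ha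
            · rcases (hN b hb.1.2).1 hab with h | h
              · exact hb.2.2.1 h
              · exact hb.2.2.2 h
            · rcases mem_insert.1 ha with rfl | ha
              · rcases hNu b hb.1.2 hab with h | h
                · exact hb.2.1 h
                · exact hb.2.2.2 h
              · rw [mem_singleton] at ha; subst ha
                rcases hNv b hb.1.2 hab with h | h
                · exact hb.2.1 h
                · exact hb.2.2.1 h
      have c1 := claim x y hx hy hxy cx cy dz (fun s hs h1 h2 u v h3 h4 h5 h6 =>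
        hcon s hs h1 h2 u v h3 h4 h5 h6)
      have c2 := claim y x hy hx hxy.symm cy cx (fun z hz h1 h2 => dz z hz h2 h1)
        (fun s hs h1 h2 u v h3 h4 h5 h6 => hcon s hs h2 h1 u v h3 h4 h5 h6)
      -- choose z
      obtain ⟨z, hz⟩ : ((R.erase x).erase y).Nonempty := by
        rw [← card_pos, card_erase_of_mem (mem_erase.2 ⟨hxy.symm, hy⟩), card_erase_of_mem hx, hc]
        omega
      rw [mem_erase, mem_erase] at hz
      have hxy' : G.Adj x y := by
        apply hcon z hz.2.2 hz.2.1 hz.1 x y hxy hx hy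
        intro w hw
        constructor
        · exact nb_eq (dz z hz.2.2 hz.2.1 hz.1) hx hy hxy (c1 z hz.2.2 hz.2.1 hz.1)
            (c2 z hz.2.2 hz.1 hz.2.1) w hw
        · rintro (rfl | rfl)
          · exact c1 z hz.2.2 hz.2.1 hz.1
          · exact c2 z hz.2.2 hz.1 hz.2.1
      have hsub : R.erase x ⊆ R.filter (fun w => G.Adj x w) := by
        intro w hw
        rw [mem_erase] at hw
        rw [mem_filter]
        refine ⟨hw.2, ?_⟩
        by_cases hwy : w = y
        · rw [hwy]; exact hxy'
        · exact (c1 w hw.2 hw.1 hwy).symm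
      have := card_le_card hsub
      rw [card_erase_of_mem hx, hc] at this
      unfold dg at dx
      omega
    obtain ⟨s, hs, hsx, hsy, u, v, huv, hu, hv, hN, hna⟩ := key
    have hus : u ≠ s := by rintro rfl; exact ((hN u hu).2 (Or.inl rfl)).ne rfl
    have hvs : v ≠ s := by rintro rfl; exact ((hN v hv).2 (Or.inr rfl)).ne rfl
    refine sup_sub hs hu hv huv hus hvs hN hna (ih _ (R.erase s) x y ?_ ?_ ?_ hxy ?_ ?_ ?_ ?_ ?_)
    · rw [card_erase_of_mem hs, hc]; omega
    · exact mem_erase.2 ⟨hsx.symm, hx⟩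
    · exact mem_erase.2 ⟨hsy.symm, hy⟩
    · rw [erase_right_comm]
      apply cn_sup huv hus hvs hN (erase_subset _ _) (mem_erase.2 ⟨hsx, hs⟩) cx
      rw [← card_pos, card_erase_of_mem (mem_erase.2 ⟨hsx, hs⟩), card_erase_of_mem hx, hc]
      omega
    · rw [erase_right_comm]
      apply cn_sup huv hus hvs hN (erase_subset _ _) (mem_erase.2 ⟨hsy, hs⟩) cy
      rw [← card_pos, card_erase_of_mem (mem_erase.2 ⟨hsy, hs⟩), card_erase_of_mem hy, hc]
      omega
    · rw [dg_sup hs hu hv huv hus hvs hN hna hx hsx.symm]; exact dx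
    · rw [dg_sup hs hu hv huv hus hvs hN hna hy hsy.symm]; exact dy
    · intro z hz hzx hzy
      rw [mem_erase] at hz
      rw [dg_sup hs hu hv huv hus hvs hN hna hz.2 hz.1]
      exact dz z hz.2 hzx hzy

lemma recog_paw : ∀ (n : ℕ) (G : SimpleGraph V) (R : Finset V) (x p : V), R.card = n + 4 → x ∈ R →
    p ∈ R → x ≠ p → Cn G R → dg G R x = 3 → dg G R p = 1 →
    (∀ z ∈ R, z ≠ x → z ≠ p → dg G R z = 2) → IsSubdivision paw (G.induce (R : Set V)) := by
  intro n
  induction n with
  | zero =>
    intro G R x p hc hx hp hxp _ dx dp dz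
    have hc2 : ((R.erase x).erase p).card = 2 := by
      rw [card_erase_of_mem (mem_erase.2 ⟨hxp.symm, hp⟩), card_erase_of_mem hx, hc]
    obtain ⟨a, b, hab, he⟩ := card_eq_two.1 hc2
    have hm : ∀ w, w ∈ R ↔ w = x ∨ w = p ∨ w = a ∨ w = b := by
      intro w
      have h1 : w ∈ (R.erase x).erase p ↔ w = a ∨ w = b := by rw [he]; simp
      rw [mem_erase, mem_erase] at h1
      constructor
      · intro hw
        by_cases h2 : w = x
        · exact Or.inl h2
        · by_cases h3 : w = p
          · exact Or.inr (Or.inl h3)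
          · exact Or.inr (Or.inr (h1.1 ⟨h3, h2, hw⟩))
      · rintro (rfl | rfl | h)
        · exact hx
        · exact hp
        · exact (h1.2 h).2.2
    have ha : a ∈ (R.erase x).erase p := by rw [he]; simp
    have hb : b ∈ (R.erase x).erase p := by rw [he]; simp
    rw [mem_erase, mem_erase] at ha hb
    have hxall : ∀ w ∈ R, w ≠ x → G.Adj x w := by
      intro w hw hwz
      have h1 : R.filter (fun y => G.Adj x y) ⊆ R.erase x := by
        intro t ht
        rw [mem_filter] at ht
        exact mem_erase.2 ⟨ht.2.ne', ht.1⟩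
      have h2 : R.filter (fun y => G.Adj x y) = R.erase x := by
        apply eq_of_subset_of_card_le h1
        rw [card_erase_of_mem hx, hc]
        exact le_of_eq dx.symm
      have : w ∈ R.filter (fun y => G.Adj x y) := by rw [h2]; exact mem_erase.2 ⟨hwz, hw⟩
      exact (mem_filter.1 this).2
    obtain ⟨q, hq⟩ := card_eq_one.1 dp
    have hpx : ∀ w ∈ R, G.Adj p w → w = x := by
      intro w hw hpw
      have h1 : w ∈ R.filter (fun y => G.Adj p y) := mem_filter.2 ⟨hw, hpw⟩
      have h2 : x ∈ R.filter (fun y => G.Adj p y) :=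
        mem_filter.2 ⟨hx, (hxall p hp hxp.symm).symm⟩
      rw [hq, mem_singleton] at h1 h2
      rw [h1, h2]
    have e1 : G.Adj x a := hxall a ha.2.2 ha.2.1
    have e2 : G.Adj x b := hxall b hb.2.2 hb.2.1
    have e3 : G.Adj x p := hxall p hp hxp.symm
    have n1 : ¬ G.Adj a p := fun h => ha.2.1 (hpx a ha.2.2 h.symm)
    have n2 : ¬ G.Adj b p := fun h => hb.2.1 (hpx b hb.2.2 h.symm)
    have e4 : G.Adj a b := by
      obtain ⟨u, v, huv, hu, hv, hN⟩ := nb_two (dz a ha.2.2 ha.2.1 ha.1)
      by_contra hn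
      have hau : G.Adj a u := (hN u hu).2 (Or.inl rfl)
      have hav : G.Adj a v := (hN v hv).2 (Or.inr rfl)
      have hux : u = x := by
        rcases (hm u).1 hu with h | h | h | h
        · exact h
        · rw [h] at hau; exact absurd hau n1
        · rw [h] at hau; exact absurd rfl hau.ne
        · rw [h] at hau; exact absurd hau hn
      have hvx : v = x := by
        rcases (hm v).1 hv with h | h | h | h
        · exact h
        · rw [h] at hav; exact absurd hav n1
        · rw [h] at hav; exact absurd rfl hav.ne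
        · rw [h] at hav; exact absurd hav hn
      exact huv (hux.trans hvx.symm)
    let f : Fin 4 → V := ![x, a, b, p]
    have hf : ∀ i j : Fin 4, i < j → f i ≠ f j ∧ (G.Adj (f i) (f j) ↔
        ¬ (i = 1 ∧ j = 3) ∧ ¬ (i = 2 ∧ j = 3)) := by
      intro i j hij
      fin_cases i <;> fin_cases j <;> first
        | (exfalso; revert hij; decide)
        | skip
      · exact ⟨ha.2.1.symm, by simp [f, e1]⟩
      · exact ⟨hb.2.1.symm, by simp [f, e2]⟩
      · exact ⟨hxp, by simp [f, e3]⟩
      · exact ⟨hab, by simp [f, e4]⟩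
      · exact ⟨ha.1, by simp [f, n1]⟩
      · exact ⟨hb.1, by simp [f, n2]⟩
    have hinj : Function.Injective f := by
      intro i j hij
      rcases lt_trichotomy i j with h | h | h
      · exact absurd hij (hf i j h).1
      · exact h
      · exact absurd hij.symm (hf j i h).1
    have hadj : ∀ i j : Fin 4, G.Adj (f i) (f j) ↔ paw.Adj i j := by
      intro i j
      have hd : ∀ i j : Fin 4, paw.Adj i j ↔ i ≠ j ∧ (i = 0 ∨ j = 0 ∨ (i = 1 ∧ j = 2) ∨
          (i = 2 ∧ j = 1)) := by
        intro i j
        simp only [paw, SimpleGraph.fromRel_adj]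
        tauto
      rw [hd]
      rcases lt_trichotomy i j with h | h | h
      · rw [(hf i j h).2]
        revert h; revert i j; decide
      · subst h; simp
      · rw [G.adj_comm, (hf j i h).2]
        revert h; revert i j; decide
    obtain ⟨e⟩ := iso_of_range (H := paw) (G := G) (S := (R : Set V))
      ⟨⟨f, hinj⟩, fun {i j} => hadj i j⟩ (by
        ext w
        rw [mem_coe, hm]
        simp only [Set.mem_range]
        constructor
        · rintro ⟨i, rfl⟩
          show f i = x ∨ f i = p ∨ f i = a ∨ f i = b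
          fin_cases i <;> simp [f]
        · rintro (rfl | rfl | rfl | rfl)
          · exact ⟨0, rfl⟩
          · exact ⟨3, rfl⟩
          · exact ⟨1, rfl⟩
          · exact ⟨2, rfl⟩)
    exact IsSubdivision.iso e
  | succ n ih =>
    intro G R x p hc hx hp hxp cc dx dp dz
    have key : ∃ s ∈ R, s ≠ x ∧ s ≠ p ∧ ∃ u v, u ≠ v ∧ u ∈ R ∧ v ∈ R ∧
        (∀ w ∈ R, G.Adj s w ↔ w = u ∨ w = v) ∧ ¬ G.Adj u v := by
      by_contra hcon
      push Not at hcon
      obtain ⟨q, hq⟩ := card_eq_one.1 dp
      have hpq : ∀ w, (w ∈ R ∧ G.Adj p w) ↔ w = q := by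
        intro w
        rw [← mem_filter (p := fun y => G.Adj p y), hq, mem_singleton]
      have c1 : ∀ z ∈ R, z ≠ x → z ≠ p → G.Adj z x := by
        intro z hz hzx hzp
        by_contra hzn
        obtain ⟨u, v, huv, hu, hv, hN⟩ := nb_two (dz z hz hzx hzp)
        have hadj := hcon z hz hzx hzp u v huv hu hv hN
        have hzu : G.Adj z u := (hN u hu).2 (Or.inl rfl)
        have hzv : G.Adj z v := (hN v hv).2 (Or.inr rfl)
        have hux : u ≠ x := by rintro rfl; exact hzn hzu
        have hvx : v ≠ x := by rintro rfl; exact hzn hzv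
        have hup : u ≠ p := by
          rintro rfl
          have h1 := (hpq z).1 ⟨hz, hzu.symm⟩
          have h2 := (hpq v).1 ⟨hv, hadj⟩
          exact hzv.ne (h1.trans h2.symm)
        have hvp : v ≠ p := by
          rintro rfl
          have h1 := (hpq z).1 ⟨hz, hzv.symm⟩
          have h2 := (hpq u).1 ⟨hu, hadj.symm⟩
          exact hzu.ne (h1.trans h2.symm)
        have hNu := nb_eq (dz u hu hux hup) hz hv hzv.ne hzu.symm hadj
        have hNv := nb_eq (dz v hv hvx hvp) hz hu hzu.ne hzv.symm hadj.symm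
        obtain ⟨a, ha, b, hb, hab⟩ := cc.2 {z, u, v} (by
          intro t ht
          rcases mem_insert.1 ht with rfl | ht
          · exact hz
          · rcases mem_insert.1 ht with rfl | ht
            · exact hu
            · rw [mem_singleton.1 ht]; exact hv) ⟨z, by simp⟩
          ⟨x, by
            rw [mem_sdiff, mem_insert, mem_insert, mem_singleton]
            exact ⟨hx, fun h => h.elim (fun h => hzx h.symm) (fun h => h.elim
              (fun h => hux h.symm) (fun h => hvx h.symm))⟩⟩
        rw [mem_sdiff, mem_insert, mem_insert, mem_singleton, not_or, not_or] at hb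
        rcases mem_insert.1 ha with rfl | ha
        · rcases (hN b hb.1).1 hab with h | h
          · exact hb.2.2.1 h
          · exact hb.2.2.2 h
        · rcases mem_insert.1 ha with rfl | ha
          · rcases hNu b hb.1 hab with h | h
            · exact hb.2.1 h
            · exact hb.2.2.2 h
          · rw [mem_singleton] at ha; subst ha
            rcases hNv b hb.1 hab with h | h
            · exact hb.2.1 h
            · exact hb.2.2.1 h
      have hsub : (R.erase x).erase p ⊆ R.filter (fun w => G.Adj x w) := by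
        intro w hw
        rw [mem_erase, mem_erase] at hw
        exact mem_filter.2 ⟨hw.2.2, (c1 w hw.2.2 hw.2.1 hw.1).symm⟩
      have hcard : ((R.erase x).erase p).card = n + 3 := by
        rw [card_erase_of_mem (mem_erase.2 ⟨hxp.symm, hp⟩), card_erase_of_mem hx, hc]
        omega
      have heq : (R.erase x).erase p = R.filter (fun w => G.Adj x w) := by
        apply eq_of_subset_of_card_le hsub
        have := card_le_card hsub
        unfold dg at dx
        omega
      have hxp' : ¬ G.Adj x p := by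
        intro h
        have : p ∈ (R.erase x).erase p := by rw [heq]; exact mem_filter.2 ⟨hp, h⟩
        exact notMem_erase _ _ this
      have hqR := (hpq q).2 rfl
      have hqx : q ≠ x := by rintro rfl; exact hxp' hqR.2.symm
      have hqp : q ≠ p := by rintro rfl; exact hqR.2.ne rfl
      have hqx' := c1 q hqR.1 hqx hqp
      apply hxp'
      apply hcon q hqR.1 hqx hqp x p hxp hx hp
      intro w hw
      constructor
      · exact nb_eq (dz q hqR.1 hqx hqp) hx hp hxp hqx' hqR.2.symm w hw
      · rintro (rfl | rfl)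
        · exact hqx'
        · exact hqR.2.symm
    obtain ⟨s, hs, hsx, hsp, u, v, huv, hu, hv, hN, hna⟩ := key
    have hus : u ≠ s := by rintro rfl; exact ((hN u hu).2 (Or.inl rfl)).ne rfl
    have hvs : v ≠ s := by rintro rfl; exact ((hN v hv).2 (Or.inr rfl)).ne rfl
    refine sup_sub hs hu hv huv hus hvs hN hna (ih _ (R.erase s) x p ?_ ?_ ?_ hxp ?_ ?_ ?_ ?_)
    · rw [card_erase_of_mem hs, hc]; omega
    · exact mem_erase.2 ⟨hsx.symm, hx⟩
    · exact mem_erase.2 ⟨hsp.symm, hp⟩
    · apply cn_sup huv hus hvs hN (Subset.refl _) hs cc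
      rw [← card_pos, card_erase_of_mem hs, hc]
      omega
    · rw [dg_sup hs hu hv huv hus hvs hN hna hx hsx.symm]; exact dx
    · rw [dg_sup hs hu hv huv hus hvs hN hna hp hsp.symm]; exact dp
    · intro z hz hzx hzp
      rw [mem_erase] at hz
      rw [dg_sup hs hu hv huv hus hvs hN hna hz.2 hz.1]
      exact dz z hz.2 hzx hzp

/-- diamond by degrees -/
lemma itm_dia {G : SimpleGraph V} {R : Finset V} {x y : V} (hx : x ∈ R) (hy : y ∈ R) (hxy : x ≠ y)
    (cx : Cn G (R.erase x)) (cy : Cn G (R.erase y)) (dx : dg G R x = 3) (dy : dg G R y = 3)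
    (dz : ∀ z ∈ R, z ≠ x → z ≠ y → dg G R z = 2) : IsITM diamond G := by
  have h1 : R.filter (fun y => G.Adj x y) ⊆ R.erase x := by
    intro t ht
    rw [mem_filter] at ht
    exact mem_erase.2 ⟨ht.2.ne', ht.1⟩
  have h2 := card_le_card h1
  rw [card_erase_of_mem hx] at h2
  unfold dg at dx
  exact ⟨R, recog_dia (R.card - 4) G R x y (by omega) hx hy hxy cx cy dx dy dz⟩

/-- paw by degrees -/
lemma itm_paw {G : SimpleGraph V} {R : Finset V} {x p : V} (hx : x ∈ R) (hp : p ∈ R) (hxp : x ≠ p)
    (cc : Cn G R) (dx : dg G R x = 3) (dp : dg G R p = 1)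
    (dz : ∀ z ∈ R, z ≠ x → z ≠ p → dg G R z = 2) : IsITM paw G := by
  have h1 : R.filter (fun y => G.Adj x y) ⊆ R.erase x := by
    intro t ht
    rw [mem_filter] at ht
    exact mem_erase.2 ⟨ht.2.ne', ht.1⟩
  have h2 := card_le_card h1
  rw [card_erase_of_mem hx] at h2
  unfold dg at dx
  exact ⟨R, recog_paw (R.card - 4) G R x p (by omega) hx hp hxp cc dx dp dz⟩

end Pool.Agent.H690R3.Itm
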