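import Pool.Agent.H690R3.Itm.Paths

/-! 2-connected graphs without an induced subdivision of the diamond or of the paw. -/

namespace Pool.Agent.H690R3.Itm

open Finset Classical Pool.Agent.H175R2

variable {V : Type} {G : SimpleGraph V}

lemma card_seg {q : ℕ → V} {n : ℕ} (h : IP G q n) : (seg q 0 n).card = n + 1 := by
  unfold seg
  rw [card_image_of_injOn]
  · simp
  · intro i hi j hj he
    simp only [coe_Icc, Set.mem_Icc] at hi hj
    exact h.inj i hi.2 j hj.2 he

lemma ip_zero (v : V) : IP G (fun _ => v) 0 := by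
  refine ⟨fun i hi j hj => ?_, fun i hi j hj _ => by omega⟩
  constructor
  · intro h; exact absurd rfl h.ne
  · intro h; omega

/-- in a 2-connected graph without induced subdivided diamond, an induced cycle of length at least
four is everything -/
lemma dia_cyc [Fintype V] (h2 : TwoConn G) (hno : ¬ IsITM diamond G) {C : Finset V}
    (hC : IsCyc G C) (h4 : 4 ≤ C.card) : C = univ := by
  by_contra hCu
  have hle : ∀ v ∉ C, dg G C v ≤ 2 := by
    intro v hv
    by_contra h3
    have hw : ∃ w ∈ C, 3 ≤ dg G (C.erase w) v := by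
      by_cases hex : ∃ w ∈ C, ¬ G.Adj v w
      · obtain ⟨w, hw, hvw⟩ := hex
        refine ⟨w, hw, ?_⟩
        have e := dg_insert (G := G) (x := v) (notMem_erase w C)
        rw [insert_erase hw, if_neg hvw] at e
        omega
      · push Not at hex
        obtain ⟨w, hw⟩ := hC.conn.1
        refine ⟨w, hw, ?_⟩
        have e := dg_insert (G := G) (x := v) (notMem_erase w C)
        rw [insert_erase hw, if_pos (hex w hw)] at e
        have e2 : dg G C v = C.card := by
          unfold dg
          rw [filter_true_of_mem hex]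
        omega
    obtain ⟨w, hw, h3'⟩ := hw
    obtain ⟨n, q, _, hq, heq, _⟩ := hC.path hw
    rw [heq, dg_seg_out hq] at h3'
    refine hno (theta_three hq (v := v) (fun i hi he => hv ?_) h3')
    rw [← he]
    have : q i ∈ C.erase w := by rw [heq]; exact mem_seg.2 ⟨i, Nat.zero_le _, hi, rfl⟩
    exact (mem_erase.1 this).2
  have hne2 : ∀ v ∉ C, dg G C v ≠ 2 := by
    intro v hv h
    obtain ⟨u, u', huu, hu, hu', hN⟩ := nb_two h
    refine hno (theta_cyc hC (ip_zero v) (fun i _ => hv) hu hu' huu ?_)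
    intro i hi c hc
    rw [hN c hc]
    have : i = 0 := by omega
    simp [this]
  have hle1 : ∀ v ∉ C, dg G C v ≤ 1 := by
    intro v hv
    have h5 := hle v hv
    have h6 := hne2 v hv
    omega
  have huniq : ∀ v ∉ C, ∀ c ∈ C, ∀ c' ∈ C, G.Adj v c → G.Adj v c' → c = c' := by
    intro v hv c hc c' hc' h5 h6
    exact card_le_one.1 (hle1 v hv) c (mem_filter.2 ⟨hc, h5⟩) c' (mem_filter.2 ⟨hc', h6⟩)
  obtain ⟨d, hd⟩ : ∃ d, d ∉ C := by
    by_contra hcon
    push Not at hcon
    exact hCu (eq_univ_iff_forall.2 hcon)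
  have hdU : d ∈ univ \ C := by simp [hd]
  set D := cpt G (univ \ C) d with hD
  have hDc : Cn G D := cn_cpt hdU
  have hDC : ∀ z ∈ D, z ∉ C := fun z hz => (mem_sdiff.1 (cpt_subset hz)).2
  have hCD : ∀ z ∈ C, z ∉ D := fun z hz hz' => hDC z hz' hz
  have hout : ∀ x ∈ D, ∀ y, y ∉ D → G.Adj x y → y ∈ C := by
    intro x hx y hy hxy
    by_contra hyC
    exact not_adj_cpt hdU hx (by simp [hyC]) hy hxy
  obtain ⟨c, hcC⟩ := hC.conn.1
  obtain ⟨x0, hx0, c0, hc0, hxc0⟩ := h2.conn.2 D (subset_univ _) hDc.1
    ⟨c, mem_sdiff.2 ⟨mem_univ _, hCD c hcC⟩⟩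
  have hc0C := hout x0 hx0 c0 (mem_sdiff.1 hc0).2 hxc0
  obtain ⟨c', hc'⟩ : (C.erase c0).Nonempty := card_pos.1 (by rw [card_erase_of_mem hc0C]; omega)
  obtain ⟨hc'0, hc'C⟩ := mem_erase.1 hc'
  obtain ⟨x1, hx1, y1, hy1, hxy1⟩ := (h2.del c0).2 D
    (fun z hz => mem_erase.2 ⟨by rintro rfl; exact hCD z hc0C hz, mem_univ _⟩) hDc.1
    ⟨c', mem_sdiff.2 ⟨mem_erase.2 ⟨hc'0, mem_univ _⟩, hCD c' hc'C⟩⟩
  obtain ⟨hy1a, hy1b⟩ := mem_sdiff.1 hy1
  have hy1C := hout x1 hx1 y1 hy1b hxy1
  have hy10 : y1 ≠ c0 := (mem_erase.1 hy1a).1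
  obtain ⟨n, q, hqD, hq, hA, hB⟩ := exists_path hDc (fun z => G.Adj c0 z)
    (fun z => ∃ c ∈ C, c ≠ c0 ∧ G.Adj c z) hx0 hxc0.symm hx1 ⟨y1, hy1C, hy10, hxy1.symm⟩
  have hqC : ∀ i ≤ n, q i ∉ C := fun i hi => hDC _ (hqD i hi)
  obtain ⟨c1, hc1C, hc10, hc1q⟩ := (hB n le_rfl).2 rfl
  have hc0q := (hA 0 (Nat.zero_le _)).2 rfl
  refine hno (theta_cyc hC hq hqC hc0C hc1C hc10.symm ?_)
  intro i hi c hc
  constructor
  · intro hadj
    by_cases hcc : c = c0
    · left
      refine ⟨(hA i hi).1 ?_, hcc⟩
      rw [← hcc]; exact hadj.symm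
    · right
      have hin := (hB i hi).1 ⟨c, hc, hcc, hadj.symm⟩
      refine ⟨hin, ?_⟩
      apply huniq (q i) (hqC i hi) c hc c1 hc1C hadj
      rw [hin]; exact hc1q.symm
  · rintro (⟨rfl, rfl⟩ | ⟨rfl, rfl⟩)
    · exact hc0q.symm
    · exact hc1q.symm

theorem dia_struct [Fintype V] (h2 : TwoConn G) (hno : ¬ IsITM diamond G) :
    P4Free G univ ∨ ∀ x, (univ.filter (fun y => G.Adj x y)).card ≤ 2 := by
  by_cases hcl : ∀ x a b, G.Adj x a → G.Adj x b → a ≠ b → G.Adj a b
  · left
    intro a _ b _ c _ d _ hac _ _ hab hbc _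
    exact Or.inl (hcl b a c hab.symm hbc hac)
  · right
    push Not at hcl
    obtain ⟨x, a, b, hxa, hxb, hab, hnab⟩ := hcl
    obtain ⟨n, q, hqD, hq, hA, hB⟩ := exists_path (h2.del x) (fun z => z = a)
      (fun z => G.Adj x z ∧ z ≠ a ∧ ¬ G.Adj a z) (a := a) (b := b)
      (mem_erase.2 ⟨hxa.ne', mem_univ _⟩) rfl (mem_erase.2 ⟨hxb.ne', mem_univ _⟩)
      ⟨hxb, hab.symm, hnab⟩
    have hq0 : q 0 = a := (hA 0 (Nat.zero_le _)).2 rfl
    obtain ⟨hn1, hn2, hn3⟩ := (hB n le_rfl).2 rfl
    have hqx : ∀ i ≤ n, q i ≠ x := fun i hi => (mem_erase.1 (hqD i hi)).1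
    have hn0 : n ≠ 0 := by
      intro h; rw [h, hq0] at hn2; exact hn2 rfl
    have hn1' : n ≠ 1 := by
      intro h
      apply hn3
      rw [← hq0]
      exact (hq.adj 0 (Nat.zero_le _) n le_rfl).2 (Or.inl (by omega))
    have hx1 : ¬ G.Adj x (q 1) := by
      intro hx1
      apply hno
      apply theta_three hq hqx
      have hsub : ({0, 1, n} : Finset ℕ) ⊆ (range (n + 1)).filter (fun i => G.Adj x (q i)) := by
        intro i hi
        rw [mem_insert, mem_insert, mem_singleton] at hi
        rw [mem_filter, mem_range]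
        rcases hi with rfl | rfl | rfl
        · exact ⟨by omega, by rw [hq0]; exact hxa⟩
        · exact ⟨by omega, hx1⟩
        · exact ⟨by omega, hn1⟩
      have h01 : (0 : ℕ) ∉ ({1, n} : Finset ℕ) := by
        rw [mem_insert, mem_singleton]; omega
      have h1n : (1 : ℕ) ∉ ({n} : Finset ℕ) := by
        rw [mem_singleton]; omega
      have := card_le_card hsub
      rw [card_insert_of_notMem h01, card_insert_of_notMem h1n, card_singleton] at this
      exact this
    have hxq : ∀ i ≤ n, G.Adj x (q i) ↔ i = 0 ∨ i = n := by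
      intro i hi
      constructor
      · intro hadj
        by_contra hcon
        push Not at hcon
        have hnB := fun h => hcon.2 ((hB i hi).1 h)
        have hia : q i ≠ a := fun h => hcon.1 ((hA i hi).1 h)
        have hai : G.Adj a (q i) := by
          by_contra h
          exact hnB ⟨hadj, hia, h⟩
        rw [← hq0, hq.adj 0 (Nat.zero_le _) i hi] at hai
        have : i = 1 := by omega
        rw [this] at hadj
        exact hx1 hadj
      · rintro (rfl | rfl)
        · rw [hq0]; exact hxa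
        · exact hn1
    have hC := closeCyc hq (by omega) hqx hxq
    have hxs : x ∉ seg q 0 n := by
      rw [mem_seg]; rintro ⟨i, _, h2, h3⟩; exact hqx i h2 h3
    have hcu := dia_cyc h2 hno hC (by
      rw [card_insert_of_notMem hxs, card_seg hq]; omega)
    intro y
    have := hC.deg y (by rw [hcu]; exact mem_univ _)
    rw [hcu] at this
    exact le_of_eq this

/-! ### the paw -/

lemma cyc3 {a b c : V} (hab : G.Adj a b) (hbc : G.Adj b c) (hac : G.Adj a c) :
    IsCyc G {c, a, b} := by
  have hq : IP G (fun i => if i = 0 then a else b) 1 := by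
    refine ⟨fun i hi j hj => ?_, fun i hi j hj he => ?_⟩
    · interval_cases i <;> interval_cases j <;> simp [hab, hab.symm]
    · interval_cases i <;> interval_cases j
      · rfl
      · simp at he; exact absurd he hab.ne
      · simp at he; exact absurd he hab.ne'
      · rfl
  have := closeCyc hq le_rfl (v := c) (by
    intro i hi
    interval_cases i
    · simpa using hac.ne
    · simpa using hbc.ne) (by
    intro i hi
    interval_cases i
    · simp [hac.symm]
    · simp [hbc.symm])
  have e : seg (fun i => if i = 0 then a else b) 0 1 = {a, b} := by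
    ext z
    rw [mem_seg, mem_insert, mem_singleton]
    constructor
    · rintro ⟨i, _, hi, rfl⟩
      interval_cases i <;> simp
    · rintro (rfl | rfl)
      · exact ⟨0, by simp⟩
      · exact ⟨1, by simp⟩
  rwa [e] at this

lemma cyc4 {a b c d : V} (hab : G.Adj a b) (hbc : G.Adj b c) (hcd : G.Adj c d) (hda : G.Adj d a)
    (hac : ¬ G.Adj a c) (hac' : a ≠ c) (hbd : ¬ G.Adj b d) (hbd' : b ≠ d) :
    IsCyc G {d, a, b, c} := by
  have hca : ¬ G.Adj c a := fun h => hac h.symm
  have hq : IP G (fun i => if i = 0 then a else if i = 1 then b else c) 2 := by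
    refine ⟨fun i hi j hj => ?_, fun i hi j hj he => ?_⟩
    · interval_cases i <;> interval_cases j <;> simp [hab, hab.symm, hbc, hbc.symm, hac, hca]
    · interval_cases i <;> interval_cases j <;> simp at he <;> first
        | rfl
        | exact absurd he hab.ne
        | exact absurd he hab.ne'
        | exact absurd he hbc.ne
        | exact absurd he hbc.ne'
        | exact absurd he hac'
        | exact absurd he.symm hac'
  have := closeCyc hq (by omega) (v := d) (by
    intro i hi
    interval_cases i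
    · simpa using hda.ne'
    · simpa using hbd'
    · simpa using hcd.ne) (by
    intro i hi
    have hdb : ¬ G.Adj d b := fun h => hbd h.symm
    interval_cases i
    · simp [hda]
    · simp [hdb]
    · simp [hcd.symm])
  have e : seg (fun i => if i = 0 then a else if i = 1 then b else c) 0 2 = {a, b, c} := by
    ext z
    rw [mem_seg, mem_insert, mem_insert, mem_singleton]
    constructor
    · rintro ⟨i, _, hi, rfl⟩
      interval_cases i <;> simp
    · rintro (rfl | rfl | rfl)
      · exact ⟨0, by simp⟩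
      · exact ⟨1, by simp⟩
      · exact ⟨2, by simp⟩
  rwa [e] at this

lemma paw_tri {a b c v : V} (hab : G.Adj a b) (hbc : G.Adj b c) (hac : G.Adj a c)
    (hva : G.Adj v a) (hvb : ¬ G.Adj v b) (hvc : ¬ G.Adj v c) : IsITM paw G := by
  refine paw_cyc (cyc3 hab hbc hac) (v := v) (c := a) ?_ (by simp) ?_
  · rw [mem_insert, mem_insert, mem_singleton]
    rintro (rfl | rfl | rfl)
    · exact hvb hbc.symm
    · exact hva.ne rfl
    · exact hvc hbc
  · intro z hz
    rw [mem_insert, mem_insert, mem_singleton] at hz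
    rcases hz with rfl | rfl | rfl
    · exact iff_of_false hvc hac.ne'
    · exact iff_of_true hva rfl
    · exact iff_of_false hvb hab.ne'

lemma paw_c4 {a b c d v : V} (hab : G.Adj a b) (hbc : G.Adj b c) (hcd : G.Adj c d)
    (hda : G.Adj d a) (hac : ¬ G.Adj a c) (hac' : a ≠ c) (hbd : ¬ G.Adj b d) (hbd' : b ≠ d)
    (hva : G.Adj v a) (hvb : ¬ G.Adj v b) (hvc : ¬ G.Adj v c) (hvd : ¬ G.Adj v d) :
    IsITM paw G := by
  refine paw_cyc (cyc4 hab hbc hcd hda hac hac' hbd hbd') (v := v) (c := a) ?_ (by simp) ?_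
  · rw [mem_insert, mem_insert, mem_insert, mem_singleton]
    rintro (rfl | rfl | rfl | rfl)
    · exact hvc hcd.symm
    · exact hva.ne rfl
    · exact hvc hbc
    · exact hvb hbc.symm
  · intro z hz
    rw [mem_insert, mem_insert, mem_insert, mem_singleton] at hz
    rcases hz with rfl | rfl | rfl | rfl
    · exact iff_of_false hvd hda.ne
    · exact iff_of_true hva rfl
    · exact iff_of_false hvb hab.ne'
    · exact iff_of_false hvc hac'.symm

/-- complete multipartite: no edge with a vertex adjacent to neither end -/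
def CM (G : SimpleGraph V) (M : Finset V) : Prop :=
  ∀ a ∈ M, ∀ b ∈ M, ∀ c ∈ M, G.Adj a b → G.Adj c a ∨ G.Adj c b

lemma CM.p4free {M : Finset V} (h : CM G M) : P4Free G M := by
  intro a ha b hb c hc d hd _ _ _ hab _ _
  rcases h a ha b hb d hd hab with h | h
  · exact Or.inr (Or.inl h.symm)
  · exact Or.inr (Or.inr h.symm)

/-- extension of complete multipartite sets: it suffices to extend by one vertex -/
lemma cm_extend [Fintype V] (hc : Cn G univ) {S : Finset V} (hS : S.Nonempty) (hcm : CM G S)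
    (hext : ∀ M, S ⊆ M → CM G M → ∀ v ∉ M, (∃ u ∈ M, G.Adj v u) → CM G (insert v M)) :
    CM G univ := by
  obtain ⟨M, hM⟩ := ((univ : Finset V).powerset.filter (fun M => S ⊆ M ∧ CM G M)).exists_maximal
    ⟨S, by simp [hcm]⟩
  have hM1 := hM.prop
  simp only [mem_filter, mem_powerset] at hM1
  obtain ⟨_, hSM, hMc⟩ := hM1
  by_cases hu : M = univ
  · rw [← hu]; exact hMc
  · exfalso
    have hn : (univ \ M).Nonempty := by
      rw [sdiff_nonempty]
      intro h
      exact hu (subset_antisymm (subset_univ _) h)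
    obtain ⟨x, hx, v, hv, hxv⟩ := hc.2 M (subset_univ _) (hS.mono hSM) hn
    have hvM := (mem_sdiff.1 hv).2
    have := hM.le_of_ge (y := insert v M) (by
      simp only [mem_filter, mem_powerset]
      exact ⟨subset_univ _, hSM.trans (subset_insert _ _), hext M hSM hMc v hvM ⟨x, hx, hxv.symm⟩⟩)
      (subset_insert _ _)
    exact hvM (this (mem_insert_self _ _))

lemma cm_insert {M : Finset V} (hM : CM G M) {v : V}
    (h1 : ∀ a ∈ M, ∀ b ∈ M, G.Adj a b → G.Adj v a ∨ G.Adj v b)
    (h2 : ∀ a ∈ M, ∀ c ∈ M, G.Adj v a → G.Adj c v ∨ G.Adj c a) : CM G (insert v M) := by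
  intro a ha b hb c hc hab
  rcases mem_insert.1 ha with ha' | ha'
  · rcases mem_insert.1 hb with hb' | hb'
    · rw [ha', hb'] at hab; exact absurd rfl hab.ne
    · rcases mem_insert.1 hc with hc' | hc'
      · rw [ha'] at hab; rw [hc']; exact Or.inr hab
      · rw [ha'] at hab ⊢; exact h2 b hb' c hc' hab
  · rcases mem_insert.1 hb with hb' | hb'
    · rcases mem_insert.1 hc with hc' | hc'
      · rw [hb'] at hab; rw [hc']; exact Or.inl hab.symm
      · rw [hb'] at hab ⊢; exact (h2 a ha' c hc' hab.symm).symm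
    · rcases mem_insert.1 hc with hc' | hc'
      · rw [hc']; exact h1 a ha' b hb' hab
      · exact hM a ha' b hb' c hc' hab

lemma paw_triangle [Fintype V] (hc : Cn G univ) (hno : ¬ IsITM paw G) {t1 t2 t3 : V}
    (h12 : G.Adj t1 t2) (h23 : G.Adj t2 t3) (h13 : G.Adj t1 t3) : CM G univ := by
  apply cm_extend hc (S := {t1, t2, t3}) ⟨t1, by simp⟩
  · intro a ha b hb c hc hab
    simp only [mem_insert, mem_singleton] at ha hb hc
    have h21 := h12.symm
    have h32 := h23.symm
    have h31 := h13.symm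
    rcases hc with rfl | rfl | rfl <;> rcases ha with rfl | rfl | rfl <;>
      rcases hb with rfl | rfl | rfl <;> first
        | (exfalso; exact hab.ne rfl)
        | (left; assumption)
        | (right; assumption)
  · intro M hSM hM v hv hu
    obtain ⟨u, hu, hvu⟩ := hu
    have m1 : t1 ∈ M := hSM (by simp)
    have m2 : t2 ∈ M := hSM (by simp)
    have m3 : t3 ∈ M := hSM (by simp)
    have one : ∀ a b c : V, G.Adj a b → G.Adj b c → G.Adj a c → G.Adj v a →
        G.Adj v b ∨ G.Adj v c := by
      intro a b c hab hbc hac hva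
      by_contra hcon
      push Not at hcon
      exact hno (paw_tri hab hbc hac hva hcon.1 hcon.2)
    have some' : ∀ a ∈ M, ∀ b ∈ M, ∀ c ∈ M, G.Adj a b → G.Adj b c → G.Adj a c →
        G.Adj v a ∨ G.Adj v b ∨ G.Adj v c := by
      intro a ha b hb c hc hab hbc hac
      by_contra hcon
      push Not at hcon
      obtain ⟨na, nb, nc⟩ := hcon
      have k1 := hM a ha b hb u hu hab
      have k2 := hM b hb c hc u hu hbc
      have k3 := hM a ha c hc u hu hac
      have key : ∀ x y : V, G.Adj u x → G.Adj u y → G.Adj x y → ¬ G.Adj v x → ¬ G.Adj v y →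
          False := fun x y h1 h2 h3 h4 h5 => hno (paw_tri h1 h3 h2 hvu h4 h5)
      rcases k1 with k1 | k1
      · rcases k2 with k2 | k2
        · exact key a b k1 k2 hab na nb
        · exact key a c k1 k2 hac na nc
      · rcases k3 with k3 | k3
        · exact key a b k3 k1 hab na nb
        · exact key b c k1 k3 hbc nb nc
    have two : ∀ a ∈ M, ∀ b ∈ M, ∀ c ∈ M, G.Adj a b → G.Adj b c → G.Adj a c →
        ¬ G.Adj v a → G.Adj v b ∧ G.Adj v c := by
      intro a ha b hb c hc hab hbc hac na
      have k0 := some' a ha b hb c hc hab hbc hac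
      have k1 := one b c a hbc hac.symm hab.symm
      have k2 := one c b a hbc.symm hab.symm hac.symm
      tauto
    have nonadj : ∀ a ∈ M, (G.Adj a t1 ∧ G.Adj a t2) ∨ (G.Adj a t1 ∧ G.Adj a t3) ∨
        (G.Adj a t2 ∧ G.Adj a t3) := by
      intro a ha
      have k1 := hM t1 m1 t2 m2 a ha h12
      have k2 := hM t2 m2 t3 m3 a ha h23
      have k3 := hM t1 m1 t3 m3 a ha h13
      tauto
    apply cm_insert hM
    · intro a ha b hb hab
      by_contra hcon
      push Not at hcon
      obtain ⟨na, nb⟩ := hcon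
      have key : ∀ t ∈ M, G.Adj a t → G.Adj b t → False := fun t ht h1 h2 =>
        nb (two a ha b hb t ht hab h2 h1 na).1
      have ka := nonadj a ha
      have kb := nonadj b hb
      have e1 := key t1 m1
      have e2 := key t2 m2
      have e3 := key t3 m3
      tauto
    · intro a ha c hc hva
      by_contra hcon
      push Not at hcon
      obtain ⟨nv, na⟩ := hcon
      have nv' : ¬ G.Adj v c := fun h => nv h.symm
      have same : ∀ t ∈ M, G.Adj a t → G.Adj c t := by
        intro t ht hat
        rcases hM a ha t ht c hc hat with h | h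
        · exact absurd h na
        · exact h
      have key : ∀ s ∈ M, ∀ t ∈ M, G.Adj s t → G.Adj a s → G.Adj a t → False := by
        intro s hs t ht hst has hat
        have hcs := same s hs has
        have hct := same t ht hat
        have k := two c hc s hs t ht hcs hst hct nv'
        -- triangle s, v, a and the vertex c
        exact hno (paw_tri (a := s) (b := v) (c := a) (v := c) k.1.symm hva has.symm hcs nv na)
      have ka := nonadj a ha
      have e1 := key t1 m1 t2 m2 h12
      have e2 := key t1 m1 t3 m3 h13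
      have e3 := key t2 m2 t3 m3 h23
      tauto

lemma paw_square [Fintype V] (hc : Cn G univ) (hno : ¬ IsITM paw G)
    (htf : ∀ a b c, G.Adj a b → G.Adj b c → ¬ G.Adj a c) {s1 s2 s3 s4 : V}
    (h12 : G.Adj s1 s2) (h23 : G.Adj s2 s3) (h34 : G.Adj s3 s4) (h41 : G.Adj s4 s1)
    (n13 : s1 ≠ s3) (n24 : s2 ≠ s4) : CM G univ := by
  apply cm_extend hc (S := {s1, s2, s3, s4}) ⟨s1, by simp⟩
  · intro a ha b hb c hc hab
    simp only [mem_insert, mem_singleton] at ha hb hc
    have h21 := h12.symm
    have h32 := h23.symm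
    have h43 := h34.symm
    have h14 := h41.symm
    have e13 := htf s1 s2 s3 h12 h23
    have e31 : ¬ G.Adj s3 s1 := fun h => e13 h.symm
    have e24 := htf s2 s3 s4 h23 h34
    have e42 : ¬ G.Adj s4 s2 := fun h => e24 h.symm
    rcases hc with rfl | rfl | rfl | rfl <;> rcases ha with rfl | rfl | rfl | rfl <;>
      rcases hb with rfl | rfl | rfl | rfl <;> first
        | (exfalso; exact hab.ne rfl)
        | (left; assumption)
        | (right; assumption)
        | (exfalso; contradiction)
  · intro M hSM hM v hv hu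
    obtain ⟨u, hu, hvu⟩ := hu
    have m1 : s1 ∈ M := hSM (by simp)
    have m2 : s2 ∈ M := hSM (by simp)
    have m3 : s3 ∈ M := hSM (by simp)
    have m4 : s4 ∈ M := hSM (by simp)
    have opp : ∃ y ∈ M, ∃ y' ∈ M, y ≠ y' ∧ ¬ G.Adj y y' ∧ G.Adj u y ∧ G.Adj u y' := by
      rcases hM s1 m1 s2 m2 u hu h12 with h | h
      · refine ⟨s1, m1, s3, m3, n13, htf s1 s2 s3 h12 h23, h, ?_⟩
        rcases hM s2 m2 s3 m3 u hu h23 with h' | h'
        · exact absurd h' (htf u s1 s2 h h12)
        · exact h'
      · refine ⟨s2, m2, s4, m4, n24, htf s2 s3 s4 h23 h34, h, ?_⟩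
        rcases hM s3 m3 s4 m4 u hu h34 with h' | h'
        · exact absurd h' (htf u s2 s3 h h23)
        · exact h'
    obtain ⟨y, hy, y', hy', hyy, nyy, huy, huy'⟩ := opp
    have nvy : ¬ G.Adj v y := htf v u y hvu huy
    have nvy' : ¬ G.Adj v y' := htf v u y' hvu huy'
    have two : ∀ z ∈ M, ¬ G.Adj z u → G.Adj v z := by
      intro z hz hzu
      by_cases he : z = u
      · rw [he]; exact hvu
      · by_contra hvz
        have hzy : G.Adj z y := (hM u hu y hy z hz huy).resolve_left hzu
        have hzy' : G.Adj z y' := (hM u hu y' hy' z hz huy').resolve_left hzu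
        exact hno (paw_c4 (a := u) (b := y) (c := z) (d := y') (v := v) huy hzy.symm hzy' huy'.symm
          (fun h => hzu h.symm) (Ne.symm he) nyy hyy hvu nvy hvz nvy')
    apply cm_insert hM
    · intro a ha b hb hab
      rcases hM a ha b hb u hu hab with h | h
      · exact Or.inr (two b hb (fun h' => htf u a b h hab h'.symm))
      · exact Or.inl (two a ha (fun h' => htf a u b h' h hab))
    · intro a ha c hc hva
      by_contra hcon
      push Not at hcon
      obtain ⟨nv, na⟩ := hcon
      have nau : ¬ G.Adj a u := fun h => htf v a u hva h hvu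
      apply nv
      refine (two c hc (fun hcu => ?_)).symm
      rcases hM c hc u hu a ha hcu with h | h
      · exact na h.symm
      · exact nau h

/-- no triangle, no square: maximum degree two -/
lemma paw_deg [Fintype V] (h2 : TwoConn G) (hno : ¬ IsITM paw G)
    (htf : ∀ a b c, G.Adj a b → G.Adj b c → ¬ G.Adj a c)
    (hsq : ∀ a b c d, G.Adj a b → G.Adj b c → G.Adj c d → G.Adj d a → a ≠ c → b = d) (x : V) :
    (univ.filter (fun y => G.Adj x y)).card ≤ 2 := by
  by_contra h3
  push Not at h3
  set N := univ.filter (fun y => G.Adj x y) with hN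
  have hmN : ∀ z, z ∈ N ↔ G.Adj x z := by intro z; rw [hN]; simp
  obtain ⟨a, ha⟩ : N.Nonempty := card_pos.1 (by omega)
  obtain ⟨b0, hb0⟩ : (N.erase a).Nonempty := card_pos.1 (by rw [card_erase_of_mem ha]; omega)
  have hxa := (hmN a).1 ha
  obtain ⟨hb0a, hb0N⟩ := mem_erase.1 hb0
  have hxb0 := (hmN b0).1 hb0N
  obtain ⟨n, q, hqD, hq, hA, hB⟩ := exists_path (h2.del x) (fun z => z = a)
    (fun z => G.Adj x z ∧ z ≠ a) (a := a) (b := b0)
    (mem_erase.2 ⟨hxa.ne', mem_univ _⟩) rfl (mem_erase.2 ⟨hxb0.ne', mem_univ _⟩)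
    ⟨hxb0, hb0a⟩
  have hq0 : q 0 = a := (hA 0 (Nat.zero_le _)).2 rfl
  obtain ⟨hn1, hn2⟩ := (hB n le_rfl).2 rfl
  have hqx : ∀ i ≤ n, q i ≠ x := fun i hi => (mem_erase.1 (hqD i hi)).1
  have hn0 : n ≠ 0 := by
    intro h; rw [h, hq0] at hn2; exact hn2 rfl
  have hxq : ∀ i ≤ n, G.Adj x (q i) ↔ i = 0 ∨ i = n := by
    intro i hi
    constructor
    · intro hadj
      by_cases hia : q i = a
      · exact Or.inl ((hA i hi).1 hia)
      · exact Or.inr ((hB i hi).1 ⟨hadj, hia⟩)
    · rintro (rfl | rfl)
      · rw [hq0]; exact hxa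
      · exact hn1
  have hC := closeCyc hq (by omega) hqx hxq
  have hqnN : q n ∈ N.erase a := mem_erase.2 ⟨hn2, (hmN _).2 hn1⟩
  obtain ⟨c, hc⟩ : ((N.erase a).erase (q n)).Nonempty :=
    card_pos.1 (by rw [card_erase_of_mem hqnN, card_erase_of_mem ha]; omega)
  obtain ⟨hcb, hc'⟩ := mem_erase.1 hc
  obtain ⟨hca, hc''⟩ := mem_erase.1 hc'
  have hxc := (hmN c).1 hc''
  have hcq : ∀ i ≤ n, q i ≠ c := by
    intro i hi he
    have := (hxq i hi).1 (by rw [he]; exact hxc)
    rcases this with rfl | rfl
    · exact hca (he.symm.trans hq0)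
    · exact hcb he.symm
  have hcC : c ∉ insert x (seg q 0 n) := by
    rw [mem_insert, mem_seg]
    rintro (h | ⟨i, _, hi, h⟩)
    · exact hxc.ne' h
    · exact hcq i hi h
  have hex : ∃ i, i ≤ n ∧ G.Adj c (q i) := by
    by_contra hcon
    push Not at hcon
    refine hno (paw_cyc hC hcC (mem_insert_self _ _) ?_)
    intro z hz
    rcases mem_insert.1 hz with rfl | hz
    · exact iff_of_true hxc.symm rfl
    · obtain ⟨i, _, hi, rfl⟩ := mem_seg.1 hz
      exact iff_of_false (hcon i hi) (hqx i hi)
  obtain ⟨hi1, hi2⟩ := Nat.find_spec hex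
  have himin : ∀ j, j < Nat.find hex → ¬ (j ≤ n ∧ G.Adj c (q j)) := fun j hj => Nat.find_min hex hj
  generalize Nat.find hex = i at *
  have hi0 : i ≠ 0 := by
    rintro rfl
    rw [hq0] at hi2
    exact htf c a x hi2 hxa.symm hxc.symm
  have hin : i ≠ n := by
    rintro rfl
    exact htf c (q i) x hi2 hn1.symm hxc.symm
  have hq' := (hq.mono (m := i) (by omega)).cons (x := x) (fun j hj => hqx j (by omega))
    (fun j hj => by rw [hxq j (by omega)]; omega)
  have hC' := closeCyc hq' (by omega) (v := c) (by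
    intro j hj
    by_cases hj0 : j = 0
    · simp only [hj0, if_true]; exact hxc.ne
    · simp only [hj0, if_false]; exact hcq _ (by omega)) (by
    intro j hj
    by_cases hj0 : j = 0
    · simp only [hj0, if_true, true_or, iff_true]; exact hxc.symm
    · simp only [hj0, if_false]
      constructor
      · intro hadj
        right
        by_contra hne
        exact himin (j - 1) (by omega) ⟨by omega, hadj⟩
      · rintro (h | h)
        · exact absurd h (by simp)
        · have : j - 1 = i := by omega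
          rw [this]; exact hi2)
  have hbC : q n ∉ insert c (seg (fun j => if j = 0 then x else q (j - 1)) 0 (i + 1)) := by
    rw [mem_insert, mem_seg]
    rintro (h | ⟨j, _, hj, h⟩)
    · exact hcb h.symm
    · by_cases hj0 : j = 0
      · simp only [hj0, if_true] at h
        exact hqx n le_rfl h.symm
      · simp only [hj0, if_false] at h
        have := hq.inj _ (by omega) _ le_rfl h
        omega
  have hxC' : x ∈ insert c (seg (fun j => if j = 0 then x else q (j - 1)) 0 (i + 1)) :=
    mem_insert_of_mem (mem_seg.2 ⟨0, le_rfl, by omega, by simp⟩)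
  have hcb' : ¬ G.Adj (q n) c := fun h => htf (q n) c x h hxc.symm hn1.symm
  have hlast : i = n - 1 := by
    by_contra hne
    refine hno (paw_cyc hC' hbC hxC' ?_)
    intro z hz
    rcases mem_insert.1 hz with rfl | hz
    · exact iff_of_false hcb' hxc.ne'
    · obtain ⟨j, _, hj, rfl⟩ := mem_seg.1 hz
      by_cases hj0 : j = 0
      · simp only [hj0, if_true, iff_true]; exact hn1.symm
      · simp only [hj0, if_false]
        refine iff_of_false (fun h => ?_) (hqx _ (by omega))
        have := (hq.adj n le_rfl (j - 1) (by omega)).1 h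
        omega
  rw [hlast] at hi2
  have hbq : G.Adj (q (n - 1)) (q n) := (hq.adj _ (by omega) _ le_rfl).2 (by omega)
  have := hsq x c (q (n - 1)) (q n) hxc hi2 hbq hn1.symm (hqx _ (by omega)).symm
  exact hcb this

theorem paw_struct [Fintype V] (h2 : TwoConn G) (hno : ¬ IsITM paw G) :
    P4Free G univ ∨ ∀ x, (univ.filter (fun y => G.Adj x y)).card ≤ 2 := by
  by_cases htf : ∀ a b c, G.Adj a b → G.Adj b c → ¬ G.Adj a c
  · by_cases hsq : ∀ a b c d, G.Adj a b → G.Adj b c → G.Adj c d → G.Adj d a → a ≠ c → b = d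
    · exact Or.inr (paw_deg h2 hno htf hsq)
    · push Not at hsq
      obtain ⟨a, b, c, d, hab, hbc, hcd, hda, hac, hbd⟩ := hsq
      exact Or.inl (paw_square h2.conn hno htf hab hbc hcd hda hac hbd).p4free
  · push Not at htf
    obtain ⟨a, b, c, hab, hbc, hac⟩ := htf
    exact Or.inl (paw_triangle h2.conn hno hab hbc hac).p4free

end Pool.Agent.H690R3.Itm
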