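import Pool.Agent.H690R3.Itm.Inv
import Pool.Agent.H175R2.Cut

/-! A subcubic family of unbounded clique-width (truncated grids) without induced subdivisions of `K₄`. -/

namespace Pool.Agent.H690R3.Itm

open Pool.Agent.H175R2 Pool.Agent.H175R2.CutAux

/-- vertices: cell, side, slot -/
abbrev WV (n : ℕ) : Type := (Fin n × Fin n) × Bool × Fin 3

def wallRel (n : ℕ) (x y : WV n) : Prop :=
  (x.1 = y.1 ∧ x.2.1 = y.2.1) ∨ (x.1 = y.1 ∧ x.2.2 = 2 ∧ y.2.2 = 2) ∨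
  (x.1.1 = y.1.1 ∧ x.1.2.val + 1 = y.1.2.val ∧ x.2 = (true, 0) ∧ y.2 = (false, 0)) ∨
  (x.1.2 = y.1.2 ∧ x.1.1.val + 1 = y.1.1.val ∧ x.2 = (true, 1) ∧ y.2 = (false, 1))

/-- the truncated grid -/
def wall (n : ℕ) : SimpleGraph (WV n) := SimpleGraph.fromRel (wallRel n)

lemma wall_adj {n : ℕ} {x y : WV n} : (wall n).Adj x y ↔ x ≠ y ∧ (wallRel n x y ∨ wallRel n y x) := by
  simp [wall, SimpleGraph.fromRel_adj]

/-- neighbours outside the triangle are unique -/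
lemma outside_unique {n : ℕ} {x y z : WV n} (hxy : (wall n).Adj x y) (hxz : (wall n).Adj x z)
    (hy : ¬ (x.1 = y.1 ∧ x.2.1 = y.2.1)) (hz : ¬ (x.1 = z.1 ∧ x.2.1 = z.2.1)) : y = z := by
  rw [wall_adj] at hxy hxz
  obtain ⟨⟨x1, x2⟩, xs, xt⟩ := x
  obtain ⟨⟨y1, y2⟩, ys, yt⟩ := y
  obtain ⟨⟨z1, z2⟩, zs, zt⟩ := z
  have hy' : ¬ (ys = xs ∧ (y1, y2) = (x1, x2)) := fun h => hy ⟨h.2.symm, h.1.symm⟩
  have hz' : ¬ (zs = xs ∧ (z1, z2) = (x1, x2)) := fun h => hz ⟨h.2.symm, h.1.symm⟩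
  simp only [wallRel, Prod.mk.injEq, ne_eq] at *
  have h2 := hxy.2
  have h3 := hxz.2
  clear hxy hxz
  have e01 : (0 : Fin 3) ≠ 1 := by decide
  have e02 : (0 : Fin 3) ≠ 2 := by decide
  have e12 : (1 : Fin 3) ≠ 2 := by decide
  have fe : ∀ {a b : Fin n}, a.val = b.val → a = b := fun h => Fin.ext h
  rcases h2 with (h | ⟨⟨ha, ha'⟩, hb, hc⟩ | ⟨ha, hb, ⟨hc, hd⟩, he, hf⟩ | ⟨ha, hb, ⟨hc, hd⟩, he, hf⟩) |
    (h | ⟨⟨ha, ha'⟩, hb, hc⟩ | ⟨ha, hb, ⟨hc, hd⟩, he, hf⟩ | ⟨ha, hb, ⟨hc, hd⟩, he, hf⟩)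
  all_goals
    rcases h3 with (k | ⟨⟨ka, ka'⟩, kb, kc⟩ | ⟨ka, kb, ⟨kc, kd⟩, ke, kf⟩ | ⟨ka, kb, ⟨kc, kd⟩, ke, kf⟩) |
      (k | ⟨⟨ka, ka'⟩, kb, kc⟩ | ⟨ka, kb, ⟨kc, kd⟩, ke, kf⟩ | ⟨ka, kb, ⟨kc, kd⟩, ke, kf⟩)
  all_goals first
    | (exfalso; tauto)
    | (exfalso; subst_vars; simp_all; done)
    | (subst_vars; refine ⟨⟨?_, ?_⟩, ?_, ?_⟩ <;> first | rfl | (apply fe; omega) | (cases xs <;> cases ys <;> cases zs <;> simp_all) | simp_all)

/-- code of a neighbour -/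
def nbCode {n : ℕ} (x y : WV n) : Fin 3 :=
  if x.1 = y.1 ∧ x.2.1 = y.2.1 then y.2.2 else x.2.2

lemma nbCode_inj {n : ℕ} {x y z : WV n} (hxy : (wall n).Adj x y) (hxz : (wall n).Adj x z)
    (h : nbCode x y = nbCode x z) : y = z := by
  unfold nbCode at h
  by_cases hy : x.1 = y.1 ∧ x.2.1 = y.2.1 <;> by_cases hz : x.1 = z.1 ∧ x.2.1 = z.2.1
  · rw [if_pos hy, if_pos hz] at h
    refine Prod.ext (hy.1.symm.trans hz.1) (Prod.ext (hy.2.symm.trans hz.2) h)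
  · rw [if_pos hy, if_neg hz] at h
    exact absurd (Prod.ext hy.1 (Prod.ext hy.2 h.symm)) hxy.ne
  · rw [if_neg hy, if_pos hz] at h
    exact absurd (Prod.ext hz.1 (Prod.ext hz.2 h)) hxz.ne
  · exact outside_unique hxy hxz hy hz

lemma wall_not_deg4 {n : ℕ} (x : WV n) : ¬ HasDeg (wall n) x 4 := by
  rintro ⟨f, h1, h2⟩
  have : Function.Injective (fun i : Fin 4 => nbCode x (f i)) := by
    intro i j hij
    exact h1 (nbCode_inj (h2 i) (h2 j) hij)
  have := Fintype.card_le_of_injective _ this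
  simp at this

theorem wall_no_deg4 {n : ℕ} {W : Type} {H : SimpleGraph W} (hH : Deg4 H) : ¬ IsITM H (wall n) := by
  rintro ⟨S, hS⟩
  obtain ⟨x, hx⟩ := hH.sub hS
  exact wall_not_deg4 _ (hx.map (SimpleGraph.Embedding.induce S))

theorem wall_no_k4like {n : ℕ} {W : Type} {H : SimpleGraph W} (hH : K4Like H) :
    ¬ IsITM H (wall n) := by
  rintro ⟨S, hS⟩
  obtain ⟨b, h1, h2, h3⟩ := hH.sub hS
  -- the whole triangle of a branch vertex is in the range
  have hmate : ∀ i : Fin 4, ∀ t : Fin 3, ∃ j, (b j).1 = ((b i).1.1, (b i).1.2.1, t) := by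
    intro i
    obtain ⟨f, hf1, hf2⟩ := h2 i
    have hadj : ∀ j, (wall n).Adj (b i).1 (f j).1 := fun j => hf2 j
    have hinj : Function.Injective (fun j : Fin 3 => nbCode (b i).1 (f j).1) := by
      intro j k hjk
      exact hf1 (Subtype.ext (nbCode_inj (hadj j) (hadj k) hjk))
    have hsurj := Finite.surjective_of_injective hinj
    -- mates are in `S`
    have hm : ∀ t, t ≠ (b i).1.2.2 → ∃ y : S, y.1 = ((b i).1.1, (b i).1.2.1, t) := by
      intro t ht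
      obtain ⟨j, hj⟩ := hsurj t
      refine ⟨f j, ?_⟩
      simp only [nbCode] at hj
      split_ifs at hj with hc
      · exact Prod.ext hc.1.symm (Prod.ext hc.2.symm hj)
      · exact absurd hj.symm ht
    have tri : ∀ y z : S, (wall n).Adj y.1 z.1 ↔ (wall n).Adj y.1 z.1 := fun _ _ => Iff.rfl
    intro t
    by_cases ht : t = (b i).1.2.2
    · exact ⟨i, by rw [ht]⟩
    · obtain ⟨t', ht', htt'⟩ : ∃ t' : Fin 3, t' ≠ (b i).1.2.2 ∧ t' ≠ t := by
        generalize (b i).1.2.2 = s at ht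
        revert s t
        decide
      obtain ⟨y, hy⟩ := hm t ht
      obtain ⟨z, hz⟩ := hm t' ht'
      have a1 : (wall n).Adj y.1 (b i).1 := by
        rw [wall_adj, hy]
        exact ⟨fun h => ht (congrArg (fun q => q.2.2) h), Or.inl (Or.inl ⟨rfl, rfl⟩)⟩
      have a2 : (wall n).Adj (b i).1 z.1 := by
        rw [wall_adj, hz]
        exact ⟨fun h => ht' (congrArg (fun q => q.2.2) h).symm, Or.inl (Or.inl ⟨rfl, rfl⟩)⟩
      have a3 : (wall n).Adj y.1 z.1 := by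
        rw [wall_adj, hy, hz]
        exact ⟨fun h => htt' (congrArg (fun q => q.2.2) h).symm, Or.inl (Or.inl ⟨rfl, rfl⟩)⟩
      obtain ⟨j, hj⟩ := h3 y (b i) z a1 a2 a3
      exact ⟨j, by rw [hj, hy]⟩
  obtain ⟨i1, hi1⟩ : ∃ i, ((b i).1.1, (b i).1.2.1) ≠ ((b 0).1.1, (b 0).1.2.1) := by
    by_contra hcon
    push Not at hcon
    have : Function.Injective (fun i : Fin 4 => (b i).1.2.2) := by
      intro i j hij
      apply h1
      apply Subtype.ext
      have hi := hcon i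
      have hj := hcon j
      rw [Prod.mk.injEq] at hi hj
      exact Prod.ext (hi.1.trans hj.1.symm) (Prod.ext (hi.2.trans hj.2.symm) hij)
    have := Fintype.card_le_of_injective _ this
    simp at this
  choose g hg using hmate
  have : Function.Injective (fun p : Bool × Fin 3 => g (if p.1 then i1 else 0) p.2) := by
    rintro ⟨p, s⟩ ⟨q, t⟩ h
    have e := congrArg (fun j => (b j).1) h
    simp only [hg, Prod.mk.injEq] at e
    obtain ⟨e1, e2, e3⟩ := e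
    rw [Prod.mk.injEq]
    refine ⟨?_, e3⟩
    cases p <;> cases q
    · rfl
    · exfalso; apply hi1; simp only [Bool.false_eq_true, if_false, if_true] at e1 e2; rw [e1, e2]
    · exfalso; apply hi1; simp only [Bool.false_eq_true, if_false, if_true] at e1 e2; rw [e1, e2]
    · rfl
  have := Fintype.card_le_of_injective _ this
  simp at this

end Pool.Agent.H690R3.Itm
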