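import Pool.Agent.H690R3.Itm.Wall

/-! The truncated grids have unbounded clique-width. -/

namespace Pool.Agent.H690R3.Itm

open Pool.Agent.H175R2 Pool.Agent.H175R2.CutAux

lemma cross_count {V ι : Type} (G : SimpleGraph V) (A : Set V) (k : ℕ) (hT : Types G A k)
    (hdeg : ∀ z, ¬ HasDeg G z 4) (s : Finset ι) (f g : ι → V)
    (hf : ∀ i ∈ s, ∀ j ∈ s, f i = f j → i = j) (hfa : ∀ i ∈ s, f i ∈ A) (hg : ∀ i ∈ s, g i ∉ A)
    (hadj : ∀ i ∈ s, G.Adj (f i) (g i)) : s.card ≤ 3 * k := by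
  classical
  obtain ⟨l, hl⟩ := hT
  by_contra hcon
  push Not at hcon
  have hcard : (Finset.univ : Finset (Fin k)).card * 3 < s.card := by
    simp; omega
  obtain ⟨t, _, ht⟩ := Finset.exists_lt_card_fiber_of_mul_lt_card_of_maps_to
    (f := fun i => l (f i)) (s := s) (t := Finset.univ) (fun _ _ => Finset.mem_univ _) hcard
  have h4 : 4 ≤ (s.filter (fun i => l (f i) = t)).card := ht
  obtain ⟨u, hu, hu4⟩ := Finset.exists_subset_card_eq h4
  have hne : u.Nonempty := by rw [← Finset.card_pos]; omega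
  obtain ⟨i0, hi0⟩ := hne
  have hmem : ∀ i ∈ u, i ∈ s ∧ l (f i) = t := fun i hi => Finset.mem_filter.1 (hu hi)
  let e : Fin 4 ≃ u := (Finset.equivFinOfCardEq hu4).symm
  apply hdeg (g i0)
  refine ⟨fun j => f (e j).1, ?_, ?_⟩
  · intro a b hab
    have := hf _ (hmem _ (e a).2).1 _ (hmem _ (e b).2).1 hab
    exact e.injective (Subtype.ext this)
  · intro j
    have h1 := hmem _ (e j).2
    have h0 := hmem _ hi0
    exact ((hl _ (hfa _ h0.1) _ (hfa _ h1.1) (h0.2.trans h1.2.symm) _ (hg _ h0.1)).1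
      (hadj _ h0.1)).symm

/-- position in a row gadget -/
def sp (r : ℕ) : Bool × Fin 3 :=
  if r = 0 then (false, 0) else if r = 1 then (false, 2) else if r = 2 then (true, 2) else (true, 0)

/-- row paths -/
def rv {n : ℕ} (i : Fin n) (k : Fin (4 * n)) : WV n := ((i, ⟨k.val / 4, by omega⟩), sp (k.val % 4))

lemma rv_adj {n : ℕ} (i : Fin n) (a b : Fin (4 * n)) (h : a.val + 1 = b.val) :
    (wall n).Adj (rv i a) (rv i b) := by
  rw [wall_adj]
  have hr : a.val % 4 = 0 ∨ a.val % 4 = 1 ∨ a.val % 4 = 2 ∨ a.val % 4 = 3 := by omega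
  rcases hr with hr | hr | hr | hr
  · have h1 : b.val % 4 = 1 := by omega
    have h2 : b.val / 4 = a.val / 4 := by omega
    simp only [rv, hr, h1, h2, sp]
    refine ⟨?_, Or.inl (Or.inl ?_)⟩
    · simp
    · simp
  · have h1 : b.val % 4 = 2 := by omega
    have h2 : b.val / 4 = a.val / 4 := by omega
    simp only [rv, hr, h1, h2, sp]
    refine ⟨?_, Or.inl (Or.inr (Or.inl ?_))⟩
    · simp
    · simp
  · have h1 : b.val % 4 = 3 := by omega
    have h2 : b.val / 4 = a.val / 4 := by omega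
    simp only [rv, hr, h1, h2, sp]
    refine ⟨?_, Or.inl (Or.inl ?_)⟩
    · simp
    · simp
  · have h1 : b.val % 4 = 0 := by omega
    have h2 : b.val / 4 = a.val / 4 + 1 := by omega
    simp only [rv, hr, h1, h2, sp]
    refine ⟨?_, Or.inl (Or.inr (Or.inr (Or.inl ?_)))⟩
    · simp
    · simp

lemma row_bound {n k : ℕ} (A : Set (WV n)) (h : Types (wall n) A k) :
    (mixed {p : Fin n × Fin n | (p, false, (2 : Fin 3)) ∈ A}).card ≤ 3 * k := by
  classical
  have hch : ∀ i : Fin n, i ∈ mixed {p : Fin n × Fin n | (p, false, (2 : Fin 3)) ∈ A} →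
      ∃ a b : Fin (4 * n), rv i a ∈ A ∧ rv i b ∉ A ∧ (a.val + 1 = b.val ∨ b.val + 1 = a.val) := by
    intro i hi
    simp only [mixed, Finset.mem_filter, Finset.mem_univ, true_and, Set.mem_setOf_eq] at hi
    obtain ⟨⟨j, hj⟩, ⟨j', hj'⟩⟩ := hi
    apply step_exists (fun k => rv i k ∈ A)
    · refine ⟨⟨4 * j.val + 1, by omega⟩, ?_⟩
      have h1 : (4 * j.val + 1) % 4 = 1 := by omega
      have h2 : (4 * j.val + 1) / 4 = j.val := by omega
      simp only [rv, h1, h2, sp]
      simpa using hj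
    · refine ⟨⟨4 * j'.val + 1, by omega⟩, ?_⟩
      have h1 : (4 * j'.val + 1) % 4 = 1 := by omega
      have h2 : (4 * j'.val + 1) / 4 = j'.val := by omega
      simp only [rv, h1, h2, sp]
      simpa using hj'
  have hch' : ∀ i : Fin n, ∃ x y : WV n,
      i ∈ mixed {p : Fin n × Fin n | (p, false, (2 : Fin 3)) ∈ A} →
      x ∈ A ∧ y ∉ A ∧ (wall n).Adj x y ∧ x.1.1 = i := by
    intro i
    by_cases hi : i ∈ mixed {p : Fin n × Fin n | (p, false, (2 : Fin 3)) ∈ A}
    · obtain ⟨a, b, ha, hb, hab⟩ := hch i hi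
      refine ⟨rv i a, rv i b, fun _ => ⟨ha, hb, ?_, rfl⟩⟩
      rcases hab with hab | hab
      · exact rv_adj i a b hab
      · exact (rv_adj i b a hab).symm
    · exact ⟨((i, i), false, 0), ((i, i), false, 0), fun h => absurd h hi⟩
  choose f g hfg using hch'
  refine cross_count (wall n) A k h wall_not_deg4 _ f g ?_ (fun i hi => (hfg i hi).1)
    (fun i hi => (hfg i hi).2.1) (fun i hi => (hfg i hi).2.2.1)
  intro i hi j hj hij
  rw [← (hfg i hi).2.2.2, hij, (hfg j hj).2.2.2]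

/-- swapping slots 0 and 1 -/
def sw3 : Fin 3 ≃ Fin 3 := Equiv.swap 0 1

/-- swapping rows and columns -/
def wallSwap (n : ℕ) : wall n ≃g wall n where
  toEquiv := (Equiv.prodComm (Fin n) (Fin n)).prodCongr ((Equiv.refl Bool).prodCongr sw3)
  map_rel_iff' := by
    have key : ∀ x y : WV n, wallRel n x y →
        wallRel n ((Equiv.prodComm (Fin n) (Fin n)).prodCongr ((Equiv.refl Bool).prodCongr sw3) x)
        ((Equiv.prodComm (Fin n) (Fin n)).prodCongr ((Equiv.refl Bool).prodCongr sw3) y) := by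
      rintro ⟨⟨x1, x2⟩, xs, xt⟩ ⟨⟨y1, y2⟩, ys, yt⟩ h
      simp only [wallRel, Equiv.prodCongr_apply, Prod.map_apply, Equiv.prodComm_apply,
        Prod.swap_prod_mk, Equiv.refl_apply, Prod.mk.injEq] at h ⊢
      rcases h with ⟨⟨h1, h2⟩, h3⟩ | ⟨⟨h1, h2⟩, h3, h4⟩ | ⟨h1, h2, ⟨h3, h4⟩, h5, h6⟩ |
        ⟨h1, h2, ⟨h3, h4⟩, h5, h6⟩
      · exact Or.inl ⟨⟨h2, h1⟩, h3⟩
      · exact Or.inr (Or.inl ⟨⟨h2, h1⟩, by rw [h3]; rfl, by rw [h4]; rfl⟩)
      · exact Or.inr (Or.inr (Or.inr ⟨h1, h2, ⟨h3, by rw [h4]; rfl⟩, h5, by rw [h6]; rfl⟩))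
      · exact Or.inr (Or.inr (Or.inl ⟨h1, h2, ⟨h3, by rw [h4]; rfl⟩, h5, by rw [h6]; rfl⟩))
    have inv : ∀ x : WV n, ((Equiv.prodComm (Fin n) (Fin n)).prodCongr ((Equiv.refl Bool).prodCongr sw3)
        ((Equiv.prodComm (Fin n) (Fin n)).prodCongr ((Equiv.refl Bool).prodCongr sw3) x)) = x := by
      rintro ⟨⟨x1, x2⟩, xs, xt⟩
      simp only [Equiv.prodCongr_apply, Prod.map_apply, Equiv.prodComm_apply, Prod.swap_prod_mk,
        Equiv.refl_apply, sw3, Equiv.swap_apply_self]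
    intro x y
    rw [wall_adj, wall_adj]
    have hne : ((Equiv.prodComm (Fin n) (Fin n)).prodCongr ((Equiv.refl Bool).prodCongr sw3) x ≠
        (Equiv.prodComm (Fin n) (Fin n)).prodCongr ((Equiv.refl Bool).prodCongr sw3) y) ↔ x ≠ y :=
      (Equiv.injective _).ne_iff
    rw [hne]
    refine and_congr_right fun _ => ⟨?_, ?_⟩
    · rintro (h | h)
      · left; have := key _ _ h; rwa [inv, inv] at this
      · right; have := key _ _ h; rwa [inv, inv] at this
    · rintro (h | h)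
      · left; exact key _ _ h
      · right; exact key _ _ h

/-- the combinatorial core of the grid bound -/
lemma grid_comb {n : ℕ} (hn : 0 < n) (A : Set (Fin n × Fin n)) (h1 : n * n ≤ 3 * A.ncard)
    (h2 : 3 * A.ncard ≤ 2 * (n * n)) :
    n ≤ 3 * (mixed A).card ∨ n ≤ (mixed (Prod.swap ⁻¹' A)).card := by
  have hcompl : A.ncard + Aᶜ.ncard = n * n := by
    rw [Set.ncard_add_ncard_compl]; simp
  by_cases hfull : ∃ i, ∀ j, (i, j) ∈ A
  · by_cases hempty : ∃ i, ∀ j, (i, j) ∉ A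
    · obtain ⟨i, hi⟩ := hfull
      obtain ⟨i', hi'⟩ := hempty
      right
      have : mixed (Prod.swap ⁻¹' A) = Finset.univ := by
        ext j
        simp only [mixed, Finset.mem_filter, Finset.mem_univ, true_and, iff_true]
        exact ⟨⟨i, hi j⟩, ⟨i', hi' j⟩⟩
      rw [this]
      simp
    · left
      push Not at hempty
      have h3 : Aᶜ.ncard ≤ (mixed Aᶜ).card * n := by
        apply card_le_mixed
        rintro i ⟨j, hj⟩
        rw [mixed_compl]
        simp only [mixed, Finset.mem_filter, Finset.mem_univ, true_and]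
        exact ⟨hempty i, j, hj⟩
      rw [mixed_compl] at h3
      have : n * n ≤ (3 * (mixed A).card) * n := by linarith
      exact Nat.le_of_mul_le_mul_right this hn
  · left
    push Not at hfull
    have h3 : A.ncard ≤ (mixed A).card * n := by
      apply card_le_mixed
      rintro i ⟨j, hj⟩
      simp only [mixed, Finset.mem_filter, Finset.mem_univ, true_and]
      exact ⟨⟨j, hj⟩, hfull i⟩
    have : n * n ≤ (3 * (mixed A).card) * n := by linarith
    exact Nat.le_of_mul_le_mul_right this hn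

theorem wall_unbounded : ∀ c N : ℕ, ∃ n ≥ N, ∀ k ≤ c, ¬ CwLE (wall n) k := by
  intro c N
  refine ⟨N + 9 * c + 2, by omega, ?_⟩
  intro k hk hcw
  set n := N + 9 * c + 2 with hn
  have hinj : Function.Injective (fun p : Fin n × Fin n => ((p, false, (2 : Fin 3)) : WV n)) := by
    intro p q h
    exact congrArg Prod.fst h
  have hcard : (Set.range (fun p : Fin n × Fin n => ((p, false, (2 : Fin 3)) : WV n))).ncard =
      n * n := by
    rw [← Set.image_univ, Set.ncard_image_of_injective _ hinj, Set.ncard_univ]; simp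
  obtain ⟨A, hT, h1, h2⟩ := balanced_cut (wall n) k hcw _ (by rw [hcard]; nlinarith)
  rw [hcard] at h1 h2
  have hA : (A ∩ Set.range (fun p : Fin n × Fin n => ((p, false, (2 : Fin 3)) : WV n))).ncard =
      {p : Fin n × Fin n | (p, false, (2 : Fin 3)) ∈ A}.ncard := by
    rw [← Set.ncard_image_of_injective _ hinj]
    congr 1
    ext x
    constructor
    · rintro ⟨hx, p, rfl⟩
      exact ⟨p, hx, rfl⟩
    · rintro ⟨p, hp, rfl⟩
      exact ⟨hp, p, rfl⟩
  rw [hA] at h1 h2
  have hr := row_bound A hT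
  have hT' : Types (wall n) (wallSwap n ⁻¹' A) k := Types.iso _ hT
  have hr' := row_bound _ hT'
  have he : {p : Fin n × Fin n | (p, false, (2 : Fin 3)) ∈ wallSwap n ⁻¹' A} =
      Prod.swap ⁻¹' {p : Fin n × Fin n | (p, false, (2 : Fin 3)) ∈ A} := by
    ext ⟨p, q⟩
    rfl
  rw [he] at hr'
  rcases grid_comb (by omega) _ h1 h2 with h | h <;> omega

end Pool.Agent.H690R3.Itm
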